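import Pool.Agent.CRD.D2.Stmts

/-!
# LNK: morphisms between coherent modules in `D^b(Coh R)` and in `D(Mod R)`
-/

open CategoryTheory Opposite Limits TensorProduct Pretriangulated

namespace Pool.CRD.FB

namespace LNK_

universe v v' u u'

/-- a fully faithful linear functor commuting with the shift: graded homs -/
noncomputable def ffEquiv {K : Type} [CommRing K] {T : Type u} [Category.{v} T] [Preadditive T]
    [Linear K T] [HasShift T ℤ] {T' : Type u'} [Category.{v'} T'] [Preadditive T'] [Linear K T']
    [HasShift T' ℤ] (G : T' ⥤ T) [G.CommShift ℤ] [G.Additive] [G.Linear K] [G.Full]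
    [G.Faithful] (X Y : T') (n : ℤ) : (X ⟶ Y⟦n⟧) ≃ₗ[K] (G.obj X ⟶ (G.obj Y)⟦n⟧) :=
  LinearEquiv.ofBijective
    { toFun := fun f => G.map f ≫ (G.commShiftIso n).hom.app Y
      map_add' := by
        intro a b
        rw [G.map_add, Preadditive.add_comp]
      map_smul' := by
        intro c a
        rw [G.map_smul, Linear.smul_comp]
        rfl }
    (by
      constructor
      · intro a b h
        apply G.map_injective
        exact (cancel_mono ((G.commShiftIso n).hom.app Y)).1 h
      · intro g
        refine ⟨G.preimage (g ≫ (G.commShiftIso n).inv.app Y), ?_⟩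
        change G.map (G.preimage (g ≫ (G.commShiftIso n).inv.app Y)) ≫
          (G.commShiftIso n).hom.app Y = g
        rw [Functor.map_preimage, Category.assoc, Iso.inv_hom_id_app, Category.comp_id])

end LNK_

open LNK_ in
theorem lnk_proof (hFFD : Pool.CRD.Stmt_FFD) : Stmt_LNK := by
  intro K _ C _ R _ hE M N n
  obtain ⟨h1, h2, -⟩ := hFFD K C R hE
  have e : ∀ M : Coh R, (ιD R).obj ((sgB R).obj M) ≅ (sg R).obj M.obj := fun M =>
    ((IsCoh R).ι.mapDerivedCategorySingleFunctor 0).app M
  have e1 := ffEquiv (K := K) (ιD R) ((sgB R).obj M) ((sgB R).obj N) n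
  exact ⟨e1.trans (Linear.homCongr K (e M) ((shiftFunctor (DPM R) n).mapIso (e N)))⟩

end Pool.CRD.FB
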