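import Pool.Agent.CRD.B.SEF

/-!
# CRD / D2: enough vector bundles on projective diagrams
-/

open CategoryTheory Opposite Limits Pretriangulated

namespace Pool.CRD

namespace Vb_

variable {K : Type} [CommRing K] {C : Type} [SmallCategory C] {R : PAlg K C}

lemma proj_sigma (k : ℕ) (M : PMod R) (X : Cᵒᵖ)
    (hM : Module.Projective (R.toRing.obj X) (M.obj X)) :
    Module.Projective (R.toRing.obj X) ((∐ fun _ : Fin k => M : PMod R).obj X) := by
  haveI : PreservesColimitsOfShape (Discrete (Fin k)) (ev R X) :=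
    preservesCoproductsOfShape_of_preservesBiproductsOfShape (ev R X)
  have e : (ev R X).obj (∐ fun _ : Fin k => M) ≅ ∐ fun _ : Fin k => (ev R X).obj M :=
    PreservesCoproduct.iso (ev R X) (fun _ : Fin k => M)
  haveI : Projective ((ev R X).obj M) := (IsProjective.iff_projective _).1 hM
  haveI : Projective (∐ fun _ : Fin k => (ev R X).obj M) := inferInstance
  have h1 : Projective ((ev R X).obj (∐ fun _ : Fin k => M)) := Projective.of_iso e.symm this
  exact (IsProjective.iff_projective _).2 h1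

end Vb_

/-- enough vector bundles -/
theorem enough_vb (hSRA : Stmt_SRA) (hTWK : Stmt_TWK) {K B ι C : Type} [CommRing K] [CommRing B]
    [Algebra K B] [Finite ι] [SemilatticeInf C] (R : PAlg K C) [R.Good] (A : Amp K B ι R) :
    ∀ M, IsCoh R M → ∃ (V : PMod R) (f : V ⟶ M), IsVB R V ∧ Epi f := by
  intro M hM
  obtain ⟨d, h⟩ := hSRA K B ι C R A M hM
  obtain ⟨k, f, hf⟩ := h d le_rfl
  refine ⟨∐ fun _ : Fin k => A.O (-d), f, ⟨?_, fun X => ?_⟩, hf⟩
  · exact SEF_.coh_sigma k _ ((hTWK K C R).2 _ _ (hTWK K C R).1)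
  · exact Vb_.proj_sigma k _ X
      (inferInstanceAs (Module.Projective (R.toRing.obj X) (R.toRing.obj X)))

end Pool.CRD
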