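import Pool.Agent.CRD.D2.Stmts
import Pool.Agent.CRD.D1.StmtsB
import Pool.Agent.CRD.Phi.Fun

/-!
# CRD / D2: the final statement of D2 and the form in which the result of D1 is used
-/

open CategoryTheory Opposite Limits TensorProduct Pretriangulated

namespace Pool.CRD.FB

/-- the result of D1: point-like objects are shifts of `I_z Q` -/
def Stmt_D1F : Prop :=
  ∀ (K : Type) [Field K] [IsAlgClosed K] [CharZero K] (c₁ c₂ : CurveData K) (S : SurfData c₁ c₂)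
    (X : ConicData S) [X.R.Good], 3 ≤ Module.finrank K c₁.H1 → 3 ≤ Module.finrank K c₂.H1 →
    ¬ S.Split → ∀ P : Db X.R, IsPointLike K P →
    ∃ (n : ℤ) (z : S.Pt) (Q : PMod (Cnc z.u z.v K)) (P₀ : Coh X.R), IsCoh (Cnc z.u z.v K) Q ∧
      Nonempty (P₀.obj ≅ (X.IF z).obj Q) ∧ Nonempty (P ≅ ((sgB X.R).obj P₀)⟦n⟧)

/-- the result of D2, in the form used for the interface `IX` -/
def Stmt_D2F : Prop :=
  ∀ (K : Type) [Field K] [IsAlgClosed K] [CharZero K] (c₁ c₂ : CurveData K) (S : SurfData c₁ c₂)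
    (X : ConicData S) [X.R.Good] [S.R.Good] [X.POK], 3 ≤ Module.finrank K c₁.H1 →
    3 ≤ Module.finrank K c₂.H1 → ¬ S.Split →
    (∀ M N : Db X.R, HomFin K M N) ∧
    ∃ r d : Db X.R → ℤ, AddD r ∧ AddD d ∧ (∀ N, Even (d N)) ∧
      ∀ P : Db X.R, IsPointLike K P → ∃ n r' d' : ℤ, 0 ≤ r' ∧
        (∀ N : Db X.R, chi K N P = (n.negOnePow : ℤ) * (r N * (r' + d') - r' * d N)) ∧
        (∀ N : Db X.R, chi K P N = (n.negOnePow : ℤ) * (r N * (r' - d') + r' * d N)) ∧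
        (r' = 1 → ∀ i, d' = 2 * i → ∃ (m : ℤ) (k : Coh S.R), Simple k ∧
          Nonempty (P ≅ (X.PhD i).obj (((sgB S.R).obj k)⟦m⟧)))

end Pool.CRD.FB
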