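import Pool.Agent.CRD.D2.Stmts

/-!
# ADC: every additive function on coherent modules extends to `D^b(Coh R)`
-/

open CategoryTheory Opposite Limits TensorProduct Pretriangulated

namespace Pool.CRD.FB

namespace ADC_

section

universe v u
variable {A : Type u} [Category.{v} A] [Abelian A] {G : Type} [AddCommGroup G]
variable {f : A → G} (hf : Cn.IsAdd f)
include hf

theorem ker_im {X Y : A} (g : X ⟶ Y) : f X = f (kernel g) + f (Abelian.image g) := by
  have e : kernel g ≅ kernel (Abelian.factorThruImage g) :=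
    (kernelIsoOfEq (Abelian.image.fac g)).symm ≪≫ kernelCompMono _ _
  rw [hf.epi_eq (Abelian.factorThruImage g), hf.of_iso e]

theorem ex {S : ShortComplex A} (hS : S.Exact) :
    f S.X₂ = f (Abelian.image S.f) + f (Abelian.image S.g) := by
  rw [ker_im hf S.g]
  have h1 : Epi (kernel.lift S.g S.f S.zero) := S.exact_iff_epi_kernel_lift.1 hS
  have h2 : Abelian.factorThruImage S.f ≫ S.abelianImageToKernel = kernel.lift S.g S.f S.zero := by
    rw [← cancel_mono (kernel.ι S.g), Category.assoc, S.abelianImageToKernel_comp_kernel_ι,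
      Abelian.image.fac, kernel.lift_ι]
  have h3 : Epi (Abelian.factorThruImage S.f ≫ S.abelianImageToKernel) := by rw [h2]; exact h1
  have h4 : Epi S.abelianImageToKernel := epi_of_epi (Abelian.factorThruImage S.f) _
  have h5 : IsIso S.abelianImageToKernel := isIso_of_mono_of_epi _
  rw [hf.of_iso (asIso S.abelianImageToKernel)]

theorem im_zero_src {X Y : A} (g : X ⟶ Y) (hX : IsZero X) : f (Abelian.image g) = 0 :=
  hf.of_isZero (hX.of_epi (Abelian.factorThruImage g))

theorem im_zero_tgt {X Y : A} (g : X ⟶ Y) (hY : IsZero Y) : f (Abelian.image g) = 0 :=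
  hf.of_isZero (hY.of_mono (Abelian.image.ι g))

end

section

universe w v u
variable {A : Type u} [Category.{v} A] [Abelian A] [HasDerivedCategory.{w} A] {G : Type}
  [AddCommGroup G]

/-- the extension to the derived category -/
noncomputable def FF (f : A → G) (X : DerivedCategory A) : G :=
  ∑ᶠ p : ℤ, p.negOnePow • f ((DerivedCategory.homologyFunctor A p).obj X)

variable {f : A → G} (hf : Cn.IsAdd f)

/-- functions on `ℤ` which vanish outside of `[a, b]` -/
def Bd (g : ℤ → G) : Prop := ∃ a b : ℤ, ∀ p, (p < a ∨ b < p) → g p = 0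

theorem Bd.fin {g : ℤ → G} (h : Bd g) :
    (Function.support fun p : ℤ => p.negOnePow • g p).Finite := by
  obtain ⟨a, b, h⟩ := h
  refine (Set.finite_Icc a b).subset ?_
  intro p hp
  by_contra hcon
  apply hp
  have : p < a ∨ b < p := by
    by_contra hc
    push Not at hc
    exact hcon ⟨hc.1, hc.2⟩
  show p.negOnePow • g p = 0
  rw [h p this, smul_zero]

/-- the alternating sum -/
noncomputable def al (g : ℤ → G) : G := ∑ᶠ p : ℤ, p.negOnePow • g p

theorem al_add {g g' : ℤ → G} (h : Bd g) (h' : Bd g') : al (fun p => g p + g' p) = al g + al g' := by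
  unfold al
  rw [← finsum_add_distrib h.fin h'.fin]
  exact finsum_congr fun p => smul_add _ _ _

theorem al_shift (g : ℤ → G) : al (fun p => g (p - 1)) = - al g := by
  unfold al
  rw [← finsum_comp_equiv (Equiv.addRight (1 : ℤ))
    (f := fun p : ℤ => p.negOnePow • g (p - 1)), ← finsum_neg_distrib]
  refine finsum_congr fun p => ?_
  show (p + 1).negOnePow • g (p + 1 - 1) = -(p.negOnePow • g p)
  rw [add_sub_cancel_right, Int.negOnePow_succ, Units.neg_smul]

include hf in
theorem add_tri (T : Triangle (DerivedCategory A)) (hT : T ∈ distTriang _)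
    (hz₁ : ∃ a b : ℤ, ∀ p, (p < a ∨ b < p) →
      IsZero ((DerivedCategory.homologyFunctor A p).obj T.obj₁))
    (hz₂ : ∃ a b : ℤ, ∀ p, (p < a ∨ b < p) →
      IsZero ((DerivedCategory.homologyFunctor A p).obj T.obj₂))
    (hz₃ : ∃ a b : ℤ, ∀ p, (p < a ∨ b < p) →
      IsZero ((DerivedCategory.homologyFunctor A p).obj T.obj₃)) :
    FF f T.obj₂ = FF f T.obj₁ + FF f T.obj₃ := by
  let k : ℤ → G := fun p => f (Abelian.image ((DerivedCategory.homologyFunctor A p).map T.mor₁))
  let l : ℤ → G := fun p => f (Abelian.image ((DerivedCategory.homologyFunctor A p).map T.mor₂))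
  let m : ℤ → G := fun p => f (Abelian.image
    (DerivedCategory.HomologySequence.δ T p (p + 1) rfl))
  have hk : Bd k := by
    obtain ⟨a, b, h⟩ := hz₁
    exact ⟨a, b, fun p hp => im_zero_src hf _ (h p hp)⟩
  have hl : Bd l := by
    obtain ⟨a, b, h⟩ := hz₂
    exact ⟨a, b, fun p hp => im_zero_src hf _ (h p hp)⟩
  have hm : Bd m := by
    obtain ⟨a, b, h⟩ := hz₃
    exact ⟨a, b, fun p hp => im_zero_src hf _ (h p hp)⟩
  have hm' : Bd (fun p => m (p - 1)) := by
    obtain ⟨a, b, h⟩ := hm
    exact ⟨a + 1, b + 1, fun p hp => h _ (by omega)⟩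
  have e2 : ∀ p, f ((DerivedCategory.homologyFunctor A p).obj T.obj₂) = k p + l p := fun p =>
    ex hf (DerivedCategory.HomologySequence.exact₂ T hT p)
  have e3 : ∀ p, f ((DerivedCategory.homologyFunctor A p).obj T.obj₃) = l p + m p := fun p =>
    ex hf (DerivedCategory.HomologySequence.exact₃ T hT p (p + 1) rfl)
  have e1 : ∀ p, f ((DerivedCategory.homologyFunctor A p).obj T.obj₁) = m (p - 1) + k p := by
    intro p
    obtain ⟨q, rfl⟩ : ∃ q, p = q + 1 := ⟨p - 1, by ring⟩
    have h5 := ex hf (DerivedCategory.HomologySequence.exact₁ T hT q (q + 1) rfl)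
    have h6 : q + 1 - 1 = q := by ring
    rw [h6]
    exact h5
  have f1 : FF f T.obj₁ = al (fun p => m (p - 1) + k p) :=
    finsum_congr fun p => by rw [e1]
  have f2 : FF f T.obj₂ = al (fun p => k p + l p) := finsum_congr fun p => by rw [e2]
  have f3 : FF f T.obj₃ = al (fun p => l p + m p) := finsum_congr fun p => by rw [e3]
  rw [f1, f2, f3, al_add hm' hk, al_add hk hl, al_add hl hm, al_shift]
  abel

include hf in
theorem single (M : A) : FF f ((DerivedCategory.singleFunctor A 0).obj M) = f M := by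
  unfold FF
  rw [finsum_eq_single _ (0 : ℤ)]
  · rw [Int.negOnePow_zero, one_smul]
    exact hf.of_iso ((DerivedCategory.singleFunctorCompHomologyFunctorIso A 0).app M)
  · intro p hp
    have hz : IsZero ((DerivedCategory.homologyFunctor A p).obj
        ((DerivedCategory.singleFunctor A 0).obj M)) := by
      rcases lt_or_gt_of_ne hp with h | h
      · exact DerivedCategory.isZero_of_isGE _ 0 p h
      · exact DerivedCategory.isZero_of_isLE _ 0 p h
    rw [hf.of_isZero hz, smul_zero]

end

end ADC_

open ADC_ in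
theorem adc_proof : Stmt_ADC := by
  intro K _ C _ R _ G _ f hf
  have hbd : ∀ N : Db R, ∃ a b : ℤ, ∀ p, (p < a ∨ b < p) →
      IsZero ((DerivedCategory.homologyFunctor (Coh R) p).obj N.obj) := by
    intro N
    obtain ⟨⟨a, ha⟩, ⟨b, hb⟩⟩ := N.property
    have ha' : N.obj.IsGE a := ha
    have hb' : N.obj.IsLE b := hb
    refine ⟨a, b, fun p hp => ?_⟩
    rcases hp with hp | hp
    · exact DerivedCategory.isZero_of_isGE _ a p hp
    · exact DerivedCategory.isZero_of_isLE _ b p hp
  refine ⟨fun N => FF f N.obj, ?_, fun M => single hf M⟩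
  intro Δ hΔ
  have hT : (DerivedCategory.Bounded.ι (C := Coh R)).mapTriangle.obj Δ ∈ distTriang _ :=
    (DerivedCategory.Bounded.ι (C := Coh R)).map_distinguished Δ hΔ
  exact add_tri hf _ hT (hbd Δ.obj₁) (hbd Δ.obj₂) (hbd Δ.obj₃)

end Pool.CRD.FB
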