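import Pool.Agent.CRD.D2.Stmts
import Pool.Agent.CRD.A0.FunL

/-!
# CRD / D2: ADI, the derived adjunction for `I_z`
-/

set_option autoImplicit false

open CategoryTheory Opposite Limits TensorProduct Pretriangulated

namespace Pool.CRD.FB

namespace ADI_

section

variable {K : Type} [Field K] {c₁ c₂ : CurveData K} {S : SurfData c₁ c₂} (X : ConicData S)
  (z : S.Pt)

/-- the restriction of `X` to the smallest chart of `S` containing `z` -/
noncomputable abbrev W : PAlg K (Cov Bool) := (ConicData.chF z.z₁.mn z.z₂.mn).op ⋙ X.R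

omit X in
lemma mch_le {s : Ch3} (hs : z.In s.i s.j) : (⟨z.z₁.mn, z.z₂.mn, s.k⟩ : Ch3) ≤ s :=
  ⟨((z.in_iff _ _).1 hs).1, ((z.in_iff _ _).1 hs).2, le_rfl⟩

/-- sections over a chart as a module over the ring of the chart -/
noncomputable instance instModW (M : PMod (W X z)) (k : Cov Bool) :
    Module (X.A z.z₁.mn z.z₂.mn k) (sec M k) :=
  inferInstanceAs (Module ((W X z).ring k) (sec M k))

variable {X z}

/-- restriction of sections -/
noncomputable def rsW (M : PMod (W X z)) {k l : Cov Bool} (h : l ≤ k) (x : sec M k) :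
    sec M l := rs M (homOfLE h).op x

lemma rsW_add (M : PMod (W X z)) {k l : Cov Bool} (h : l ≤ k) (x y : sec M k) :
    rsW M h (x + y) = rsW M h x + rsW M h y := rs_add M _ x y

lemma rsW_zero (M : PMod (W X z)) {k l : Cov Bool} (h : l ≤ k) :
    rsW M h (0 : sec M k) = 0 := rs_zero M _

lemma rsW_smul (M : PMod (W X z)) {k l : Cov Bool} (h : l ≤ k) (r : X.A z.z₁.mn z.z₂.mn k)
    (x : sec M k) : rsW M h (r • x) =
      Subalgebra.inclusion (X.A_mono le_rfl le_rfl h) r • rsW M h x :=
  rs_smul M (homOfLE h).op r x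

lemma rsW_id (M : PMod (W X z)) {k : Cov Bool} (h : k ≤ k) (x : sec M k) :
    rsW M h x = x := rs_id M _ x

lemma rsW_comp (M : PMod (W X z)) {k l m : Cov Bool} (h : l ≤ k) (h' : m ≤ l)
    (h'' : m ≤ k) (x : sec M k) : rsW M h'' x = rsW M h' (rsW M h x) :=
  rs_comp M (homOfLE h).op (homOfLE h').op x

lemma rsW_nat {M N : PMod (W X z)} (φ : M ⟶ N) {k l : Cov Bool} (h : l ≤ k) (x : sec M k) :
    φ.app (op l) (rsW M h x) = rsW N h (φ.app (op k) x) := rs_nat φ _ x

variable (X z)

/-- the restriction of a function to the smallest chart -/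
noncomputable def act (s : Ch3) (f : X.A s.i s.j s.k) : X.A z.z₁.mn z.z₂.mn s.k := by
  classical
  exact if hs : z.In s.i s.j then
    Subalgebra.inclusion (X.A_mono (mch_le z hs).1 (mch_le z hs).2.1 le_rfl) f else 0

variable {z}

lemma act_of_in {s : Ch3} (hs : z.In s.i s.j) (f : X.A s.i s.j s.k) :
    act X z s f = Subalgebra.inclusion (X.A_mono (mch_le z hs).1 (mch_le z hs).2.1 le_rfl) f := by
  unfold act
  rw [dif_pos hs]

variable {X}

/-- sections of `G M` over the chart `s` -/
def Gcar (M : PMod (W X z)) (s : Ch3) : AddSubgroup (sec M s.k) where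
  carrier := {m | ¬ z.In s.i s.j → m = 0}
  zero_mem' := fun _ => rfl
  add_mem' {m n} hm hn h := by rw [hm h, hn h, add_zero]
  neg_mem' {m} hm h := by rw [hm h, neg_zero]

noncomputable instance instGcar (M : PMod (W X z)) (s : Ch3) :
    Module (X.A s.i s.j s.k) (Gcar M s) where
  smul f m := ⟨act X z s f • (m : sec M s.k), fun h => by rw [m.2 h, smul_zero]⟩
  one_smul m := by
    apply Subtype.ext
    change act X z s 1 • (m : sec M s.k) = m
    by_cases h : z.In s.i s.j
    · rw [act_of_in X h, map_one, one_smul]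
    · rw [m.2 h, smul_zero]
  mul_smul f g m := by
    apply Subtype.ext
    change act X z s (f * g) • (m : sec M s.k) = act X z s f • act X z s g • (m : sec M s.k)
    by_cases h : z.In s.i s.j
    · rw [act_of_in X h, act_of_in X h, act_of_in X h, map_mul, mul_smul]
    · rw [m.2 h, smul_zero, smul_zero, smul_zero]
  smul_zero f := by
    apply Subtype.ext
    change act X z s f • (0 : sec M s.k) = 0
    rw [smul_zero]
  smul_add f m n := by
    apply Subtype.ext
    change act X z s f • ((m : sec M s.k) + n) = act X z s f • (m : sec M s.k) + act X z s f • n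
    rw [smul_add]
  add_smul f g m := by
    apply Subtype.ext
    change act X z s (f + g) • (m : sec M s.k) = act X z s f • (m : sec M s.k) +
      act X z s g • (m : sec M s.k)
    by_cases h : z.In s.i s.j
    · rw [act_of_in X h, act_of_in X h, act_of_in X h, map_add, add_smul]
    · rw [m.2 h, smul_zero, smul_zero, smul_zero, add_zero]
  zero_smul m := by
    apply Subtype.ext
    change act X z s 0 • (m : sec M s.k) = 0
    by_cases h : z.In s.i s.j
    · rw [act_of_in X h, map_zero, zero_smul]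
    · rw [m.2 h, smul_zero]

lemma Gcar_smul_coe (M : PMod (W X z)) (s : Ch3) (f : X.A s.i s.j s.k)
    (m : Gcar M s) : ((f • m : Gcar M s) : sec M s.k) = act X z s f • (m : sec M s.k) := rfl

/-- restriction maps of `G M` -/
noncomputable def Gres (M : PMod (W X z)) {s t : Ch3} (h : t ≤ s) (m : Gcar M s) :
    Gcar M t := by
  classical
  exact if _ht : z.In t.i t.j then ⟨rsW M h.2.2 (m : sec M s.k), fun h' =>
    absurd _ht h'⟩ else 0

lemma Gres_in (M : PMod (W X z)) {s t : Ch3} (h : t ≤ s) (m : Gcar M s)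
    (ht : z.In t.i t.j) : (Gres M h m : sec M t.k) = rsW M h.2.2 (m : sec M s.k) := by
  unfold Gres
  rw [dif_pos ht]

lemma Gcar_eq {M : PMod (W X z)} {t : Ch3} {m n : Gcar M t}
    (h : z.In t.i t.j → (m : sec M t.k) = n) : m = n := by
  apply Subtype.ext
  by_cases ht : z.In t.i t.j
  · exact h ht
  · rw [m.2 ht, n.2 ht]

lemma Gres_add (M : PMod (W X z)) {s t : Ch3} (h : t ≤ s) (x y : Gcar M s) :
    Gres M h (x + y) = Gres M h x + Gres M h y := by
  apply Gcar_eq
  intro ht
  rw [AddSubgroup.coe_add, Gres_in M _ _ ht, Gres_in M _ _ ht, Gres_in M _ _ ht,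
    AddSubgroup.coe_add, rsW_add]

lemma Gres_smul (M : PMod (W X z)) {s t : Ch3} (h : t ≤ s) (r : X.A s.i s.j s.k)
    (x : Gcar M s) : Gres M h (r • x) =
      Subalgebra.inclusion (X.A_mono h.1 h.2.1 h.2.2) r • Gres M h x := by
  apply Gcar_eq
  intro ht
  have hs : z.In s.i s.j := SurfData.Pt.In.mono z h.1 h.2.1 ht
  rw [Gres_in M _ _ ht, Gcar_smul_coe, Gcar_smul_coe, Gres_in M _ _ ht, act_of_in X hs,
    act_of_in X ht, rsW_smul]
  have e : Subalgebra.inclusion (X.A_mono le_rfl le_rfl h.2.2)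
      (Subalgebra.inclusion (X.A_mono (mch_le z hs).1 (mch_le z hs).2.1 le_rfl) r) =
      Subalgebra.inclusion (X.A_mono (mch_le z ht).1 (mch_le z ht).2.1 le_rfl)
        (Subalgebra.inclusion (X.A_mono h.1 h.2.1 h.2.2) r) := by
    apply Subtype.ext
    rw [Subalgebra.coe_inclusion, Subalgebra.coe_inclusion, Subalgebra.coe_inclusion,
      Subalgebra.coe_inclusion]
  rw [e]

lemma Gres_id (M : PMod (W X z)) {s : Ch3} (h : s ≤ s) (x : Gcar M s) :
    Gres M h x = x := by
  apply Gcar_eq
  intro ht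
  rw [Gres_in M _ _ ht, rsW_id]

lemma Gres_comp (M : PMod (W X z)) {s t r : Ch3} (h : t ≤ s) (h' : r ≤ t) (h'' : r ≤ s)
    (x : Gcar M s) : Gres M h'' x = Gres M h' (Gres M h x) := by
  apply Gcar_eq
  intro hr
  have ht : z.In t.i t.j := SurfData.Pt.In.mono z h'.1 h'.2.1 hr
  rw [Gres_in M _ _ hr, Gres_in M _ _ hr, Gres_in M _ _ ht]
  exact rsW_comp M _ _ _ _

/-- the module `G M` -/
noncomputable def Gobj (M : PMod (W X z)) : PMod X.R :=
  mkP X.R (fun Y => ModuleCat.of (X.A Y.unop.i Y.unop.j Y.unop.k) (Gcar M Y.unop))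
    (fun {_ _} f m => Gres M (leOfHom f.unop) m)
    (fun f x y => Gres_add M (leOfHom f.unop) x y)
    (fun f r x => Gres_smul M (leOfHom f.unop) r x)
    (fun U x => Gres_id M le_rfl x)
    (fun f g x => Gres_comp M (leOfHom f.unop) (leOfHom g.unop) _ x)

/-- the map induced by a morphism -/
noncomputable def Gmap {M N : PMod (W X z)} (φ : M ⟶ N) (s : Ch3) :
    Gcar M s →ₗ[X.A s.i s.j s.k] Gcar N s where
  toFun m := ⟨φ.app (op s.k) (m : sec M s.k), fun h => by
    rw [m.2 h]; exact map_zero (φ.app (op s.k)).hom⟩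
  map_add' x y := Subtype.ext
    (map_add (φ.app (op s.k)).hom (x : sec M s.k) (y : sec M s.k))
  map_smul' r x := Subtype.ext
    (map_smul (φ.app (op s.k)).hom (act X z s r) (x : sec M s.k))

lemma Gmap_coe {M N : PMod (W X z)} (φ : M ⟶ N) (s : Ch3) (x : Gcar M s) :
    ((Gmap φ s x : Gcar N s) : sec N s.k) = φ.app (op s.k) (x : sec M s.k) := rfl

lemma Gmap_res {M N : PMod (W X z)} (φ : M ⟶ N) {s t : Ch3} (h : t ≤ s)
    (x : Gcar M s) : Gmap φ t (Gres M h x) = Gres N h (Gmap φ s x) := by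
  apply Gcar_eq
  intro ht
  rw [Gres_in N _ _ ht, Gmap_coe, Gmap_coe, Gres_in M _ _ ht, rsW_nat]

variable (X z)

/-- the right adjoint of the restriction to the smallest charts -/
noncomputable def GF : PMod (W X z) ⥤ PMod X.R where
  obj M := Gobj M
  map {M N} φ := mkHom (M := Gobj M) (N := Gobj N)
    (fun Y => Gmap φ Y.unop)
    (fun f x => Gmap_res φ (leOfHom f.unop) x)
  map_id M := by
    apply pmod_ext
    intro Y x
    rfl
  map_comp φ ψ := by
    apply pmod_ext
    intro Y x
    rfl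

instance : (GF X z).Additive where
  map_add := by
    intro M N f g
    apply pmod_ext
    intro Y x
    rfl

instance : (GF X z).Linear K where
  map_smul := by
    intro M N f r
    apply pmod_ext
    intro Y (x : Gcar M Y.unop)
    change Gmap (r • f) Y.unop x = (algebraMap K (X.A Y.unop.i Y.unop.j Y.unop.k) r) •
      Gmap f Y.unop x
    apply Gcar_eq
    intro h
    rw [Gcar_smul_coe, act_of_in X h, AlgHom.commutes]
    rfl

instance : ExF (GF X z) := by
  refine exF_of_exact _ inferInstance ?_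
  intro T hT
  haveI := hT.mono_f
  haveI := hT.epi_g
  have e := fun Y => exact_app T hT.exact Y
  refine ⟨fun Y (x : Gcar T.X₁ Y.unop) (y : Gcar T.X₁ Y.unop) h => ?_,
    fun Y (x : Gcar T.X₂ Y.unop) => ⟨fun h => ?_, ?_⟩, fun Y (x : Gcar T.X₃ Y.unop) => ?_⟩
  · exact Subtype.ext (inj_of_mono T.f (op Y.unop.k) (congrArg Subtype.val h))
  · obtain ⟨y, hy⟩ := (e (op Y.unop.k) x.1).1 (congrArg Subtype.val h)
    refine ⟨(⟨y, fun h' => ?_⟩ : Gcar T.X₁ Y.unop), Subtype.ext hy⟩
    apply inj_of_mono T.f (op Y.unop.k)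
    rw [hy, map_zero]
    exact x.2 h'
  · rintro ⟨y, rfl⟩
    apply Subtype.ext
    exact (e (op Y.unop.k) _).2 ⟨(y : Gcar T.X₁ Y.unop).1, rfl⟩
  · classical
    by_cases h' : z.In Y.unop.i Y.unop.j
    · obtain ⟨y, hy⟩ := surj_of_epi T.g (op Y.unop.k) x.1
      exact ⟨(⟨y, fun h'' => absurd h' h''⟩ : Gcar T.X₂ Y.unop), Subtype.ext hy⟩
    · refine ⟨0, ?_⟩
      rw [map_zero]
      exact Subtype.ext (x.2 h').symm

/-- the left adjoint -/
noncomputable abbrev FF : PMod X.R ⥤ PMod (W X z) := pb X.R (ConicData.chF z.z₁.mn z.z₂.mn)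

variable {X}

/-- the unit on sections -/
noncomputable def un (N : PMod X.R) (s : Ch3) (x : sec N s) : Gcar ((FF X z).obj N) s := by
  classical
  exact if h : z.In s.i s.j then
    ⟨(rs N (X := op s) (Y := op ⟨z.z₁.mn, z.z₂.mn, s.k⟩) (homOfLE (mch_le z h)).op x :
      sec N (⟨z.z₁.mn, z.z₂.mn, s.k⟩ : Ch3)), fun h' => absurd h h'⟩ else 0

variable {z}

lemma un_in (N : PMod X.R) (s : Ch3) (x : sec N s) (h : z.In s.i s.j) :
    @Eq (sec N (⟨z.z₁.mn, z.z₂.mn, s.k⟩ : Ch3)) (un z N s x : Gcar ((FF X z).obj N) s).1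
      (rs N (X := op s) (Y := op ⟨z.z₁.mn, z.z₂.mn, s.k⟩) (homOfLE (mch_le z h)).op x) := by
  unfold un
  rw [dif_pos h]

lemma rs_sq (M : PMod X.R) {A B B' D : Ch3ᵒᵖ} (f : A ⟶ B) (g : B ⟶ D) (f' : A ⟶ B') (g' : B' ⟶ D)
    (x : M.obj A) : rs M g (rs M f x) = rs M g' (rs M f' x) := by
  rw [← rs_comp, ← rs_comp, Subsingleton.elim (f ≫ g) (f' ≫ g')]

variable (X z)

/-- the unit -/
noncomputable def unit : 𝟭 (PMod X.R) ⟶ FF X z ⋙ GF X z where
  app N := mkHom (M := N) (N := Gobj ((FF X z).obj N))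
    (fun Y =>
      { toFun := fun x => un z N Y.unop x
        map_add' := fun x y => by
          apply Gcar_eq
          intro h
          refine (un_in N Y.unop (x + y) h).trans ?_
          refine (rs_add N _ x y).trans ?_
          exact (congrArg₂ (· + ·) (un_in N Y.unop x h) (un_in N Y.unop y h)).symm
        map_smul' := fun r x => by
          apply Gcar_eq
          intro h
          refine (un_in N Y.unop _ h).trans ?_
          refine (rs_smul N _ r x).trans ?_
          refine Eq.trans ?_ (Gcar_smul_coe ((FF X z).obj N) Y.unop r (un z N Y.unop x)).symm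
          rw [act_of_in X h]
          exact (congrArg (fun t : N.obj (op (⟨z.z₁.mn, z.z₂.mn, Y.unop.k⟩ : Ch3)) =>
            (show X.R.toRing.obj (op (⟨z.z₁.mn, z.z₂.mn, Y.unop.k⟩ : Ch3)) from
              Subalgebra.inclusion (X.A_mono (mch_le z h).1 (mch_le z h).2.1 le_rfl) r) • t)
            (un_in N Y.unop x h)).symm })
    (fun {Y Y'} f x => by
      change un z N Y'.unop (rs N f x) = Gres ((FF X z).obj N) (leOfHom f.unop)
        (un z N Y.unop x)
      apply Gcar_eq
      intro ht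
      have hs : z.In Y.unop.i Y.unop.j :=
        SurfData.Pt.In.mono z (leOfHom f.unop).1 (leOfHom f.unop).2.1 ht
      refine (un_in N Y'.unop _ ht).trans ?_
      refine Eq.trans ?_ (Gres_in ((FF X z).obj N) _ _ ht).symm
      refine Eq.trans ?_ (congrArg (fun t => rsW ((FF X z).obj N) (leOfHom f.unop).2.2 t)
        (un_in N Y.unop x hs)).symm
      exact rs_sq N _ _ _ _ x)
  naturality M N α := by
    apply pmod_ext; intro Y x
    change un z N Y.unop (α.app Y x) = Gmap ((FF X z).map α) Y.unop (un z M Y.unop x)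
    apply Gcar_eq
    intro h
    refine (un_in N Y.unop _ h).trans ?_
    refine Eq.trans ?_ (Gmap_coe ((FF X z).map α) Y.unop (un z M Y.unop x)).symm
    refine Eq.trans ?_ (congrArg (fun t => α.app (op (⟨z.z₁.mn, z.z₂.mn, Y.unop.k⟩ : Ch3)) t)
      (un_in M Y.unop x h)).symm
    exact (rs_nat α _ x).symm

/-- the counit -/
noncomputable def counit : GF X z ⋙ FF X z ⟶ 𝟭 (PMod (W X z)) where
  app M := mkHom (M := (FF X z).obj (Gobj M)) (N := M)
    (fun k =>
      { toFun := fun (x : Gcar M (⟨z.z₁.mn, z.z₂.mn, k.unop⟩ : Ch3)) => (x : sec M k.unop)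
        map_add' := fun x y => rfl
        map_smul' := fun r x => by
          refine (Gcar_smul_coe M (⟨z.z₁.mn, z.z₂.mn, k.unop⟩ : Ch3) r x).trans ?_
          rw [act_of_in X (s := (⟨z.z₁.mn, z.z₂.mn, k.unop⟩ : Ch3)) z.in_mn]
          rfl })
    (fun {k l} f x => Gres_in M (s := (⟨z.z₁.mn, z.z₂.mn, k.unop⟩ : Ch3))
      (t := (⟨z.z₁.mn, z.z₂.mn, l.unop⟩ : Ch3)) ⟨le_rfl, le_rfl, leOfHom f.unop⟩ x z.in_mn)
  naturality M N α := by
    apply pmod_ext; intro Y x
    rfl

/-- the adjunction -/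
noncomputable def adj : FF X z ⊣ GF X z :=
  Adjunction.mkOfUnitCounit
    { unit := unit X z
      counit := counit X z
      left_triangle := by
        apply NatTrans.ext
        funext N
        apply pmod_ext; intro k x
        change @Eq (sec N (⟨z.z₁.mn, z.z₂.mn, k.unop⟩ : Ch3))
          (un z N (⟨z.z₁.mn, z.z₂.mn, k.unop⟩ : Ch3) x : Gcar ((FF X z).obj N)
          (⟨z.z₁.mn, z.z₂.mn, k.unop⟩ : Ch3)).1 x
        refine (un_in N (⟨z.z₁.mn, z.z₂.mn, k.unop⟩ : Ch3) x z.in_mn).trans ?_
        exact rs_id N _ x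
      right_triangle := by
        apply NatTrans.ext
        funext M
        apply pmod_ext; intro Y x
        change Gmap ((counit X z).app M) Y.unop (un z (Gobj M) Y.unop x) = x
        apply Gcar_eq
        intro h
        refine (Gmap_coe ((counit X z).app M) Y.unop _).trans ?_
        refine (congrArg (fun t : Gcar M (⟨z.z₁.mn, z.z₂.mn, Y.unop.k⟩ : Ch3) =>
          (t : sec M Y.unop.k)) (un_in (Gobj M) Y.unop x h)).trans ?_
        refine (Gres_in M (mch_le z h) x z.in_mn).trans ?_
        exact rsW_id M _ _ }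

/-- `I_z` as a composition -/
noncomputable def isoIF : rsc (X.evN z) ⋙ GF X z ≅ X.IF z :=
  NatIso.ofComponents (fun M => mkIso (M := Gobj ((rsc (X.evN z)).obj M)) (N := X.Iobj z M)
    (fun Y =>
      { toFun := fun (x : Gcar ((rsc (X.evN z)).obj M) Y.unop) =>
          (⟨x.1, x.2⟩ : ConicData.Icar z M Y.unop)
        invFun := fun (x : ConicData.Icar z M Y.unop) =>
          (⟨x.1, x.2⟩ : Gcar ((rsc (X.evN z)).obj M) Y.unop)
        left_inv := fun x => rfl
        right_inv := fun x => rfl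
        map_add' := fun x y => rfl
        map_smul' := fun r x => by
          apply ConicData.Icar_eq
          intro h
          refine (Gcar_smul_coe ((rsc (X.evN z)).obj M) Y.unop r x).trans ?_
          refine Eq.trans ?_ (X.Icar_smul_coe z M Y.unop r _).symm
          rw [act_of_in X h, X.act_of_in z h]
          have e := X.ev_res z (mch_le z h) h z.in_mn r
          exact congrArg (fun t : conSub z.u z.v K Y.unop.k =>
            t • (show sec M Y.unop.k from x.1)) e })
    (fun {Y Y'} f x => by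
      apply ConicData.Icar_eq
      intro h
      refine (Gres_in ((rsc (X.evN z)).obj M) (leOfHom f.unop) x h).trans ?_
      exact (ConicData.Ires_in z M (leOfHom f.unop) _ h).symm))
    (fun {M N} α => by
      apply pmod_ext; intro Y x
      rfl)

end

end ADI_

open ADI_ FunL in
theorem adi_proof : Stmt_ADI := by
  intro K _ c₁ c₂ S X z _ N Y
  let e1 : (mD (X.IF z)).obj Y ≅ (mD (GF X z)).obj ((mD (rsc (X.evN z))).obj Y) :=
    ((natDIso (isoIF X z)).symm.app Y) ≪≫ ((compD (rsc (X.evN z)) (GF X z)).symm.app Y)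
  let Φ : ((mD (FF X z)).obj N ⟶ (mD (rsc (X.evN z))).obj Y) →ₗ[K]
      (N ⟶ (mD (X.IF z)).obj Y) :=
    { toFun := fun f => (unitD (adj X z)).app N ≫ (mD (GF X z)).map f ≫ e1.inv
      map_add' := fun f g => by
        rw [Functor.map_add, Preadditive.add_comp, Preadditive.comp_add]
      map_smul' := fun r f => by
        rw [Functor.map_smul, Linear.smul_comp, Linear.comp_smul]; rfl }
  have hΦ : Function.Bijective Φ := by
    have h1 := adjD_bijective (adj X z) N ((mD (rsc (X.evN z))).obj Y)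
    have h2 : Function.Bijective (fun g : N ⟶ (mD (GF X z)).obj ((mD (rsc (X.evN z))).obj Y) =>
        g ≫ e1.inv) := by
      constructor
      · intro f g h
        have h' : f ≫ e1.inv = g ≫ e1.inv := h
        rw [← cancel_mono e1.inv]
        exact h'
      · intro g
        exact ⟨g ≫ e1.hom, by simp⟩
    have h3 := h2.comp h1
    have h4 : (Φ : ((mD (FF X z)).obj N ⟶ (mD (rsc (X.evN z))).obj Y) →
        (N ⟶ (mD (X.IF z)).obj Y)) = (fun g : N ⟶ (mD (GF X z)).obj
          ((mD (rsc (X.evN z))).obj Y) => g ≫ e1.inv) ∘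
        (fun f : (mD (FF X z)).obj N ⟶ (mD (rsc (X.evN z))).obj Y =>
          (unitD (adj X z)).app N ≫ (mD (GF X z)).map f) := by
      funext f
      change (unitD (adj X z)).app N ≫ (mD (GF X z)).map f ≫ e1.inv =
        ((unitD (adj X z)).app N ≫ (mD (GF X z)).map f) ≫ e1.inv
      rw [Category.assoc]
    rw [h4]
    exact h3
  exact ⟨(LinearEquiv.ofBijective Φ hΦ).symm⟩

end Pool.CRD.FB
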