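import Pool.Agent.CRD.D2.Stmts
import Pool.Agent.CRD.C.Stmts

/-!
# ADU: an additive function which vanishes on coherent modules vanishes
-/

open CategoryTheory Opposite Limits TensorProduct Pretriangulated

namespace Pool.CRD.FB

namespace ADU_

open scoped ZeroObject

section

variable {K : Type} [CommRing K] {C : Type} [SmallCategory C] {R : PAlg K C} [R.Good]
    {G : Type} [AddCommGroup G] {F : Db R → G} (hF : AddD F)
include hF

theorem zero : F (0 : Db R) = 0 := by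
  have h := hF _ (contractible_distinguished (0 : Db R))
  have h' : F (0 : Db R) = F (0 : Db R) + F (0 : Db R) := h
  exact left_eq_add.1 h'

theorem iso {M N : Db R} (e : M ≅ N) : F M = F N := by
  have hT : Triangle.mk e.hom (0 : N ⟶ 0) 0 ∈ distTriang (Db R) := by
    refine isomorphic_distinguished _ (contractible_distinguished M) _ ?_
    refine Triangle.isoMk _ _ (Iso.refl M) e.symm (Iso.refl (0 : Db R)) ?_ ?_ ?_
    · show e.hom ≫ e.inv = 𝟙 M ≫ 𝟙 M
      rw [e.hom_inv_id, Category.comp_id]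
    · show (0 : N ⟶ 0) ≫ 𝟙 _ = e.inv ≫ 0
      rw [zero_comp, comp_zero]
    · show (0 : (0 : Db R) ⟶ M⟦(1 : ℤ)⟧) ≫ (𝟙 M)⟦(1 : ℤ)⟧' = 𝟙 _ ≫ 0
      rw [zero_comp, comp_zero]
  have h := hF _ hT
  have h' : F N = F M + F (0 : Db R) := h
  rw [zero hF, add_zero] at h'
  exact h'.symm

theorem shift_one (X : Db R) : F (X⟦(1 : ℤ)⟧) = - F X := by
  have h := hF _ (contractible_distinguished₂ X)
  have h' : F (0 : Db R) = F X + F (X⟦(1 : ℤ)⟧) := h
  rw [zero hF] at h'
  exact eq_neg_of_add_eq_zero_right h'.symm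

theorem shift (X : Db R) (n : ℤ) (hX : F X = 0) : F (X⟦n⟧) = 0 := by
  induction n using Int.induction_on with
  | zero =>
    rw [iso hF ((shiftFunctorZero (Db R) ℤ).app X)]
    exact hX
  | succ n ih =>
    rw [iso hF ((shiftFunctorAdd' (Db R) (n : ℤ) 1 (n + 1) rfl).app X)]
    refine (shift_one hF (X⟦(n : ℤ)⟧)).trans ?_
    rw [ih, neg_zero]
  | pred n ih =>
    have h1 := shift_one hF (X⟦(-(n : ℤ) - 1)⟧)
    have h2 := iso hF ((shiftFunctorAdd' (Db R) (-(n : ℤ) - 1) 1 (-(n : ℤ)) (by ring)).app X)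
    rw [ih] at h2
    exact neg_eq_zero.1 (h1.symm.trans h2.symm)

end

end ADU_

open ADU_ in
theorem adu_proof (hDVD : Sky.Stmt_DVD) : Stmt_ADU := by
  intro K _ C _ R _ G _ F hF h0 N
  refine hDVD K C R (fun N => F N = 0) ?_ ?_ ?_ h0 N
  · exact ⟨fun {X Y} e hX => (iso hF e).symm.trans hX⟩
  · exact fun X n hX => shift hF X n hX
  · intro Δ hΔ h1 h3
    show F Δ.obj₂ = 0
    rw [hF Δ hΔ, show F Δ.obj₁ = 0 from h1, show F Δ.obj₃ = 0 from h3, add_zero]

end Pool.CRD.FB
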