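import Pool.Agent.CRD.D2.Stmts

/-!
# CRD / D2: ADV, an additive function which vanishes on vector bundles vanishes
-/

open CategoryTheory Opposite Limits TensorProduct Pretriangulated ZeroObject

set_option linter.unusedSectionVars false

namespace Pool.CRD.FB

namespace ADV_

universe w v u

section
variable {A : Type u} [Category.{v} A] [Abelian A] [HasDerivedCategory.{w} A]
  {G : Type} [AddCommGroup G] (F : DerivedCategory.Bounded A → G)
  (hF : ∀ Δ ∈ distTriang (DerivedCategory.Bounded A), F Δ.obj₂ = F Δ.obj₁ + F Δ.obj₃)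

include hF

lemma f_zero : F 0 = 0 := by
  have h := hF _ (contractible_distinguished (0 : DerivedCategory.Bounded A))
  change F 0 = F 0 + F 0 at h
  exact left_eq_add.1 h

lemma f_iso {X Y : DerivedCategory.Bounded A} (e : X ≅ Y) : F X = F Y := by
  have h1 : Triangle.mk e.hom (0 : Y ⟶ (0 : DerivedCategory.Bounded A)) 0 ∈
      distTriang (DerivedCategory.Bounded A) :=
    isomorphic_distinguished _ (contractible_distinguished X) _
      (Triangle.isoMk _ _ (Iso.refl X) e.symm (Iso.refl (0 : DerivedCategory.Bounded A))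
        (by
          change e.hom ≫ e.inv = 𝟙 X ≫ 𝟙 X
          rw [Iso.hom_inv_id, Category.comp_id])
        (by
          change (0 : Y ⟶ (0 : DerivedCategory.Bounded A)) ≫ 𝟙 _ = e.inv ≫ 0
          rw [zero_comp, comp_zero])
        (by
          change (0 : (0 : DerivedCategory.Bounded A) ⟶ X⟦(1 : ℤ)⟧) ≫ (𝟙 X)⟦(1 : ℤ)⟧' = 𝟙 _ ≫ 0
          rw [zero_comp, comp_zero]))
  have h := hF _ h1
  change F Y = F X + F 0 at h
  rw [f_zero F hF, add_zero] at h
  exact h.symm

lemma f_iso' {X Y : DerivedCategory.Bounded A} (e : X.obj ≅ Y.obj) : F X = F Y :=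
  f_iso F hF ((DerivedCategory.Bounded.ι (C := A)).preimageIso e)

lemma f_shift (X : DerivedCategory.Bounded A) : F (X⟦(1 : ℤ)⟧) = - F X := by
  have h := hF _ (rot_of_distTriang _ (contractible_distinguished X))
  change F 0 = F X + F (X⟦(1 : ℤ)⟧) at h
  rw [f_zero F hF] at h
  exact (neg_eq_of_add_eq_zero_right h.symm).symm

lemma f_shift_zero (X : DerivedCategory.Bounded A) (hX : F X = 0) (n : ℤ) : F (X⟦n⟧) = 0 := by
  induction n using Int.induction_on with
  | zero =>
    rw [f_iso F hF ((shiftFunctorZero (DerivedCategory.Bounded A) ℤ).app X)]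
    exact hX
  | succ n ih =>
    rw [f_iso F hF ((shiftFunctorAdd' (DerivedCategory.Bounded A) (n : ℤ) 1 (n + 1) rfl).app X)]
    change F ((X⟦(n : ℤ)⟧)⟦(1 : ℤ)⟧) = 0
    rw [f_shift F hF, ih, neg_zero]
  | pred n ih =>
    rw [f_iso F hF ((shiftFunctorAdd' (DerivedCategory.Bounded A) (-(n : ℤ) - 1) 1 (-(n : ℤ))
      (by ring)).app X)] at ih
    change F ((X⟦-(n : ℤ) - 1⟧)⟦(1 : ℤ)⟧) = 0 at ih
    rw [f_shift F hF, neg_eq_zero] at ih
    exact ih

/-- additivity for triangles of the derived category with bounded vertices -/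
lemma f_tri (T : Triangle (DerivedCategory A)) (hT : T ∈ distTriang (DerivedCategory A))
    (X₁ X₂ X₃ : DerivedCategory.Bounded A) (e₁ : X₁.obj ≅ T.obj₁) (e₂ : X₂.obj ≅ T.obj₂)
    (e₃ : X₃.obj ≅ T.obj₃) : F X₂ = F X₁ + F X₃ := by
  let ι := DerivedCategory.Bounded.ι (C := A)
  obtain ⟨f, hf⟩ := ι.map_surjective (X := X₁) (Y := X₂) (e₁.hom ≫ T.mor₁ ≫ e₂.inv)
  obtain ⟨g, hg⟩ := ι.map_surjective (X := X₂) (Y := X₃) (e₂.hom ≫ T.mor₂ ≫ e₃.inv)
  obtain ⟨h, hh⟩ := ι.map_surjective (X := X₃) (Y := X₁⟦(1 : ℤ)⟧)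
    (e₃.hom ≫ T.mor₃ ≫ e₁.inv⟦(1 : ℤ)⟧' ≫ (ι.commShiftIso (1 : ℤ)).inv.app X₁)
  have hD : Triangle.mk f g h ∈ distTriang (DerivedCategory.Bounded A) := by
    rw [← ι.map_distinguished_iff]
    refine isomorphic_distinguished _ hT _ (Triangle.isoMk _ _ e₁ e₂ e₃ ?_ ?_ ?_)
    · change ι.map f ≫ e₂.hom = e₁.hom ≫ T.mor₁
      rw [hf]
      simp
    · change ι.map g ≫ e₃.hom = e₂.hom ≫ T.mor₂
      rw [hg]
      simp
    · change (ι.map h ≫ (ι.commShiftIso (1 : ℤ)).hom.app X₁) ≫ e₁.hom⟦(1 : ℤ)⟧' =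
        e₃.hom ≫ T.mor₃
      rw [hh]
      simp only [Category.assoc]
      rw [Iso.inv_hom_id_app_assoc, ← Functor.map_comp, Iso.inv_hom_id,
        CategoryTheory.Functor.map_id, Category.comp_id]
  exact hF _ hD

end

section
variable {A : Type u} [Category.{v} A] [Abelian A] [HasDerivedCategory.{w} A]

/-- the projection of a complex which is zero in degrees `< a` to its part in degree `a` -/
noncomputable def pr (V : CochainComplex A ℤ) (a : ℤ) (h : ∀ i, i + 1 = a → IsZero (V.X i)) :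
    V ⟶ (HomologicalComplex.single A (ComplexShape.up ℤ) a).obj (V.X a) :=
  HomologicalComplex.mkHomToSingle (𝟙 _) (fun i hi => (h i hi).eq_of_src _ _)

lemma pr_isIso (V : CochainComplex A ℤ) (a : ℤ) (h : ∀ i, i + 1 = a → IsZero (V.X i)) :
    IsIso ((pr V a h).f a) := by
  unfold pr
  rw [HomologicalComplex.mkHomToSingle_f, Category.id_comp]
  infer_instance

lemma pr_epi (V : CochainComplex A ℤ) (a : ℤ) (h : ∀ i, i + 1 = a → IsZero (V.X i)) :
    Epi (pr V a h) := by
  have h1 : ∀ i, Epi ((pr V a h).f i) := by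
    intro i
    by_cases hi : i = a
    · subst hi
      have := pr_isIso V i h
      infer_instance
    · exact (HomologicalComplex.isZero_single_obj_X (ComplexShape.up ℤ) a (V.X a) i hi).epi _
  exact HomologicalComplex.epi_of_epi_f _ h1

/-- the short exact sequence of the stupid truncation -/
noncomputable def sS (V : CochainComplex A ℤ) (a : ℤ) (h : ∀ i, i + 1 = a → IsZero (V.X i)) :
    ShortComplex (CochainComplex A ℤ) :=
  ShortComplex.mk (kernel.ι (pr V a h)) (pr V a h) (kernel.condition _)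

lemma sS_exact (V : CochainComplex A ℤ) (a : ℤ) (h : ∀ i, i + 1 = a → IsZero (V.X i)) :
    (sS V a h).ShortExact := by
  have := pr_epi V a h
  exact { exact := ShortComplex.exact_kernel _
          mono_f := by unfold sS; infer_instance
          epi_g := this }

lemma sS_X (V : CochainComplex A ℤ) (a : ℤ) (h : ∀ i, i + 1 = a → IsZero (V.X i)) (n : ℤ)
    (hn : n ≠ a) : Nonempty ((sS V a h).X₁.X n ≅ V.X n) := by
  have h1 := (sS_exact V a h).map_of_exact (HomologicalComplex.eval A (ComplexShape.up ℤ) n)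
  have h2 : IsZero ((sS V a h).map (HomologicalComplex.eval A (ComplexShape.up ℤ) n)).X₃ :=
    HomologicalComplex.isZero_single_obj_X (ComplexShape.up ℤ) a (V.X a) n hn
  have h3 : IsIso ((sS V a h).map (HomologicalComplex.eval A (ComplexShape.up ℤ) n)).f :=
    h1.isIso_f_iff.2 h2
  exact ⟨@asIso A _ ((sS V a h).X₁.X n) (V.X n)
    ((sS V a h).map (HomologicalComplex.eval A (ComplexShape.up ℤ) n)).f h3⟩

lemma sS_X0 (V : CochainComplex A ℤ) (a : ℤ) (h : ∀ i, i + 1 = a → IsZero (V.X i)) :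
    IsZero ((sS V a h).X₁.X a) := by
  have h1 := (sS_exact V a h).map_of_exact (HomologicalComplex.eval A (ComplexShape.up ℤ) a)
  exact h1.isIso_g_iff.1 (pr_isIso V a h)

lemma bdd (V : CochainComplex A ℤ) (a b : ℤ) (ha : ∀ n, n < a → IsZero (V.X n))
    (hb : ∀ n, b < n → IsZero (V.X n)) :
    DerivedCategory.TStructure.t.bounded (DerivedCategory.Q.obj V) := by
  have h1 : V.IsStrictlyGE a := (CochainComplex.isStrictlyGE_iff V a).2 (fun i hi => ha i hi)
  have h2 : V.IsStrictlyLE b := (CochainComplex.isStrictlyLE_iff V b).2 (fun i hi => hb i hi)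
  exact ⟨⟨a, inferInstanceAs (DerivedCategory.IsGE (DerivedCategory.Q.obj V) a)⟩,
    ⟨b, inferInstanceAs (DerivedCategory.IsLE (DerivedCategory.Q.obj V) b)⟩⟩

theorem van {G : Type} [AddCommGroup G] (F : DerivedCategory.Bounded A → G)
    (hF : ∀ Δ ∈ distTriang (DerivedCategory.Bounded A), F Δ.obj₂ = F Δ.obj₁ + F Δ.obj₃)
    (P : A → Prop) (h0 : ∀ (M : A), P M → ∀ X : DerivedCategory.Bounded A,
      Nonempty (X.obj ≅ (DerivedCategory.singleFunctor A 0).obj M) → F X = 0) (m : ℕ) :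
    ∀ (a : ℤ) (V : CochainComplex A ℤ),
      (∀ n, a ≤ n → n < a + m → ∃ M, P M ∧ Nonempty (V.X n ≅ M)) →
      (∀ n, ¬ (a ≤ n ∧ n < a + m) → IsZero (V.X n)) →
      ∀ X : DerivedCategory.Bounded A, Nonempty (X.obj ≅ DerivedCategory.Q.obj V) → F X = 0 := by
  induction m with
  | zero =>
    intro a V _ hV X ⟨e⟩
    have h1 : IsZero V := by
      rw [IsZero.iff_id_eq_zero]
      ext n
      exact (hV n (by push_cast; lia)).eq_of_src _ _
    have h2 : IsZero (DerivedCategory.Q.obj V) := DerivedCategory.Q.map_isZero h1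
    have h3 : IsZero ((DerivedCategory.Bounded.ι (C := A)).obj X) := h2.of_iso e
    have h4 : IsZero X := by
      rw [IsZero.iff_id_eq_zero]
      apply (DerivedCategory.Bounded.ι (C := A)).map_injective
      exact h3.eq_of_src _ _
    rw [f_iso F hF (h4.isoZero), f_zero F hF]
  | succ m ih =>
    intro a V hP hV X ⟨e⟩
    have h : ∀ i, i + 1 = a → IsZero (V.X i) := fun i hi => hV i (by lia)
    have hS := sS_exact V a h
    -- the subcomplex
    have hz : ∀ n, ¬ (a + 1 ≤ n ∧ n < a + 1 + m) → IsZero ((sS V a h).X₁.X n) := by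
      intro n hn
      by_cases hna : n = a
      · subst hna
        exact sS_X0 V n h
      · obtain ⟨i⟩ := sS_X V a h n hna
        exact (hV n (by push_cast at hn ⊢; lia)).of_iso i
    have hp : ∀ n, a + 1 ≤ n → n < a + 1 + m → ∃ M, P M ∧
        Nonempty ((sS V a h).X₁.X n ≅ M) := by
      intro n h1 h2
      obtain ⟨M, hM, ⟨i⟩⟩ := hP n (by lia) (by push_cast; lia)
      obtain ⟨j⟩ := sS_X V a h n (by lia)
      exact ⟨M, hM, ⟨j ≪≫ i⟩⟩
    have b1 := bdd (sS V a h).X₁ (a + 1) (a + m) (fun n hn => hz n (by lia))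
      (fun n hn => hz n (by lia))
    have b3 := bdd (sS V a h).X₃ a a
      (fun n hn => HomologicalComplex.isZero_single_obj_X (ComplexShape.up ℤ) a (V.X a) n (by lia))
      (fun n hn => HomologicalComplex.isZero_single_obj_X (ComplexShape.up ℤ) a (V.X a) n (by lia))
    let X₁ : DerivedCategory.Bounded A := ⟨DerivedCategory.Q.obj (sS V a h).X₁, b1⟩
    let X₃ : DerivedCategory.Bounded A := ⟨DerivedCategory.Q.obj (sS V a h).X₃, b3⟩
    have key := f_tri F hF _ (DerivedCategory.triangleOfSES_distinguished hS) X₁ X X₃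
      (Iso.refl _) e (Iso.refl _)
    have k1 : F X₁ = 0 := ih (a + 1) _ hp hz X₁ ⟨Iso.refl _⟩
    have k3 : F X₃ = 0 := by
      obtain ⟨M, hM, ⟨i⟩⟩ := hP a le_rfl (by push_cast; lia)
      have b0 : DerivedCategory.TStructure.t.bounded ((DerivedCategory.singleFunctor A 0).obj M) :=
        ⟨⟨0, inferInstance⟩, ⟨0, inferInstance⟩⟩
      let Y : DerivedCategory.Bounded A := ⟨(DerivedCategory.singleFunctor A 0).obj M, b0⟩
      have hY : F Y = 0 := h0 M hM Y ⟨Iso.refl _⟩
      have hY2 := f_shift_zero F hF Y hY (-a)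
      rw [← hY2]
      apply f_iso' F hF
      have e1 : (DerivedCategory.singleFunctor A a).obj (V.X a) ≅
          (DerivedCategory.singleFunctor A a).obj M := (DerivedCategory.singleFunctor A a).mapIso i
      have e2 := (((DerivedCategory.singleFunctors A).shiftIso (-a) a 0 (by ring)).app M)
      exact e1 ≪≫ e2.symm ≪≫
        ((DerivedCategory.Bounded.ι (C := A)).commShiftIso (-a)).symm.app Y
    rw [key, k1, k3, add_zero]

end

end ADV_

open ADV_ in
theorem adv_proof : Stmt_ADV := by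
  intro K _ C _ R _ hres G _ F hF hv N
  obtain ⟨V, a, b, hGE, hLE, hVB, ⟨e⟩⟩ := hres N
  refine van F hF (fun M => IsVB R M.obj) ?_ (b + 1 - a).toNat a V ?_ ?_ N ⟨e⟩
  · intro M hM X ⟨i⟩
    rw [← hv M hM]
    exact f_iso' F hF i
  · intro n _ _
    exact ⟨_, hVB n, ⟨Iso.refl _⟩⟩
  · intro n hn
    by_cases h1 : n < a
    · exact V.isZero_of_isStrictlyGE a n h1
    · exact V.isZero_of_isStrictlyLE b n (by lia)

end Pool.CRD.FB
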