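import Pool.Agent.CRD.D2.Stmts

/-!
# CRD / D2 / BCS: sections of the change of the base ring of the conic
-/

open CategoryTheory Opposite Limits TensorProduct Pretriangulated

namespace Pool.CRD.FB

namespace BCS_

section Alg

lemma isBC {ι R S M N : Type} [CommRing R] [CommRing S] [Algebra R S] [AddCommGroup M]
    [Module R M] [AddCommGroup N] [Module R N] [Module S N] [IsScalarTower R S N]
    (b : Module.Basis ι R M) (b' : Module.Basis ι S N) (f : M →ₗ[R] N)
    (h : ∀ i, f (b i) = b' i) : IsBaseChange S f := by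
  refine IsBaseChange.of_equiv ((b.baseChange S).equiv b' (Equiv.refl _)) ?_
  intro x
  have key : (((b.baseChange S).equiv b' (Equiv.refl _)).toLinearMap.restrictScalars R).comp
      (TensorProduct.mk R S M 1) = f := by
    apply b.ext
    intro i
    change ((b.baseChange S).equiv b' (Equiv.refl _)) (1 ⊗ₜ[R] b i) = f (b i)
    rw [← Module.Basis.baseChange_apply, Module.Basis.equiv_apply, h]
    rfl
  exact congrArg (fun t => t x) key

lemma key {ι B B' R R' M : Type} [CommRing B] [CommRing B'] [CommRing R] [CommRing R']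
    [Algebra B B'] [Algebra B R] [Algebra B' R'] (h : R →+* R')
    (hc : ∀ c : B, h (algebraMap B R c) = algebraMap B' R' (algebraMap B B' c))
    (b : Module.Basis ι B R) (b' : Module.Basis ι B' R') (hb : ∀ i, h (b i) = b' i)
    [AddCommGroup M] [Module R M] [Module B M] [IsScalarTower B R M] :
    ∃ e : (B' ⊗[B] M) ≃+ BT h M, ∀ c m, e (c ⊗ₜ m) = bt h (algebraMap B' R' c) m := by
  let _ : Algebra R R' := h.toAlgebra
  let _ : Algebra B R' := ((algebraMap B' R').comp (algebraMap B B')).toAlgebra
  have _ : IsScalarTower B B' R' := IsScalarTower.of_algebraMap_eq (fun _ => rfl)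
  have _ : IsScalarTower B R R' := IsScalarTower.of_algebraMap_eq (fun c => (hc c).symm)
  have _ : Algebra.IsPushout B B' R R' := ⟨isBC b b' (IsScalarTower.toAlgHom B R R').toLinearMap
    (fun i => hb i)⟩
  exact ⟨(Algebra.IsPushout.cancelBaseChange B B' R R' M).symm.toAddEquiv,
    fun c m => Algebra.IsPushout.cancelBaseChange_symm_tmul B B' R R' M c m⟩

end Alg

section Bas

variable {B : Type} [CommRing B] (a b : Bˣ)

/-- the chart ring as a product of modules of finitely supported functions -/
noncomputable def eqv (k : Cov Bool) :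
    conSub a b B k ≃ₗ[B] (Finsupp.supported B B (exR k) × Finsupp.supported B B (exI k)) where
  toFun z := (⟨z.1.re.coeff, fun n hn => by
      by_contra h
      exact (Finsupp.mem_support_iff.1 hn) (z.2.1 n h)⟩,
    ⟨z.1.im.coeff, fun n hn => by
      by_contra h
      exact (Finsupp.mem_support_iff.1 hn) (z.2.2 n h)⟩)
  invFun p := ⟨⟨AddMonoidAlgebra.ofCoeff p.1.1, AddMonoidAlgebra.ofCoeff p.2.1⟩,
    ⟨fun n hn => by
      by_contra h
      exact hn (p.1.2 (Finsupp.mem_support_iff.2 h)),
    fun n hn => by
      by_contra h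
      exact hn (p.2.2 (Finsupp.mem_support_iff.2 h))⟩⟩
  map_add' x y := rfl
  map_smul' c x := rfl
  left_inv z := rfl
  right_inv p := rfl

/-- the monomial basis of the chart ring -/
noncomputable def bas (k : Cov Bool) :
    Module.Basis (exR k ⊕ exI k) B (conSub a b B k) :=
  Module.Basis.ofRepr ((eqv a b k).trans
    ((LinearEquiv.prodCongr (Finsupp.supportedEquivFinsupp (M := B) (R := B) (exR k))
      (Finsupp.supportedEquivFinsupp (M := B) (R := B) (exI k))).trans
      (Finsupp.sumFinsuppLEquivProdFinsupp B).symm))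

lemma bas_eq (k : Cov Bool) (i : exR k ⊕ exI k) (z : conSub a b B k)
    (h1 : ∀ n : exR k, (z : ConT a b).re.coeff n = Finsupp.single i (1 : B) (Sum.inl n))
    (h2 : ∀ n : exI k, (z : ConT a b).im.coeff n = Finsupp.single i (1 : B) (Sum.inr n)) :
    bas a b k i = z := by
  apply (bas a b k).repr.injective
  rw [Module.Basis.repr_self]
  ext j
  rcases j with n | n
  · exact (h1 n).symm
  · exact (h2 n).symm

lemma bas_inl (k : Cov Bool) (n : exR k) :
    bas a b k (Sum.inl n) =
      ⟨⟨AddMonoidAlgebra.single n.1 1, 0⟩, ⟨single_mem_LpIn n.2 _, zero_mem _⟩⟩ := by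
  apply bas_eq
  · intro m
    change (AddMonoidAlgebra.single n.1 (1 : B)).coeff m.1 = _
    rw [AddMonoidAlgebra.coeff_single]
    by_cases h : m = n
    · subst h
      rw [Finsupp.single_eq_same, Finsupp.single_eq_same]
    · rw [Finsupp.single_eq_of_ne (fun h' => h (Subtype.ext h')),
        Finsupp.single_eq_of_ne (fun h' => h (Sum.inl_injective h'))]
  · intro m
    rw [Finsupp.single_eq_of_ne (by simp)]
    rfl

lemma bas_inr (k : Cov Bool) (n : exI k) :
    bas a b k (Sum.inr n) =
      ⟨⟨0, AddMonoidAlgebra.single n.1 1⟩, ⟨zero_mem _, single_mem_LpIn n.2 _⟩⟩ := by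
  apply bas_eq
  · intro m
    rw [Finsupp.single_eq_of_ne (by simp)]
    rfl
  · intro m
    change (AddMonoidAlgebra.single n.1 (1 : B)).coeff m.1 = _
    rw [AddMonoidAlgebra.coeff_single]
    by_cases h : m = n
    · subst h
      rw [Finsupp.single_eq_same, Finsupp.single_eq_same]
    · rw [Finsupp.single_eq_of_ne (fun h' => h (Subtype.ext h')),
        Finsupp.single_eq_of_ne (fun h' => h (Sum.inr_injective h'))]

end Bas

section Fin

variable {B B' : Type} [CommRing B] [CommRing B'] [Algebra B B'] (a b : Bˣ) (a' b' κ μ : B'ˣ)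
    (ha : (a' : B') = (κ : B') ^ 2 * algebraMap B B' a)
    (hb : (b' : B') = (μ : B') ^ 2 * algebraMap B B' b)

/-- the images of the monomials -/
noncomputable def bas' (k : Cov Bool) :
    Module.Basis (exR k ⊕ exI k) B' (conSub a' b' B' k) :=
  (bas a' b' k).unitsSMul (Sum.elim (fun n => κ ^ (n : ℤ)) (fun n => μ * κ ^ (n : ℤ)))

lemma map_bas (k : Cov Bool) (i : exR k ⊕ exI k) :
    conMapR (algebraMap B B') κ μ ha hb B B' k (bas a b k i) = bas' a' b' κ μ k i := by
  rw [bas', Module.Basis.unitsSMul_apply]
  rcases i with n | n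
  · rw [bas_inl, bas_inl]
    apply Subtype.ext
    apply QuadraticAlgebra.ext
    · change lauMap (algebraMap B B') κ (AddMonoidAlgebra.single n.1 1) =
        (κ ^ (n : ℤ)) • (AddMonoidAlgebra.single n.1 (1 : B'))
      rw [lauMap_single, map_one, one_mul, Units.smul_def, AddMonoidAlgebra.smul_single,
        smul_eq_mul, mul_one]
    · change LaurentPolynomial.C (μ : B') * lauMap (algebraMap B B') κ 0 =
        (κ ^ (n : ℤ)) • (0 : LaurentPolynomial B')
      rw [map_zero, mul_zero, smul_zero]
  · rw [bas_inr, bas_inr]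
    apply Subtype.ext
    apply QuadraticAlgebra.ext
    · change lauMap (algebraMap B B') κ 0 = (μ * κ ^ (n : ℤ)) • (0 : LaurentPolynomial B')
      rw [map_zero, smul_zero]
    · change LaurentPolynomial.C (μ : B') * lauMap (algebraMap B B') κ
          (AddMonoidAlgebra.single n.1 1) =
        (μ * κ ^ (n : ℤ)) • (AddMonoidAlgebra.single n.1 (1 : B'))
      rw [lauMap_single, map_one, one_mul, Units.smul_def, AddMonoidAlgebra.smul_single,
        smul_eq_mul, mul_one, ← LaurentPolynomial.single_eq_C,
        AddMonoidAlgebra.single_mul_single, zero_add]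
      rfl

noncomputable instance (M : PMod (Cnc a b B)) (k : Cov Bool) :
    Module (conSub a b B k) (sec M k) :=
  inferInstanceAs (Module ((Cnc a b B).ring k) (sec M k))

instance (M : PMod (Cnc a b B)) (k : Cov Bool) :
    IsScalarTower B (conSub a b B k) (sec M k) :=
  inferInstanceAs (IsScalarTower B ((Cnc a b B).ring k) (sec M k))

lemma ex (M : PMod (Cnc a b B)) (k : Cov Bool) :
    ∃ e : (B' ⊗[B] sec M k) ≃ₗ[B']
        sec ((cnG (algebraMap B B') κ μ ha hb B B').obj M) k,
      ∀ c m, e (c ⊗ₜ m) = (bt (conMapR (algebraMap B B') κ μ ha hb B B' k)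
        (algebraMap B' (conSub a' b' B' k) c) m : BT _ (sec M k)) := by
  obtain ⟨e, he⟩ := key (M := sec M k) (conMapR (algebraMap B B') κ μ ha hb B B' k)
    (fun c => by
      apply Subtype.ext
      apply QuadraticAlgebra.ext
      · change lauMap (algebraMap B B') κ (algebraMap B (LaurentPolynomial B) c) =
          algebraMap B' (LaurentPolynomial B') (algebraMap B B' c)
        rw [LaurentPolynomial.algebraMap_apply, LaurentPolynomial.algebraMap_apply,
          ← LaurentPolynomial.single_eq_C, ← LaurentPolynomial.single_eq_C, lauMap_single,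
          zpow_zero, Units.val_one, mul_one]
        rfl
      · change LaurentPolynomial.C (μ : B') * lauMap (algebraMap B B') κ 0 = 0
        rw [map_zero, mul_zero]) (bas a b k) (bas' a' b' κ μ k)
    (map_bas a b a' b' κ μ ha hb k)
  refine ⟨{ e with map_smul' := ?_ }, he⟩
  intro c x
  change e (c • x) = (algebraMap B' (conSub a' b' B' k) c) • e x
  induction x using TensorProduct.induction_on with
  | zero => rw [smul_zero, map_zero, smul_zero]
  | tmul d m =>
    rw [TensorProduct.smul_tmul', he, he, smul_bt, smul_eq_mul, map_mul]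
  | add x y hx hy => rw [smul_add, map_add, hx, hy, map_add, smul_add]

lemma rs_comm (M : PMod (Cnc a b B)) {k l : Cov Bool} (f : l ⟶ k)
    (e : ∀ k, (B' ⊗[B] sec M k) ≃ₗ[B']
        sec ((cnG (algebraMap B B') κ μ ha hb B B').obj M) k)
    (he : ∀ k c m, e k (c ⊗ₜ m) = (bt (conMapR (algebraMap B B') κ μ ha hb B B' k)
        (algebraMap B' (conSub a' b' B' k) c) m : BT _ (sec M k)))
    (x : B' ⊗[B] sec M k) :
    e l ((resK M f).baseChange B' x) = resK _ f (e k x) := by
  induction x using TensorProduct.induction_on with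
  | zero => rw [map_zero, map_zero, map_zero, map_zero]
  | tmul d m =>
    rw [LinearMap.baseChange_tmul, he, he]
    rfl
  | add x y hx hy => rw [map_add, map_add, hx, hy, map_add, map_add]

end Fin

end BCS_

theorem bcs_proof : Stmt_BCS := by
  intro B B' _ _ _ a b a' b' κ μ ha hb M
  choose e he using fun k => BCS_.ex a b a' b' κ μ ha hb M k
  exact ⟨e, fun x => BCS_.rs_comm a b a' b' κ μ ha hb M (homOfLE cab_le_ca) e he x,
    fun x => BCS_.rs_comm a b a' b' κ μ ha hb M (homOfLE cab_le_cb) e he x⟩

end Pool.CRD.FB
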