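import Pool.Agent.CRD.D2.Stmts

/-!
# CRD / D2, CE2: morphisms from a locally projective module, two charts, change of rings
-/

set_option autoImplicit false

open CategoryTheory Opposite Limits TensorProduct Pretriangulated

namespace Pool.CRD.FB

namespace CE2_

/-! ### abstract part: short projective resolutions -/

section Abs

variable {A : Type 1} [Category.{0} A] [Abelian A] [HasDerivedCategory.{1} A]

/-- a module as an object of the derived category -/
noncomputable abbrev sA (A : Type 1) [Category.{0} A] [Abelian A] [HasDerivedCategory.{1} A] :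
    A ⥤ DerivedCategory A := DerivedCategory.singleFunctor A 0

theorem neg_zero' (E M : A) (n : ℤ) (hn : n < 0)
    (f : (sA A).obj E ⟶ ((sA A).obj M)⟦n⟧) : f = 0 := by
  have h1 : ((sA A).obj M).IsGE 0 := inferInstance
  have h2 : ((sA A).obj E).IsLE 0 := inferInstance
  have h3 : DerivedCategory.TStructure.t.IsGE (((sA A).obj M)⟦n⟧) (-n) :=
    DerivedCategory.TStructure.t.isGE_shift _ 0 n (-n) (by omega)
  exact DerivedCategory.TStructure.t.zero f 0 (-n) (by omega)

theorem pos_zero (P M : A) [Projective P] (n : ℤ) (hn : 0 < n)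
    (f : (sA A).obj P ⟶ ((sA A).obj M)⟦n⟧) : f = 0 := by
  haveI : HasExt.{1} A := hasExt_of_hasDerivedCategory A
  obtain ⟨m, rfl⟩ : ∃ m : ℕ, n = (m + 1 : ℕ) := ⟨(n - 1).toNat, by omega⟩
  have h1 : Subsingleton (Abelian.Ext.{1} P M (m + 1)) :=
    Abelian.Ext.subsingleton_of_projective P M m
  have h2 := (Abelian.Ext.homEquiv (X := P) (Y := M) (n := m + 1)).symm.injective.subsingleton
  exact Subsingleton.elim _ _

/-- morphisms from a projective -/
theorem proj_zero (P M : A) [Projective P] (n : ℤ) (hn : n ≠ 0)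
    (f : (sA A).obj P ⟶ ((sA A).obj M)⟦n⟧) : f = 0 := by
  rcases lt_or_gt_of_ne hn with h | h
  · exact neg_zero' P M n h f
  · exact pos_zero P M n h f

theorem ex3 (S : ShortComplex A) (hS : S.ShortExact) {Y : DerivedCategory A}
    (f : (sA A).obj S.X₃ ⟶ Y) (hf : (sA A).map S.g ≫ f = 0) :
    ∃ g : ((sA A).obj S.X₁)⟦(1 : ℤ)⟧ ⟶ Y, f = hS.singleδ ≫ g :=
  Triangle.yoneda_exact₃ _ hS.singleTriangle_distinguished f hf

theorem ex1 (S : ShortComplex A) (hS : S.ShortExact) {Y : DerivedCategory A}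
    (f : ((sA A).obj S.X₁)⟦(1 : ℤ)⟧ ⟶ Y) (hf : hS.singleδ ≫ f = 0) :
    ∃ g : ((sA A).obj S.X₂)⟦(1 : ℤ)⟧ ⟶ Y, f = (-(((sA A).map S.f)⟦(1 : ℤ)⟧')) ≫ g :=
  Triangle.yoneda_exact₃ _ (rot_of_distTriang _ hS.singleTriangle_distinguished) f hf

variable (S : ShortComplex A) (hS : S.ShortExact) [Projective S.X₁] [Projective S.X₂]

include hS in
/-- degrees different from 0 and 1 -/
theorem res_zero (M : A) (n : ℤ) (h0 : n ≠ 0) (h1 : n ≠ 1)
    (f : (sA A).obj S.X₃ ⟶ ((sA A).obj M)⟦n⟧) : f = 0 := by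
  obtain ⟨g, hg⟩ := ex3 S hS f (proj_zero S.X₂ M n h0 _)
  rw [hg]
  have h2 : g = 0 := by
    let e := (shiftFunctorAdd' (DerivedCategory A) (n - 1) 1 n (by omega)).app ((sA A).obj M)
    obtain ⟨k, hk⟩ := (shiftFunctor (DerivedCategory A) (1 : ℤ)).map_surjective (g ≫ e.hom)
    have h3 : k = 0 := proj_zero S.X₁ M (n - 1) (by omega) k
    rw [h3, Functor.map_zero] at hk
    rw [← cancel_mono e.hom, ← hk, zero_comp]
  rw [h2, comp_zero]

/-- shift by 0 -/
noncomputable def z0 (M : A) : (sA A).obj M ≅ ((sA A).obj M)⟦(0 : ℤ)⟧ :=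
  ((shiftFunctorZero (DerivedCategory A) ℤ).app ((sA A).obj M)).symm

variable (K : Type) [Field K] [Linear K A]

/-- degree 0 -/
noncomputable def lin0 (E M : A) : (E ⟶ M) ≃ₗ[K] ((sA A).obj E ⟶ ((sA A).obj M)⟦(0 : ℤ)⟧) :=
  LinearEquiv.ofBijective
    { toFun := fun f => (sA A).map f ≫ (z0 M).hom
      map_add' := fun f g => by rw [Functor.map_add, Preadditive.add_comp]
      map_smul' := fun a f => by rw [Functor.map_smul, Linear.smul_comp, RingHom.id_apply] }
    (by
      constructor
      · intro f g h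
        exact (sA A).map_injective ((cancel_mono (z0 M).hom).1 h)
      · intro f
        obtain ⟨g, hg⟩ := (sA A).map_surjective (f ≫ (z0 M).inv)
        refine ⟨g, ?_⟩
        change (sA A).map g ≫ (z0 M).hom = f
        rw [hg, Category.assoc, Iso.inv_hom_id, Category.comp_id])

/-- the map `Hom(X₁, M) → Hom_D(X₃, M[1])` -/
noncomputable def mp1 (M : A) : (S.X₁ ⟶ M) →ₗ[K] ((sA A).obj S.X₃ ⟶ ((sA A).obj M)⟦(1 : ℤ)⟧) where
  toFun f := hS.singleδ ≫ ((sA A).map f)⟦(1 : ℤ)⟧'
  map_add' f g := by rw [Functor.map_add, Functor.map_add, Preadditive.comp_add]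
  map_smul' a f := by
    rw [Functor.map_smul, Functor.map_smul, Linear.comp_smul, RingHom.id_apply]

/-- precomposition -/
noncomputable def pre {X Y : A} (f : X ⟶ Y) (M : A) : (Y ⟶ M) →ₗ[K] (X ⟶ M) where
  toFun g := f ≫ g
  map_add' g h := Preadditive.comp_add _ _ _ _ _ _
  map_smul' a g := by rw [Linear.comp_smul, RingHom.id_apply]

theorem mp1_surj (M : A) : Function.Surjective (mp1 S hS K M) := by
  intro e
  obtain ⟨g, hg⟩ := ex3 S hS e (proj_zero S.X₂ M 1 one_ne_zero _)
  obtain ⟨k, hk⟩ := (shiftFunctor (DerivedCategory A) (1 : ℤ)).map_surjective g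
  obtain ⟨f, hf⟩ := (sA A).map_surjective k
  refine ⟨f, ?_⟩
  change hS.singleδ ≫ ((sA A).map f)⟦(1 : ℤ)⟧' = e
  rw [hf, hk, hg]

theorem mp1_ker (M : A) : LinearMap.ker (mp1 S hS K M) = LinearMap.range (pre K S.f M) := by
  ext f
  rw [LinearMap.mem_ker, LinearMap.mem_range]
  constructor
  · intro h
    have h0 : hS.singleδ ≫ ((sA A).map f)⟦(1 : ℤ)⟧' = 0 := h
    obtain ⟨g, hg⟩ := ex1 S hS (((sA A).map f)⟦(1 : ℤ)⟧') h0
    obtain ⟨k, hk⟩ := (shiftFunctor (DerivedCategory A) (1 : ℤ)).map_surjective g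
    obtain ⟨l, hl⟩ := (sA A).map_surjective k
    refine ⟨-l, ?_⟩
    change S.f ≫ (-l) = f
    apply (sA A).map_injective
    apply (shiftFunctor (DerivedCategory A) (1 : ℤ)).map_injective
    rw [hg, ← hk, ← hl]
    rw [Functor.map_comp, Functor.map_comp, Functor.map_neg, Functor.map_neg, Preadditive.comp_neg,
      Preadditive.neg_comp]
  · rintro ⟨g, rfl⟩
    change hS.singleδ ≫ ((sA A).map (S.f ≫ g))⟦(1 : ℤ)⟧' = 0
    have h1 : hS.singleδ ≫ ((sA A).map S.f)⟦(1 : ℤ)⟧' = 0 :=
      comp_distTriang_mor_zero₃₁ _ hS.singleTriangle_distinguished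
    rw [Functor.map_comp, Functor.map_comp, reassoc_of% h1, zero_comp]

/-- degree 1 -/
noncomputable def lin1 (M : A) : ((S.X₁ ⟶ M) ⧸ LinearMap.range (pre K S.f M)) ≃ₗ[K]
    ((sA A).obj S.X₃ ⟶ ((sA A).obj M)⟦(1 : ℤ)⟧) :=
  (Submodule.quotEquivOfEq _ _ (mp1_ker S hS K M).symm).trans
    (LinearMap.quotKerEquivOfSurjective _ (mp1_surj S hS K M))

end Abs

/-- comparison of two short projective resolutions -/
theorem compare {A A' : Type 1} [Category.{0} A] [Abelian A] [HasDerivedCategory.{1} A]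
    [Category.{0} A'] [Abelian A'] [HasDerivedCategory.{1} A'] (K : Type) [Field K] [Linear K A]
    [Linear K A'] (S : ShortComplex A) (hS : S.ShortExact) [Projective S.X₁] [Projective S.X₂]
    (S' : ShortComplex A') (hS' : S'.ShortExact) [Projective S'.X₁] [Projective S'.X₂]
    (M : A) (M' : A') (e1 : (S.X₁ ⟶ M) ≃ₗ[K] (S'.X₁ ⟶ M')) (e2 : (S.X₂ ⟶ M) ≃ₗ[K] (S'.X₂ ⟶ M'))
    (e3 : (S.X₃ ⟶ M) ≃ₗ[K] (S'.X₃ ⟶ M')) (h : ∀ f, e1 (S.f ≫ f) = S'.f ≫ e2 f) (n : ℤ) :
    Nonempty (((sA A).obj S.X₃ ⟶ ((sA A).obj M)⟦n⟧) ≃ₗ[K]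
      ((sA A').obj S'.X₃ ⟶ ((sA A').obj M')⟦n⟧)) := by
  by_cases h0 : n = 0
  · subst h0
    exact ⟨((lin0 K S.X₃ M).symm.trans e3).trans (lin0 K S'.X₃ M')⟩
  by_cases h1 : n = 1
  · subst h1
    have h2 : (LinearMap.range (pre K S.f M)).map (e1 : (S.X₁ ⟶ M) →ₗ[K] (S'.X₁ ⟶ M')) =
        LinearMap.range (pre K S'.f M') := by
      ext x
      constructor
      · rintro ⟨_, ⟨f, rfl⟩, rfl⟩
        exact ⟨e2 f, (h f).symm⟩
      · rintro ⟨f, rfl⟩
        refine ⟨S.f ≫ e2.symm f, ⟨_, rfl⟩, ?_⟩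
        change e1 (S.f ≫ e2.symm f) = S'.f ≫ f
        rw [h, LinearEquiv.apply_symm_apply]
    exact ⟨((lin1 S hS K M).symm.trans (Submodule.Quotient.equiv _ _ e1 h2)).trans
      (lin1 S' hS' K M')⟩
  · haveI : Subsingleton ((sA A).obj S.X₃ ⟶ ((sA A).obj M)⟦n⟧) :=
      ⟨fun f g => (res_zero S hS M n h0 h1 f).trans (res_zero S hS M n h0 h1 g).symm⟩
    haveI : Subsingleton ((sA A').obj S'.X₃ ⟶ ((sA A').obj M')⟦n⟧) :=
      ⟨fun f g => (res_zero S' hS' M' n h0 h1 f).trans (res_zero S' hS' M' n h0 h1 g).symm⟩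
    exact ⟨{ toFun := fun _ => 0
             map_add' := fun _ _ => Subsingleton.elim _ _
             map_smul' := fun _ _ => Subsingleton.elim _ _
             invFun := fun _ => 0
             left_inv := fun _ => Subsingleton.elim _ _
             right_inv := fun _ => Subsingleton.elim _ _ }⟩

/-! ### the adjunction between base change and restriction of scalars -/

section Adj

variable {K : Type} [Field K] {C : Type} [SmallCategory C] {R R' : PAlg K C} (φ : R ⟶ R')
  {M : PMod R} {Q : PMod R'}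

/-- values of a morphism `M ⟶ rsc Q` -/
noncomputable def fe (f : M ⟶ (rsc φ).obj Q) (X : Cᵒᵖ) (m : M.obj X) : Q.obj X := f.app X m

variable {φ}

theorem fe_add (f : M ⟶ (rsc φ).obj Q) (X : Cᵒᵖ) (m n : M.obj X) :
    fe φ f X (m + n) = fe φ f X m + fe φ f X n := map_add (f.app X).hom m n

theorem fe_smul (f : M ⟶ (rsc φ).obj Q) (X : Cᵒᵖ) (a : R.obj X) (m : M.obj X) :
    fe φ f X ((a : R.toRing.obj X) • m) =
      ((φ.app X).hom a : R'.toRing.obj X) • fe φ f X m := map_smul (f.app X).hom a m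

theorem fe_nat (f : M ⟶ (rsc φ).obj Q) {X Y : Cᵒᵖ} (g : X ⟶ Y) (m : M.obj X) :
    fe φ f Y (rs M g m) = rs Q g (fe φ f X m) := rs_nat f g m

/-- the linear map out of the base change -/
noncomputable def upL (f : M ⟶ (rsc φ).obj Q) (X : Cᵒᵖ) :
    BcM φ M X →ₗ[R'.toRing.obj X] Q.obj X where
  toFun := bcLift φ M X (fun r m => (r : R'.toRing.obj X) • fe φ f X m)
    (fun r s m => add_smul (R := R'.toRing.obj X) r s (fe φ f X m))
    (fun r m n => by rw [fe_add, smul_add])
    (fun a r m => by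
      rw [fe_smul, smul_smul]
      exact congrArg (fun t : R'.toRing.obj X => t • fe φ f X m)
        (mul_comm (G := R'.obj X) _ _))
  map_add' := map_add _
  map_smul' r x := by
    rw [RingHom.id_apply]
    refine bct_induction φ M X (P := fun x => bcLift φ M X (fun r m =>
      (r : R'.toRing.obj X) • fe φ f X m) _ _ _ (r • x) = r • bcLift φ M X (fun r m =>
      (r : R'.toRing.obj X) • fe φ f X m) _ _ _ x) ?_ ?_ ?_ x
    · rw [smul_zero, map_zero, smul_zero]
    · intro s m
      exact mul_smul (α := R'.toRing.obj X) r s (fe φ f X m)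
    · intro x y hx hy
      rw [smul_add, map_add, map_add, smul_add, hx, hy]

theorem upL_bct (f : M ⟶ (rsc φ).obj Q) (X : Cᵒᵖ) (r : R'.obj X) (m : M.obj X) :
    upL f X (bct φ M X r m) = (r : R'.toRing.obj X) • fe φ f X m := rfl

/-- from `M ⟶ rsc Q` to `bc M ⟶ Q` -/
noncomputable def upH (f : M ⟶ (rsc φ).obj Q) : (bc φ).obj M ⟶ Q :=
  mkHom (M := bcObj φ M) (N := Q) (fun X => upL f X) (fun {X Y} g x => by
    change upL f Y (bcRs φ M g x) = rs Q g (upL f X x)
    refine bct_induction φ M X (P := fun x => upL f Y (bcRs φ M g x) =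
      rs Q g (upL f X x)) ?_ ?_ ?_ x
    · rw [map_zero, map_zero, map_zero, rs_zero]
    · intro s m
      rw [bcRs_bct, upL_bct, upL_bct, fe_nat]
      exact (rs_smul Q g s (fe φ f X m)).symm
    · intro x y hx hy
      rw [map_add, map_add, map_add, rs_add, hx, hy])

/-- from `bc M ⟶ Q` to `M ⟶ rsc Q` -/
noncomputable def dnH (g : (bc φ).obj M ⟶ Q) : M ⟶ (rsc φ).obj Q :=
  mkHom (M := M) (N := (rsc φ).obj Q)
    (fun X =>
      { toFun := fun m => (g.app X (bct φ M X 1 m : BcM φ M X) : Q.obj X)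
        map_add' := fun m n =>
          (congrArg (fun z : BcM φ M X => g.app X z) (bct_add_right φ M X 1 m n)).trans
            (map_add (g.app X).hom _ _)
        map_smul' := fun r m => by
          have h1 := bct_bal φ M X 1 r m
          rw [mul_one] at h1
          have h2 := bct_smul φ M X ((φ.app X).hom r) 1 m
          rw [mul_one] at h2
          exact (congrArg (fun z : BcM φ M X => g.app X z) (h1.symm.trans h2.symm)).trans
            (map_smul (g.app X).hom _ _) })
    (fun {X Y} f m => by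
      have h := bcRs_bct φ M f 1 m
      rw [map_one] at h
      exact (congrArg (fun z : BcM φ M Y => g.app Y z) h.symm).trans
        (rs_nat g f (bct φ M X 1 m : BcM φ M X)))

theorem bc_ext {g g' : (bc φ).obj M ⟶ Q} (h : ∀ (X : Cᵒᵖ) (m : M.obj X),
    g.app X (bct φ M X 1 m : BcM φ M X) = g'.app X (bct φ M X 1 m : BcM φ M X)) : g = g' := by
  apply pmod_ext
  intro X x
  refine bct_induction φ M X (P := fun x => g.app X x = g'.app X x) ?_ ?_ ?_ x
  · exact (map_zero (g.app X).hom).trans (map_zero (g'.app X).hom).symm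
  · intro r m
    have h2 := bct_smul φ M X r 1 m
    rw [mul_one] at h2
    rw [← h2]
    refine (map_smul (g.app X).hom r _).trans (Eq.trans ?_ (map_smul (g'.app X).hom r _).symm)
    exact congrArg (fun z : Q.obj X => r • z) (h X m)
  · intro x y hx hy
    exact (map_add (g.app X).hom x y).trans
      ((congrArg₂ (fun a b => a + b) hx hy).trans (map_add (g'.app X).hom x y).symm)

variable (φ M Q)

/-- `Hom(M, rsc Q) = Hom(bc M, Q)` -/
noncomputable def adjE : (M ⟶ (rsc φ).obj Q) ≃ₗ[K] ((bc φ).obj M ⟶ Q) where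
  toFun := upH
  map_add' f g := bc_ext fun X m => by
    change (1 : R'.toRing.obj X) • fe φ (f + g) X m =
      (1 : R'.toRing.obj X) • fe φ f X m + (1 : R'.toRing.obj X) • fe φ g X m
    rw [one_smul, one_smul, one_smul]
    rfl
  map_smul' a f := bc_ext fun X m => by
    change (1 : R'.toRing.obj X) • fe φ (a • f) X m =
      cst R' X a • ((1 : R'.toRing.obj X) • fe φ f X m)
    rw [one_smul, one_smul]
    exact congrArg (fun t : R'.toRing.obj X => t • fe φ f X m)
      ((φ.app X).hom.commutes a)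
  invFun := dnH
  left_inv f := by
    apply pmod_ext
    intro X x
    change (1 : R'.toRing.obj X) • fe φ f X x = fe φ f X x
    rw [one_smul]
  right_inv g := bc_ext fun X m => by
    change (1 : R'.toRing.obj X) • g.app X (bct φ M X 1 m : BcM φ M X) = _
    rw [one_smul]

theorem adjE_natM {M' : PMod R} (α : M' ⟶ M) (f : M ⟶ (rsc φ).obj Q) :
    adjE φ M' Q (α ≫ f) = (bc φ).map α ≫ adjE φ M Q f := bc_ext fun _ _ => rfl

theorem adjE_natQ {Q' : PMod R'} (q : Q ⟶ Q') (f : M ⟶ (rsc φ).obj Q) :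
    adjE φ M Q' (f ≫ (rsc φ).map q) = adjE φ M Q f ≫ q := bc_ext fun X m => by
  change (1 : R'.toRing.obj X) • q.app X (fe φ f X m) =
    q.app X ((1 : R'.toRing.obj X) • fe φ f X m)
  rw [one_smul, one_smul]

theorem proj_bc [Projective M] : Projective ((bc φ).obj M) where
  factors {N N'} f q _ := by
    have h1 : Epi ((rsc φ).map q) := by
      rw [pmod_epi_iff]
      intro X
      exact surj_of_epi q X
    refine ⟨adjE φ M N (Projective.factorThru ((adjE φ M N').symm f) ((rsc φ).map q)), ?_⟩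
    rw [← adjE_natQ, Projective.factorThru_comp, LinearEquiv.apply_symm_apply]

end Adj

/-! ### chartwise split sequences -/

section Split

variable {K : Type} [Field K] {C : Type} [SmallCategory C] {R R' : PAlg K C} (φ : R ⟶ R')

/-- a chartwise split short exact sequence -/
def ChSplit (S : ShortComplex (PMod R)) : Prop :=
  ∀ X : Cᵒᵖ, ∃ (r : S.X₂.obj X →ₗ[R.toRing.obj X] S.X₁.obj X)
    (s : S.X₃.obj X →ₗ[R.toRing.obj X] S.X₂.obj X),
    (∀ x, r (S.f.app X x) = x) ∧ (∀ z, S.g.app X (s z) = z) ∧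
    ∀ y, S.f.app X (r y) + s (S.g.app X y) = y

theorem ChSplit.ses {S : ShortComplex (PMod R)} (h : ChSplit S) : S.ShortExact where
  exact := (pmod_exact_iff S).2 fun X => by
    obtain ⟨r, s, h1, h2, h3⟩ := h X
    intro y
    constructor
    · intro hy
      refine ⟨r y, ?_⟩
      have h4 := h3 y
      have h5 : S.g.app X y = 0 := hy
      rw [h5, map_zero, add_zero] at h4
      exact h4
    · rintro ⟨x, rfl⟩
      exact congr(($(S.zero)).app X x)
  mono_f := (pmod_mono_iff _).2 fun X => by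
    obtain ⟨r, s, h1, h2, h3⟩ := h X
    exact Function.LeftInverse.injective (g := r) h1
  epi_g := (pmod_epi_iff _).2 fun X => by
    obtain ⟨r, s, h1, h2, h3⟩ := h X
    exact Function.RightInverse.surjective (g := s) h2

/-- base change of a linear map at one chart -/
noncomputable def bcA {M N : PMod R} (X : Cᵒᵖ) (h : M.obj X →ₗ[R.toRing.obj X] N.obj X) :
    BcM φ M X →ₗ[R'.toRing.obj X] BcM φ N X where
  toFun := bcLift φ M X (fun r m => bct φ N X r (h m))
    (fun r s m => by rw [bct_add_left])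
    (fun r m n => by rw [map_add, bct_add_right])
    (fun a r m => by
      rw [map_smul]
      exact bct_bal φ N X _ _ _)
  map_add' := map_add _
  map_smul' r x := by
    dsimp only [RingHom.id_apply]
    refine bct_induction φ M X (P := fun x => bcLift φ M X (fun r m => bct φ N X r (h m))
      _ _ _ (r • x) = r • bcLift φ M X (fun r m => bct φ N X r (h m)) _ _ _ x) ?_ ?_ ?_ x
    · rw [smul_zero, map_zero, smul_zero]
    · intro s m
      rfl
    · intro x y hx hy
      rw [smul_add, map_add, map_add, smul_add, hx, hy]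

theorem bcA_bct {M N : PMod R} (X : Cᵒᵖ) (h : M.obj X →ₗ[R.toRing.obj X] N.obj X)
    (r : R'.obj X) (m : M.obj X) : bcA φ X h (bct φ M X r m) = bct φ N X r (h m) := rfl

/-- the base change of a short complex -/
noncomputable def bcS (S : ShortComplex (PMod R)) : ShortComplex (PMod R') :=
  ShortComplex.mk ((bc φ).map S.f) ((bc φ).map S.g) (by
    rw [← Functor.map_comp, S.zero]
    exact bc_ext fun X m => by
      change bct φ S.X₃ X 1 (0 : S.X₃.obj X) = (0 : BcM φ S.X₃ X)
      have h := bct_add_right φ S.X₃ X 1 0 0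
      rw [add_zero] at h
      exact (left_eq_add.1 h))

theorem ChSplit.bc {S : ShortComplex (PMod R)} (h : ChSplit S) : ChSplit (bcS φ S) := by
  intro X
  obtain ⟨r, s, h1, h2, h3⟩ := h X
  refine ⟨bcA φ X r, bcA φ X s, ?_, ?_, ?_⟩
  · intro x
    refine bct_induction φ S.X₁ X (P := fun x => bcA φ X r (bcLin φ S.f X x) = x) ?_ ?_ ?_ x
    · rw [map_zero, map_zero]
    · intro a m
      rw [bcLin_bct, bcA_bct, h1]
    · intro x y hx hy
      rw [map_add, map_add, hx, hy]
  · intro x
    refine bct_induction φ S.X₃ X (P := fun x => bcLin φ S.g X (bcA φ X s x) = x) ?_ ?_ ?_ x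
    · rw [map_zero, map_zero]
    · intro a m
      rw [bcA_bct, bcLin_bct, h2]
    · intro x y hx hy
      rw [map_add, map_add, hx, hy]
  · intro x
    refine bct_induction φ S.X₂ X (P := fun x => bcLin φ S.f X (bcA φ X r x) +
      bcA φ X s (bcLin φ S.g X x) = x) ?_ ?_ ?_ x
    · simp only [map_zero, add_zero]
    · intro a m
      rw [bcA_bct, bcLin_bct, bcLin_bct, bcA_bct, ← bct_add_right, h3]
    · intro x y hx hy
      simp only [map_add]
      rw [add_add_add_comm, hx, hy]

end Split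

/-! ### projective objects supported below a chart -/

section Cart

variable {K : Type} [Field K] {C : Type} [SmallCategory C] {R : PAlg K C} (E N : PMod R)
  {X Y : Cᵒᵖ} (f : X ⟶ Y)

theorem cart_lift (hc : IsCart E f) (g : E.obj X →ₗ[R.toRing.obj X] N.obj X) :
    ∃ G : E.obj Y →ₗ[R.toRing.obj Y] N.obj Y, ∀ x, G (rs E f x) = rs N f (g x) := by
  letI : Algebra (R.obj X) (R.obj Y) := (R.map f).hom.toRingHom.toAlgebra
  letI : Module (R.obj X) (E.obj X) := inferInstanceAs (Module (R.toRing.obj X) (E.obj X))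
  letI : Module (R.obj Y) (E.obj Y) := inferInstanceAs (Module (R.toRing.obj Y) (E.obj Y))
  letI : Module (R.obj X) (E.obj Y) := Module.compHom (E.obj Y) (R.map f).hom.toRingHom
  haveI : IsScalarTower (R.obj X) (R.obj Y) (E.obj Y) :=
    ⟨fun a b c => by rw [Algebra.smul_def, mul_smul]; rfl⟩
  letI : Module (R.obj X) (N.obj X) := inferInstanceAs (Module (R.toRing.obj X) (N.obj X))
  letI : Module (R.obj Y) (N.obj Y) := inferInstanceAs (Module (R.toRing.obj Y) (N.obj Y))
  letI : Module (R.obj X) (N.obj Y) := Module.compHom (N.obj Y) (R.map f).hom.toRingHom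
  haveI : IsScalarTower (R.obj X) (R.obj Y) (N.obj Y) :=
    ⟨fun a b c => by rw [Algebra.smul_def, mul_smul]; rfl⟩
  let fE : E.obj X →ₗ[R.obj X] E.obj Y :=
    { toFun := fun x => E.map f x
      map_add' := fun x y => map_add (E.map f).hom x y
      map_smul' := fun r x => E.map_smul f r x }
  let gN : E.obj X →ₗ[R.obj X] N.obj Y :=
    { toFun := fun x => rs N f (g x)
      map_add' := fun x y => by rw [map_add, rs_add]
      map_smul' := fun r x =>
        (congrArg (rs N f) (map_smul g r x)).trans (rs_smul N f r (g x)) }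
  have h : IsBaseChange (R.obj Y) fE := hc
  exact ⟨h.lift gN, fun x => h.lift_eq gN x⟩

theorem cart_ind (hc : IsCart E f) {P : E.obj Y → Prop} (h0 : P 0) (ht : ∀ x, P (rs E f x))
    (hs : ∀ (a : R.toRing.obj Y) y, P y → P (a • y)) (ha : ∀ x y, P x → P y → P (x + y)) :
    ∀ y, P y := by
  letI : Algebra (R.obj X) (R.obj Y) := (R.map f).hom.toRingHom.toAlgebra
  letI : Module (R.obj X) (E.obj X) := inferInstanceAs (Module (R.toRing.obj X) (E.obj X))
  letI : Module (R.obj Y) (E.obj Y) := inferInstanceAs (Module (R.toRing.obj Y) (E.obj Y))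
  letI : Module (R.obj X) (E.obj Y) := Module.compHom (E.obj Y) (R.map f).hom.toRingHom
  haveI : IsScalarTower (R.obj X) (R.obj Y) (E.obj Y) :=
    ⟨fun a b c => by rw [Algebra.smul_def, mul_smul]; rfl⟩
  let fE : E.obj X →ₗ[R.obj X] E.obj Y :=
    { toFun := fun x => E.map f x
      map_add' := fun x y => map_add (E.map f).hom x y
      map_smul' := fun r x => E.map_smul f r x }
  have h : IsBaseChange (R.obj Y) fE := hc
  intro y
  exact h.inductionOn y P h0 ht hs ha

end Cart

section Tr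

variable {K : Type} [Field K] {C : Type} [Preorder C] {R : PAlg K C}

theorem proj_tr (E : PMod R) (V : C) (hc : ∀ {X Y : Cᵒᵖ} (f : X ⟶ Y), IsCart E f)
    (hp : Module.Projective (R.toRing.obj (op V)) (E.obj (op V))) :
    Projective ((tr R (LowerSet.Iic V)).obj E) where
  factors {N N'} f q _ := by
    classical
    let fV : E.obj (op V) →ₗ[R.toRing.obj (op V)] N'.obj (op V) :=
      { toFun := fun x => f.app (op V)
          (⟨x, fun h => absurd (le_refl V) h⟩ : trSub (LowerSet.Iic V) E (op V))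
        map_add' := fun x y => map_add (f.app (op V)).hom
          (⟨x, fun h => absurd (le_refl V) h⟩ : trSub (LowerSet.Iic V) E (op V))
          (⟨y, fun h => absurd (le_refl V) h⟩ : trSub (LowerSet.Iic V) E (op V))
        map_smul' := fun r x => map_smul (f.app (op V)).hom r
          (⟨x, fun h => absurd (le_refl V) h⟩ : trSub (LowerSet.Iic V) E (op V)) }
    obtain ⟨g, hg⟩ := Module.projective_lifting_property (q.app (op V)).hom fV
      (surj_of_epi q (op V))
    have hg' : ∀ x, q.app (op V) (g x) = fV x := fun x => congr($hg x)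
    have hG : ∀ (X : Cᵒᵖ) (h : X.unop ≤ V), ∃ G : E.obj X →ₗ[R.toRing.obj X] N.obj X,
        ∀ x, G (rs E (homOfLE h).op x) = rs N (homOfLE h).op (g x) :=
      fun X h => cart_lift E N _ (hc _) g
    choose G hG using hG
    let L : ∀ X : Cᵒᵖ, (trObj (LowerSet.Iic V) E).obj X →ₗ[R.toRing.obj X] N.obj X := fun X =>
      if h : X.unop ≤ V then (G X h).comp (trSub (LowerSet.Iic V) E X).subtype else 0
    have L1 : ∀ (X : Cᵒᵖ) (h : X.unop ≤ V) (x : trSub (LowerSet.Iic V) E X),
        L X x = G X h x.1 := by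
      intro X h x
      simp only [L]
      rw [dif_pos h]
      rfl
    have L2 : ∀ (X : Cᵒᵖ), ¬ X.unop ≤ V → ∀ x : trSub (LowerSet.Iic V) E X, x = 0 := by
      intro X h x
      exact Subtype.ext (x.2 h)
    refine ⟨mkHom (M := trObj (LowerSet.Iic V) E) (N := N) L ?_, ?_⟩
    · intro X Y u (x : trSub (LowerSet.Iic V) E X)
      by_cases h : X.unop ≤ V
      · have h' : Y.unop ≤ V := (leOfHom u.unop).trans h
        rw [L1 X h x]
        refine (L1 Y h' _).trans ?_
        change G Y h' (rs E u x.1) = rs N u (G X h x.1)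
        generalize x.1 = y
        revert y
        refine cart_ind E (homOfLE h).op (hc _) ?_ ?_ ?_ ?_
        · rw [rs_zero, map_zero, map_zero, rs_zero]
        · intro z
          rw [hG X h z, ← rs_comp N]
          have e1 := rs_comp E (homOfLE h).op u z
          rw [← e1]
          exact hG Y h' z
        · intro a y hy
          rw [rs_smul, map_smul, hy, map_smul, rs_smul]
        · intro x y hx hy
          rw [rs_add, map_add, map_add, rs_add, hx, hy]
      · rw [L2 X h x]
        have e1 : rs (trObj (LowerSet.Iic V) E) u (0 : (trObj (LowerSet.Iic V) E).obj X) = 0 :=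
          rs_zero _ u
        refine (congrArg (L Y) e1).trans ((map_zero (L Y)).trans ?_)
        exact ((congrArg (rs N u) (map_zero (L X))).trans (rs_zero N u)).symm
    · apply pmod_ext
      intro X (x : trSub (LowerSet.Iic V) E X)
      change q.app X (L X x) = f.app X x
      by_cases h : X.unop ≤ V
      · rw [L1 X h x]
        have key : ∀ y : E.obj X, q.app X (G X h y) =
            f.app X (⟨y, fun h' => absurd h h'⟩ : trSub (LowerSet.Iic V) E X) := by
          refine cart_ind E (homOfLE h).op (hc _) ?_ ?_ ?_ ?_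
          · rw [map_zero]
            exact (map_zero (q.app X).hom).trans (map_zero (f.app X).hom).symm
          · intro z
            rw [hG X h z]
            refine (rs_nat q _ _).trans ?_
            refine (congrArg (rs N' (homOfLE h).op) (hg' z)).trans ?_
            exact (rs_nat f (homOfLE h).op
              (⟨z, fun h => absurd (le_refl V) h⟩ : trSub (LowerSet.Iic V) E (op V))).symm
          · intro a y hy
            rw [map_smul]
            exact (map_smul (q.app X).hom a _).trans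
              ((congrArg (fun z => a • z) hy).trans (map_smul (f.app X).hom a _).symm)
          · intro x y hx hy
            rw [map_add]
            exact (map_add (q.app X).hom _ _).trans
              ((congrArg₂ (fun a b => a + b) hx hy).trans (map_add (f.app X).hom _ _).symm)
        exact key x.1
      · rw [L2 X h x]
        exact (congrArg (q.app X) (map_zero (L X))).trans
          ((map_zero (q.app X).hom).trans (map_zero (f.app X).hom).symm)

end Tr

/-! ### two charts -/

section Two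

variable {K : Type} [Field K] {R : PAlg K (Cov Bool)} (E : PMod R)

theorem leA {k : Cov Bool} : k ≤ ca ↔ false ∈ k.s := by
  constructor
  · intro h
    exact h (Finset.mem_singleton_self _)
  · intro h x hx
    rw [Finset.mem_singleton.1 hx]; exact h

theorem leB {k : Cov Bool} : k ≤ cb ↔ true ∈ k.s := by
  constructor
  · intro h
    exact h (Finset.mem_singleton_self _)
  · intro h x hx
    rw [Finset.mem_singleton.1 hx]; exact h

theorem leAB {k : Cov Bool} : k ≤ cab ↔ (false ∈ k.s ∧ true ∈ k.s) := by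
  constructor
  · intro h
    exact ⟨h (Finset.mem_univ _), h (Finset.mem_univ _)⟩
  · rintro ⟨h1, h2⟩ x _
    cases x
    · exact h1
    · exact h2

theorem hAB (k : Cov Bool) : k ≤ ca ∨ k ≤ cb := by
  obtain ⟨b, hb⟩ := k.ne
  cases b
  · exact Or.inl (leA.2 hb)
  · exact Or.inr (leB.2 hb)

/-- the part supported below a chart -/
noncomputable abbrev tv (V : Cov Bool) : PMod R := (tr R (LowerSet.Iic V)).obj E

theorem cab_a : LowerSet.Iic cab ≤ LowerSet.Iic ca := LowerSet.Iic_le.2
  (leA.2 (Finset.mem_univ _))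

theorem cab_b : LowerSet.Iic cab ≤ LowerSet.Iic cb := LowerSet.Iic_le.2
  (leB.2 (Finset.mem_univ _))

/-- the two chart sequence -/
noncomputable def seq2 : ShortComplex (PMod R) :=
  ShortComplex.mk (X₁ := tv E cab) (X₂ := tv E ca ⊞ tv E cb) (X₃ := E)
    (biprod.lift ((trLE R cab_a).app E) ((trLE R cab_b).app E))
    (biprod.desc ((trι R (LowerSet.Iic ca)).app E) (-(trι R (LowerSet.Iic cb)).app E))
    (by
      rw [biprod.lift_desc]
      apply pmod_ext
      intro X x
      exact add_neg_cancel _)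

theorem fstf (X : (Cov Bool)ᵒᵖ) (x : trSub (LowerSet.Iic cab) E X) :
    ((biprod.fst : tv E ca ⊞ tv E cb ⟶ tv E ca).app X ((seq2 E).f.app X x) :
      trSub (LowerSet.Iic ca) E X).1 = x.1 := by
  have h : (seq2 E).f ≫ biprod.fst = (trLE R cab_a).app E := biprod.lift_fst _ _
  exact congrArg (fun z : trSub (LowerSet.Iic ca) E X => z.1) congr(($h).app X x)

theorem sndf (X : (Cov Bool)ᵒᵖ) (x : trSub (LowerSet.Iic cab) E X) :
    ((biprod.snd : tv E ca ⊞ tv E cb ⟶ tv E cb).app X ((seq2 E).f.app X x) :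
      trSub (LowerSet.Iic cb) E X).1 = x.1 := by
  have h : (seq2 E).f ≫ biprod.snd = (trLE R cab_b).app E := biprod.lift_snd _ _
  exact congrArg (fun z : trSub (LowerSet.Iic cb) E X => z.1) congr(($h).app X x)

theorem inlg (X : (Cov Bool)ᵒᵖ) (x : trSub (LowerSet.Iic ca) E X) :
    (seq2 E).g.app X ((biprod.inl : tv E ca ⟶ tv E ca ⊞ tv E cb).app X x) = x.1 := by
  have h : biprod.inl ≫ (seq2 E).g = (trι R (LowerSet.Iic ca)).app E := biprod.inl_desc _ _
  exact congr(($h).app X x)

theorem inrg (X : (Cov Bool)ᵒᵖ) (x : trSub (LowerSet.Iic cb) E X) :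
    (seq2 E).g.app X ((biprod.inr : tv E cb ⟶ tv E ca ⊞ tv E cb).app X x) = -x.1 := by
  have h : biprod.inr ≫ (seq2 E).g = -(trι R (LowerSet.Iic cb)).app E := biprod.inr_desc _ _
  exact congr(($h).app X x)

theorem tot (X : (Cov Bool)ᵒᵖ) (y : (tv E ca ⊞ tv E cb).obj X) :
    (biprod.inl : tv E ca ⟶ tv E ca ⊞ tv E cb).app X
      ((biprod.fst : tv E ca ⊞ tv E cb ⟶ tv E ca).app X y) +
    (biprod.inr : tv E cb ⟶ tv E ca ⊞ tv E cb).app X
      ((biprod.snd : tv E ca ⊞ tv E cb ⟶ tv E cb).app X y) = y := by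
  have h : (biprod.fst ≫ biprod.inl + biprod.snd ≫ biprod.inr : tv E ca ⊞ tv E cb ⟶ _) = 𝟙 _ :=
    biprod.total
  exact congr(($h).app X y)

/-- second components, if the chart is below `ca` -/
noncomputable def rA2 (X : (Cov Bool)ᵒᵖ) (h : X.unop ≤ ca) :
    (tv E ca ⊞ tv E cb).obj X →ₗ[R.toRing.obj X] (tv E cab).obj X where
  toFun y := (⟨((biprod.snd : tv E ca ⊞ tv E cb ⟶ tv E cb).app X y : trSub (LowerSet.Iic cb) E X).1,
    fun h' => ((biprod.snd : tv E ca ⊞ tv E cb ⟶ tv E cb).app X y :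
      trSub (LowerSet.Iic cb) E X).2 (fun hb => h' (leAB.2 ⟨leA.1 h, leB.1 hb⟩))⟩ :
      trSub (LowerSet.Iic cab) E X)
  map_add' x y := Subtype.ext (congrArg (fun z : trSub (LowerSet.Iic cb) E X => z.1)
    (map_add ((biprod.snd : tv E ca ⊞ tv E cb ⟶ tv E cb).app X).hom x y))
  map_smul' a x := Subtype.ext (congrArg (fun z : trSub (LowerSet.Iic cb) E X => z.1)
    (map_smul ((biprod.snd : tv E ca ⊞ tv E cb ⟶ tv E cb).app X).hom a x))

/-- elements over a chart below `V` -/
noncomputable def inV (X : (Cov Bool)ᵒᵖ) (V : Cov Bool) (h : X.unop ≤ V) :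
    E.obj X →ₗ[R.toRing.obj X] (tv E V).obj X where
  toFun z := (⟨z, fun h' => absurd h h'⟩ : trSub (LowerSet.Iic V) E X)
  map_add' _ _ := rfl
  map_smul' _ _ := rfl

theorem gval (X : (Cov Bool)ᵒᵖ) (y : (tv E ca ⊞ tv E cb).obj X) : (seq2 E).g.app X y =
    ((biprod.fst : tv E ca ⊞ tv E cb ⟶ tv E ca).app X y : trSub (LowerSet.Iic ca) E X).1 +
    -((biprod.snd : tv E ca ⊞ tv E cb ⟶ tv E cb).app X y : trSub (LowerSet.Iic cb) E X).1 := by
  have h : (seq2 E).g = biprod.fst ≫ (trι R (LowerSet.Iic ca)).app E +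
    biprod.snd ≫ (-(trι R (LowerSet.Iic cb)).app E) := biprod.desc_eq
  exact congr(($h).app X y)

theorem fval (X : (Cov Bool)ᵒᵖ) (w : trSub (LowerSet.Iic cab) E X) : (seq2 E).f.app X w =
    (biprod.inl : tv E ca ⟶ tv E ca ⊞ tv E cb).app X (((trLE R cab_a).app E).app X w) +
    (biprod.inr : tv E cb ⟶ tv E ca ⊞ tv E cb).app X (((trLE R cab_b).app E).app X w) := by
  have h : (seq2 E).f = (trLE R cab_a).app E ≫ biprod.inl + (trLE R cab_b).app E ≫ biprod.inr :=
    biprod.lift_eq
  exact congr(($h).app X w)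

theorem split2 : ChSplit (seq2 E) := by
  intro X
  by_cases h : X.unop ≤ ca
  · refine ⟨rA2 E X h, ((biprod.inl : tv E ca ⟶ tv E ca ⊞ tv E cb).app X).hom ∘ₗ inV E X ca h,
      ?_, ?_, ?_⟩
    · intro (x : trSub (LowerSet.Iic cab) E X)
      exact Subtype.ext (sndf E X x)
    · intro z
      exact inlg E X (inV E X ca h z)
    · intro y
      refine Eq.trans ?_ (tot E X y)
      refine (congrArg (fun t => t + ((biprod.inl : tv E ca ⟶ tv E ca ⊞ tv E cb).app X).hom
        (inV E X ca h ((seq2 E).g.app X y))) (fval E X (rA2 E X h y))).trans ?_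
      rw [add_right_comm]
      refine congrArg₂ (fun s t => s + t) ?_ ?_
      · refine (map_add ((biprod.inl : tv E ca ⟶ tv E ca ⊞ tv E cb).app X).hom _ _).symm.trans ?_
        refine congrArg ((biprod.inl : tv E ca ⟶ tv E ca ⊞ tv E cb).app X).hom ?_
        apply Subtype.ext
        rw [gval]
        exact add_neg_cancel_comm_assoc _ _
      · exact congrArg ((biprod.inr : tv E cb ⟶ tv E ca ⊞ tv E cb).app X).hom (Subtype.ext rfl)
  · have h' : X.unop ≤ cb := (hAB X.unop).resolve_left h
    refine ⟨0, -(((biprod.inr : tv E cb ⟶ tv E ca ⊞ tv E cb).app X).hom ∘ₗ inV E X cb h'),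
      ?_, ?_, ?_⟩
    · intro (x : trSub (LowerSet.Iic cab) E X)
      exact Subtype.ext (x.2 (fun hx => h (leA.2 (leAB.1 hx).1))).symm
    · intro z
      have h1 := inrg E X (inV E X cb h' z)
      have h2 := map_neg ((seq2 E).g.app X).hom
        ((biprod.inr : tv E cb ⟶ tv E ca ⊞ tv E cb).app X (inV E X cb h' z))
      refine h2.trans ((congrArg (fun t : E.obj X => -t) h1).trans (neg_neg _))
    · intro y
      refine Eq.trans ?_ (tot E X y)
      have h0 : (biprod.fst : tv E ca ⊞ tv E cb ⟶ tv E ca).app X y = 0 :=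
        Subtype.ext (((biprod.fst : tv E ca ⊞ tv E cb ⟶ tv E ca).app X y :
          trSub (LowerSet.Iic ca) E X).2 h)
      refine congrArg₂ (fun s t => s + t) ?_ ?_
      · rw [h0]
        exact (map_zero ((seq2 E).f.app X).hom).trans
          (map_zero ((biprod.inl : tv E ca ⟶ tv E ca ⊞ tv E cb).app X).hom).symm
      · refine (map_neg ((biprod.inr : tv E cb ⟶ tv E ca ⊞ tv E cb).app X).hom _).symm.trans ?_
        refine congrArg ((biprod.inr : tv E cb ⟶ tv E ca ⊞ tv E cb).app X).hom ?_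
        apply Subtype.ext
        have h1 := gval E X y
        rw [h0] at h1
        change -((seq2 E).g.app X y) = _
        rw [h1]
        exact (congrArg (fun t => -t) (zero_add _)).trans (neg_neg _)

end Two

end CE2_

open CE2_ in
/-- CE2: morphisms from a locally projective module, two charts, change of rings -/
theorem ce2_proof : Stmt_CE2 := by
  intro K _ R R' φ E Q hc hp n
  have h1 : ∀ V : Cov Bool, Projective (tv E V) := fun V => proj_tr E V hc (hp (op V))
  haveI := h1 ca
  haveI := h1 cb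
  haveI p1 : Projective (seq2 E).X₁ := h1 cab
  haveI p2 : Projective (seq2 E).X₂ := (inferInstance : Projective (tv E ca ⊞ tv E cb))
  haveI p1' : Projective (bcS φ (seq2 E)).X₁ := proj_bc φ (seq2 E).X₁
  haveI p2' : Projective (bcS φ (seq2 E)).X₂ := proj_bc φ (seq2 E).X₂
  exact compare K (seq2 E) (split2 E).ses (bcS φ (seq2 E)) ((split2 E).bc φ).ses
    ((rsc φ).obj Q) Q (adjE φ _ Q) (adjE φ _ Q) (adjE φ _ Q)
    (fun f => adjE_natM φ _ Q _ f) n

end Pool.CRD.FB
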