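import Pool.Agent.CRD.D2.Stmts
import Pool.Agent.CRD.A0.EFA
import Pool.Agent.CRD.A0.MVT

/-!
# CRD / D2: CEO, morphisms from `O(j)` on the conic are Čech cohomology of the twist
-/

open CategoryTheory Opposite Limits TensorProduct Pretriangulated

namespace Pool.CRD.FB

namespace CEO_

section LinAlg

variable {K : Type} [Field K] {A B A' B' : Type*} [AddCommGroup A] [AddCommGroup B]
  [AddCommGroup A'] [AddCommGroup B'] [Module K A] [Module K B] [Module K A'] [Module K B']

/-- kernels of isomorphic maps -/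
noncomputable def kerE (f : A →ₗ[K] B) (f' : A' →ₗ[K] B') (e₀ : A ≃ₗ[K] A') (e₁ : B ≃ₗ[K] B')
    (h : ∀ x, e₁ (f x) = f' (e₀ x)) : LinearMap.ker f ≃ₗ[K] LinearMap.ker f' :=
  e₀.ofSubmodules _ _ (by
    ext y
    simp only [Submodule.mem_map, LinearMap.mem_ker]
    constructor
    · rintro ⟨x, hx, rfl⟩
      change f' (e₀ x) = 0
      rw [← h, hx, map_zero]
    · intro hy
      refine ⟨e₀.symm y, ?_, e₀.apply_symm_apply y⟩
      apply e₁.injective
      rw [h, e₀.apply_symm_apply, hy, map_zero])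

/-- cokernels of isomorphic maps -/
noncomputable def cokE (f : A →ₗ[K] B) (f' : A' →ₗ[K] B') (e₀ : A ≃ₗ[K] A') (e₁ : B ≃ₗ[K] B')
    (h : ∀ x, e₁ (f x) = f' (e₀ x)) :
    (B ⧸ LinearMap.range f) ≃ₗ[K] (B' ⧸ LinearMap.range f') :=
  Submodule.Quotient.equiv _ _ e₁ (by
    ext y
    simp only [Submodule.mem_map, LinearMap.mem_range]
    constructor
    · rintro ⟨_, ⟨x, rfl⟩, rfl⟩
      exact ⟨e₀ x, (h x).symm⟩
    · rintro ⟨x, rfl⟩
      refine ⟨f (e₀.symm x), ⟨_, rfl⟩, ?_⟩
      refine (h _).trans ?_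
      rw [e₀.apply_symm_apply])

end LinAlg

section Abs

open DerivedCategory

variable {A : Type 1} [Category.{0} A] [Abelian A] [HasDerivedCategory.{1} A]

lemma neg_van (M N : A) (n : ℤ) (hn : n < 0)
    (f : (singleFunctor A 0).obj M ⟶ ((singleFunctor A 0).obj N)⟦n⟧) : f = 0 := by
  have h1 : (((singleFunctor A 0).obj N)⟦n⟧).IsGE (-n) :=
    TStructure.t.isGE_shift _ 0 n (-n) (by omega)
  exact TStructure.t.zero f 0 (-n) (by omega)

lemma proj_van (P M : A) [Projective P] (n : ℤ) (hn : n ≠ 0)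
    (e : (singleFunctor A 0).obj P ⟶ ((singleFunctor A 0).obj M)⟦n⟧) : e = 0 := by
  rcases lt_or_gt_of_ne hn with h | h
  · exact neg_van P M n h e
  · obtain ⟨M', p, hp, he⟩ := efa_proof A P M n h e
    have h1 : e = (singleFunctor A 0).map (Projective.factorThru (𝟙 P) p ≫ p) ≫ e := by
      rw [Projective.factorThru_comp, CategoryTheory.Functor.map_id, Category.id_comp]
    rw [h1, Functor.map_comp, Category.assoc, he, comp_zero]

variable {K : Type} [Field K] [Linear K A]

/-- precomposition, linear in the morphism -/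
noncomputable def pre {X Y : A} (f : X ⟶ Y) (M : A) : (Y ⟶ M) →ₗ[K] (X ⟶ M) where
  toFun g := f ≫ g
  map_add' := by intros; simp
  map_smul' := by intros; simp

/-- the connecting map -/
noncomputable def th {S : ShortComplex A} (hS : S.ShortExact) (M : A) :
    (S.X₁ ⟶ M) →ₗ[K] ((singleFunctor A 0).obj S.X₃ ⟶ ((singleFunctor A 0).obj M)⟦(1 : ℤ)⟧) where
  toFun u := hS.singleδ ≫ ((singleFunctor A 0).map u)⟦(1 : ℤ)⟧'
  map_add' x y := by
    rw [Functor.map_add, Functor.map_add, Preadditive.comp_add]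
  map_smul' k x := by
    rw [Functor.map_smul, Functor.map_smul, Linear.comp_smul, RingHom.id_apply]

/-- shift by zero -/
noncomputable def e0 (M : A) :
    (singleFunctor A 0).obj M ≅ ((singleFunctor A 0).obj M)⟦(0 : ℤ)⟧ :=
  ((shiftFunctorZero (DerivedCategory A) ℤ).app _).symm

/-- morphisms in degree zero -/
noncomputable def hom0 (X M : A) :
    ((singleFunctor A 0).obj X ⟶ ((singleFunctor A 0).obj M)⟦(0 : ℤ)⟧) ≃ₗ[K] (X ⟶ M) :=
  LinearEquiv.symm <| LinearEquiv.ofBijective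
    ({ toFun := fun f => (singleFunctor A 0).map f ≫ (e0 M).hom
       map_add' := fun x y => by rw [Functor.map_add, Preadditive.add_comp]
       map_smul' := fun k x => by
        rw [Functor.map_smul, Linear.smul_comp, RingHom.id_apply] } :
      (X ⟶ M) →ₗ[K] ((singleFunctor A 0).obj X ⟶ ((singleFunctor A 0).obj M)⟦(0 : ℤ)⟧)) (by
    constructor
    · intro x y h
      have h' : (singleFunctor A 0).map x ≫ (e0 M).hom = (singleFunctor A 0).map y ≫ (e0 M).hom := h
      rw [cancel_mono] at h'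
      exact (singleFunctor A 0).map_injective h'
    · intro f
      obtain ⟨g, hg⟩ := (singleFunctor A 0).map_surjective (f ≫ (e0 M).inv)
      refine ⟨g, ?_⟩
      change (singleFunctor A 0).map g ≫ (e0 M).hom = _
      rw [hg, Category.assoc, Iso.inv_hom_id, Category.comp_id])

theorem abs {S : ShortComplex A} (hS : S.ShortExact) [Projective S.X₁] [Projective S.X₂] (M : A) :
    Nonempty (((singleFunctor A 0).obj S.X₃ ⟶ ((singleFunctor A 0).obj M)⟦(0 : ℤ)⟧) ≃ₗ[K]
      LinearMap.ker (pre (K := K) S.f M)) ∧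
    Nonempty (((singleFunctor A 0).obj S.X₃ ⟶ ((singleFunctor A 0).obj M)⟦(1 : ℤ)⟧) ≃ₗ[K]
      ((S.X₁ ⟶ M) ⧸ LinearMap.range (pre (K := K) S.f M))) ∧
    ∀ n : ℤ, n ≠ 0 → n ≠ 1 → Subsingleton
      ((singleFunctor A 0).obj S.X₃ ⟶ ((singleFunctor A 0).obj M)⟦n⟧) := by
  have hT := hS.singleTriangle_distinguished
  have hex := hS.exact
  have hepi := hS.epi_g
  refine ⟨?_, ?_, ?_⟩
  · refine ⟨(hom0 S.X₃ M).trans (LinearEquiv.ofBijective
      (LinearMap.codRestrict _ (pre (K := K) S.g M) (fun x => ?_)) ⟨?_, ?_⟩)⟩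
    · rw [LinearMap.mem_ker]
      change S.f ≫ S.g ≫ x = 0
      rw [S.zero_assoc, zero_comp]
    · intro x y h
      have h' : S.g ≫ x = S.g ≫ y := congrArg Subtype.val h
      exact (cancel_epi _).1 h'
    · rintro ⟨x, hx⟩
      have hx' : S.f ≫ x = 0 := hx
      refine ⟨hex.desc x hx', Subtype.ext ?_⟩
      exact hex.g_desc x hx'
  · have hsurj : Function.Surjective (th (K := K) hS M) := by
      intro f
      have h0 : hS.singleTriangle.mor₂ ≫ f = 0 := proj_van _ _ 1 one_ne_zero _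
      obtain ⟨g, hg⟩ := Triangle.yoneda_exact₃ _ hT f h0
      obtain ⟨g', rfl⟩ := (shiftFunctor (DerivedCategory A) (1 : ℤ)).map_surjective g
      obtain ⟨g'', rfl⟩ := (singleFunctor A 0).map_surjective g'
      exact ⟨g'', hg.symm⟩
    have hker : LinearMap.ker (th (K := K) hS M) = LinearMap.range (pre (K := K) S.f M) := by
      ext u
      rw [LinearMap.mem_ker, LinearMap.mem_range]
      constructor
      · intro hu
        have hu' : hS.singleTriangle.rotate.mor₂ ≫ ((singleFunctor A 0).map u)⟦(1 : ℤ)⟧' = 0 := hu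
        obtain ⟨g, hg⟩ := Triangle.yoneda_exact₃ _ (rot_of_distTriang _ hT) _ hu'
        obtain ⟨g', rfl⟩ := (shiftFunctor (DerivedCategory A) (1 : ℤ)).map_surjective g
        obtain ⟨g'', rfl⟩ := (singleFunctor A 0).map_surjective g'
        refine ⟨-g'', ?_⟩
        change S.f ≫ (-g'') = u
        apply (singleFunctor A 0).map_injective
        apply (shiftFunctor (DerivedCategory A) (1 : ℤ)).map_injective
        refine Eq.trans ?_ hg.symm
        change _ = (-((singleFunctor A 0).map S.f)⟦(1 : ℤ)⟧') ≫ _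
        rw [Preadditive.comp_neg, Functor.map_neg, Functor.map_neg, Functor.map_comp,
          Functor.map_comp, Preadditive.neg_comp]
        rfl
      · rintro ⟨v, rfl⟩
        change hS.singleδ ≫ ((singleFunctor A 0).map (S.f ≫ v))⟦(1 : ℤ)⟧' = 0
        have h1 : hS.singleδ ≫ ((singleFunctor A 0).map S.f)⟦(1 : ℤ)⟧' = 0 :=
          comp_distTriang_mor_zero₃₁ _ hT
        rw [Functor.map_comp, Functor.map_comp, ← Category.assoc, h1, zero_comp]
    exact ⟨((Submodule.quotEquivOfEq _ _ hker.symm).trans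
      ((th (K := K) hS M).quotKerEquivOfSurjective hsurj)).symm⟩
  · intro n hn hn'
    have key : ∀ f : (singleFunctor A 0).obj S.X₃ ⟶ ((singleFunctor A 0).obj M)⟦n⟧, f = 0 := by
      intro f
      have h0 : hS.singleTriangle.mor₂ ≫ f = 0 := proj_van _ _ n hn _
      obtain ⟨g, hg⟩ := Triangle.yoneda_exact₃ _ hT f h0
      have h1 : g = 0 := by
        let e := (shiftFunctorAdd' (DerivedCategory A) (n - 1) 1 n (by ring)).app
          ((singleFunctor A 0).obj M)
        obtain ⟨g', hg'⟩ := (shiftFunctor (DerivedCategory A) (1 : ℤ)).map_surjective (g ≫ e.hom)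
        have h2 : g' = 0 := proj_van _ _ (n - 1) (by omega) _
        rw [← cancel_mono e.hom, zero_comp, ← hg', h2, Functor.map_zero]
      refine hg.trans ?_
      rw [h1]
      exact comp_zero
    exact ⟨fun f g => by rw [key f, key g]⟩

end Abs

section Ev

open UCoc

variable {K : Type} [CommRing K] {C : Type} [Preorder C] {R : PAlg K C} (c : UCoc R)

lemma vinv {X Y : Cᵒᵖ} (f : X ⟶ Y) : (c⁻¹).v f * c.v f = 1 := by
  rw [← UCoc.mul_v, inv_mul_cancel, UCoc.one_v]

lemma vinv' {X Y : Cᵒᵖ} (f : X ⟶ Y) : c.v f * (c⁻¹).v f = 1 := by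
  rw [← UCoc.mul_v, mul_inv_cancel, UCoc.one_v]

variable {U : LowerSet C} {V : C} (hU : ∀ X, X ∈ U ↔ X ≤ V)

/-- the generator over `V` -/
noncomputable def gen : trSub U (c.twObj (OR R)) (op V) :=
  ⟨(1 : R.toRing.obj (op V)), fun h => absurd ((hU V).2 le_rfl) h⟩

/-- evaluation at the generator -/
noncomputable def ev1 (M : PMod R) : ((tr R U).obj (c.twObj (OR R)) ⟶ M) →ₗ[K] sec M V where
  toFun φ := φ.app (op V) (gen c hU)
  map_add' φ ψ := rfl
  map_smul' k φ := rfl

/-- the images of the generators -/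
noncomputable def gg (V : C) (M : PMod R) (m : sec M V) (X : Cᵒᵖ) : M.obj X := by
  classical exact if h : X.unop ≤ V then
    ((c⁻¹).v (homOfLE h).op • rs M (homOfLE h).op m : M.obj X) else 0

lemma gg_of_le (M : PMod R) (m : sec M V) (X : Cᵒᵖ) (h : X.unop ≤ V) :
    gg c V M m X = ((c⁻¹).v (homOfLE h).op • rs M (homOfLE h).op m : M.obj X) := by
  unfold gg
  rw [dif_pos h]

lemma gg_nat (M : PMod R) (m : sec M V) {X Y : Cᵒᵖ} (f : X ⟶ Y) (h : X.unop ≤ V) :
    rs M f (gg c V M m X) = c.v f • gg c V M m Y := by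
  have hY : Y.unop ≤ V := (leOfHom f.unop).trans h
  rw [gg_of_le c M m X h, gg_of_le c M m Y hY, rs_smul, smul_smul]
  have e : (homOfLE hY).op = (homOfLE h).op ≫ f := Subsingleton.elim _ _
  have e2 : c.v f * (c⁻¹).v (homOfLE hY).op = R.toRing.map f ((c⁻¹).v (homOfLE h).op) := by
    rw [e, v_comp, ← (c⁻¹).v_comm f, ← mul_assoc, vinv', one_mul]
  rw [e2, e, rs_comp]

/-- the underlying element of the ring -/
def vl {X : Cᵒᵖ} (x : (trObj U (c.twObj (OR R))).obj X) : R.toRing.obj X :=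
  (x : trSub U (c.twObj (OR R)) X).1

lemma vl_inj {X : Cᵒᵖ} {x y : (trObj U (c.twObj (OR R))).obj X} (h : vl c x = vl c y) : x = y :=
  Subtype.ext h

lemma vl_smul {X : Cᵒᵖ} (r : R.toRing.obj X) (x : (trObj U (c.twObj (OR R))).obj X) :
    vl c (r • x) = r * vl c x := rfl

lemma vl_rs {X Y : Cᵒᵖ} (f : X ⟶ Y) (x : (trObj U (c.twObj (OR R))).obj X) :
    vl c (rs (trObj U (c.twObj (OR R))) f x) = c.v f * R.toRing.map f (vl c x) := rfl

lemma vl_zero {X : Cᵒᵖ} (h : X.unop ∉ U) (x : (trObj U (c.twObj (OR R))).obj X) :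
    vl c x = 0 := (x : trSub U (c.twObj (OR R)) X).2 h

/-- the morphism with given value on the generator -/
noncomputable def lft (M : PMod R) (m : sec M V) : (tr R U).obj (c.twObj (OR R)) ⟶ M :=
  mkHom (M := trObj U (c.twObj (OR R))) (N := M)
    (fun X => { toFun := fun x => (vl c x • gg c V M m X : M.obj X)
                map_add' := fun x y => add_smul _ _ _
                map_smul' := fun r x => mul_smul _ _ _ })
    (fun {X Y} f x => by
      change (vl c (rs (trObj U (c.twObj (OR R))) f x) • gg c V M m Y : M.obj Y) = 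
        rs M f (vl c x • gg c V M m X)
      rw [rs_smul, vl_rs]
      by_cases h : X.unop ≤ V
      · rw [gg_nat c M m f h, smul_smul, c.v_comm]
      · rw [vl_zero c (fun h' => h ((hU _).1 h')) x, map_zero, mul_zero, zero_smul, zero_smul])

lemma ev1_lft (M : PMod R) (m : sec M V) : ev1 c hU M (lft c hU M m) = m := by
  change (1 : R.toRing.obj (op V)) • gg c V M m (op V) = m
  rw [one_smul, gg_of_le c M m (op V) le_rfl]
  change (c⁻¹).v (𝟙 (op V)) • rs M (𝟙 (op V)) m = m
  rw [v_id, one_smul, rs_id]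

lemma rs_gen {X : Cᵒᵖ} (f : op V ⟶ X) :
    vl c (rs (trObj U (c.twObj (OR R))) f (gen c hU)) = c.v f := by
  change c.v f * R.toRing.map f 1 = c.v f
  rw [map_one, mul_one]

lemma ev1_inj (M : PMod R) : Function.Injective (ev1 c hU M) := by
  rw [injective_iff_map_eq_zero]
  intro φ h
  have h' : φ.app (op V) (gen c hU) = 0 := h
  apply pmod_ext
  intro X x
  by_cases hX : X.unop ≤ V
  · have e : x = ((vl c x * (c⁻¹).v (homOfLE hX).op) •
        rs (trObj U (c.twObj (OR R))) (homOfLE hX).op (gen c hU) :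
          (trObj U (c.twObj (OR R))).obj X) := by
      apply vl_inj c
      rw [vl_smul, rs_gen, mul_assoc, vinv, mul_one]
    rw [e]
    refine (map_smul (φ.app X).hom _ _).trans ?_
    change _ • φ.app X (rs (trObj U (c.twObj (OR R))) (homOfLE hX).op (gen c hU)) = 0
    have h3 := rs_nat φ (homOfLE hX).op (gen c hU)
    refine (congrArg (fun t => _ • t) (h3.trans ?_)).trans (smul_zero _)
    rw [h', rs_zero]
  · have hx : x = 0 := vl_inj c (vl_zero c (fun h' => hX ((hU _).1 h')) x)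
    rw [hx]
    exact map_zero (φ.app X).hom

/-- morphisms from the part of the line bundle below `V` -/
noncomputable def evE (M : PMod R) : ((tr R U).obj (c.twObj (OR R)) ⟶ M) ≃ₗ[K] sec M V :=
  LinearEquiv.ofBijective (ev1 c hU M) ⟨ev1_inj c hU M, fun m => ⟨lft c hU M m, ev1_lft c hU M m⟩⟩

include hU in
lemma proj : Projective ((tr R U).obj (c.twObj (OR R))) where
  factors {M N} f e he := by
    obtain ⟨x, hx⟩ := surj_of_epi e (op V) (ev1 c hU N f)
    refine ⟨lft c hU M x, ev1_inj c hU N ?_⟩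
    change e.app (op V) (ev1 c hU M (lft c hU M x)) = _
    rw [ev1_lft, hx]

lemma ev1_restrict {U' : LowerSet C} {V' : C} (hU' : ∀ X, X ∈ U' ↔ X ≤ V') (h : U' ≤ U)
    (f : op V ⟶ op V') (M : PMod R) (φ : (tr R U).obj (c.twObj (OR R)) ⟶ M) :
    ev1 c hU' M ((trLE R h).app _ ≫ φ) = ((c⁻¹).v f • rs M f (ev1 c hU M φ) : M.obj (op V')) := by
  have e : ((trLE R h).app (c.twObj (OR R))).app (op V') (gen c hU') =
      ((c⁻¹).v f • rs (trObj U (c.twObj (OR R))) f (gen c hU) :
        (trObj U (c.twObj (OR R))).obj (op V')) := by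
    apply vl_inj c
    rw [vl_smul, rs_gen, vinv]
    rfl
  change φ.app (op V') (((trLE R h).app (c.twObj (OR R))).app (op V') (gen c hU')) = _
  rw [e]
  refine (map_smul (φ.app (op V')).hom _ _).trans ?_
  exact congrArg (fun t => (c⁻¹).v f • t) (rs_nat φ f (gen c hU))

end Ev

section Two

open MVT_

variable {K : Type} [CommRing K] {C : Type} [Preorder C] {R : PAlg K C} (c : UCoc R)
  {U U' : LowerSet C} {V V' : C} (hU : ∀ X, X ∈ U ↔ X ≤ V) (hU' : ∀ X, X ∈ U' ↔ X ≤ V')

/-- morphisms from the direct sum -/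
noncomputable def sumE (M : PMod R) :
    ((mvF U U').obj (c.twObj (OR R)) ⟶ M) ≃ₗ[K] sec M V × sec M V' where
  toFun ψ := (evE c hU M ((i₁ U U').app _ ≫ ψ), -evE c hU' M ((i₂ U U').app _ ≫ ψ))
  map_add' x y := by
    rw [Preadditive.comp_add, Preadditive.comp_add, map_add, map_add, neg_add]
    rfl
  map_smul' k x := by
    rw [Linear.comp_smul, Linear.comp_smul, map_smul, map_smul, ← smul_neg]
    rfl
  invFun z := (p₁ U U').app _ ≫ (evE c hU M).symm z.1 - (p₂ U U').app _ ≫ (evE c hU' M).symm z.2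
  left_inv ψ := by
    change (p₁ U U').app _ ≫ (evE c hU M).symm (evE c hU M ((i₁ U U').app _ ≫ ψ)) -
      (p₂ U U').app _ ≫ (evE c hU' M).symm (-evE c hU' M ((i₂ U U').app _ ≫ ψ)) = ψ
    rw [map_neg, LinearEquiv.symm_apply_apply, LinearEquiv.symm_apply_apply, Preadditive.comp_neg,
      sub_neg_eq_add, ← Category.assoc, ← Category.assoc, ← Preadditive.add_comp]
    have h := congrArg (fun t => t.app (c.twObj (OR R))) (total (R := R) U U')
    exact (congrArg (fun t => t ≫ ψ) h).trans (Category.id_comp _)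
  right_inv z := by
    have h1 : (i₁ U U').app (c.twObj (OR R)) ≫ ((p₁ U U').app _ ≫ (evE c hU M).symm z.1 -
        (p₂ U U').app _ ≫ (evE c hU' M).symm z.2) = (evE c hU M).symm z.1 := by
      rw [Preadditive.comp_sub, ← Category.assoc, ← Category.assoc]
      have e1 : (i₁ U U').app (c.twObj (OR R)) ≫ (p₁ U U').app _ = 𝟙 _ := rfl
      have e2 : (i₁ U U').app (c.twObj (OR R)) ≫ (p₂ U U').app _ = 0 := rfl
      rw [e1, e2, zero_comp, sub_zero, Category.id_comp]
    have h2 : (i₂ U U').app (c.twObj (OR R)) ≫ ((p₁ U U').app _ ≫ (evE c hU M).symm z.1 -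
        (p₂ U U').app _ ≫ (evE c hU' M).symm z.2) = -(evE c hU' M).symm z.2 := by
      rw [Preadditive.comp_sub, ← Category.assoc, ← Category.assoc]
      have e1 : (i₂ U U').app (c.twObj (OR R)) ≫ (p₁ U U').app _ = 0 := rfl
      have e2 : (i₂ U U').app (c.twObj (OR R)) ≫ (p₂ U U').app _ = 𝟙 _ := rfl
      rw [e1, e2, zero_comp, zero_sub, Category.id_comp]
    refine Prod.ext ?_ ?_
    · change evE c hU M ((i₁ U U').app _ ≫ _) = z.1
      rw [h1, LinearEquiv.apply_symm_apply]
    · change -evE c hU' M ((i₂ U U').app _ ≫ _) = z.2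
      rw [h2, map_neg, neg_neg, LinearEquiv.apply_symm_apply]

include hU hU' in
lemma projSum : Projective ((mvF U U').obj (c.twObj (OR R))) where
  factors {M N} f e he := by
    have := proj c hU
    have := proj c hU'
    refine ⟨(p₁ U U').app _ ≫ Projective.factorThru ((i₁ U U').app _ ≫ f) e +
      (p₂ U U').app _ ≫ Projective.factorThru ((i₂ U U').app _ ≫ f) e, ?_⟩
    rw [Preadditive.add_comp, Category.assoc, Category.assoc, Projective.factorThru_comp,
      Projective.factorThru_comp, ← Category.assoc, ← Category.assoc, ← Preadditive.add_comp]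
    have h := congrArg (fun t => t.app (c.twObj (OR R))) (total (R := R) U U')
    exact (congrArg (fun t => t ≫ f) h).trans (Category.id_comp _)

end Two

end CEO_

open CEO_ MVT_ in
theorem ceo_proof : Stmt_CEO := by
  intro K _ a b j M
  have hU : ∀ X : Cov Bool, X ∈ LowerSet.Iic (ca : Cov Bool) ↔ X ≤ ca := fun X => Iff.rfl
  have hU' : ∀ X : Cov Bool, X ∈ LowerSet.Iic (cb : Cov Bool) ↔ X ≤ cb := fun X => Iff.rfl
  have hI : ∀ X : Cov Bool, X ∈ LowerSet.Iic (ca : Cov Bool) ⊓ LowerSet.Iic (cb : Cov Bool) ↔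
      X ≤ cab := by
    intro X
    constructor
    · rintro ⟨h1, h2⟩
      intro x _
      cases x
      · exact h1 (Finset.mem_singleton_self false)
      · exact h2 (Finset.mem_singleton_self true)
    · intro h
      exact ⟨h.trans cab_le_ca, h.trans cab_le_cb⟩
  have hS : ∀ X : Cov Bool, X ∈ LowerSet.Iic (ca : Cov Bool) ⊔ LowerSet.Iic (cb : Cov Bool) := by
    intro X
    obtain ⟨x, hx⟩ := X.ne
    cases x
    · exact Or.inl (fun y hy => by rw [Finset.mem_singleton.1 hy]; exact hx)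
    · exact Or.inr (fun y hy => by rw [Finset.mem_singleton.1 hy]; exact hx)
  let c := cL a b K j
  let E : PMod (Cnc a b K) := c.twObj (OR (Cnc a b K))
  have p1 := proj c hI
  have p2 := projSum c hU hU'
  let e : (tr (Cnc a b K) (LowerSet.Iic ca ⊔ LowerSet.Iic cb)).obj E ≅ E :=
    mkIso (M := trObj (LowerSet.Iic ca ⊔ LowerSet.Iic cb) E) (N := E)
      (fun X => LinearEquiv.ofBijective (trSub (LowerSet.Iic ca ⊔ LowerSet.Iic cb) E X).subtype
        ⟨Subtype.val_injective, fun x => ⟨⟨x, fun h => absurd (hS X.unop) h⟩, rfl⟩⟩)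
      (fun f x => rfl)
  have key := abs (K := K) (ses (LowerSet.Iic ca) (LowerSet.Iic cb) E) M
  have hsq : ∀ ψ : (mvF (LowerSet.Iic ca) (LowerSet.Iic cb)).obj E ⟶ M,
      evE c hI M (pre (K := K) ((α (LowerSet.Iic ca) (LowerSet.Iic cb)).app E) M ψ) =
        dC ((cL a b K (-j)).twObj M) (sumE c hU hU' M ψ) := by
    intro ψ
    have h1 := ev1_restrict c hU hI inf_le_left (homOfLE cab_le_ca).op M
      ((i₁ (LowerSet.Iic ca) (LowerSet.Iic cb)).app E ≫ ψ)
    have h2 := ev1_restrict c hU' hI inf_le_right (homOfLE cab_le_cb).op M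
      ((i₂ (LowerSet.Iic ca) (LowerSet.Iic cb)).app E ≫ ψ)
    refine Eq.trans ?_ (dC_apply ((cL a b K (-j)).twObj M)
      (evE c hU M ((i₁ (LowerSet.Iic ca) (LowerSet.Iic cb)).app E ≫ ψ) : sec M ca)
      (-evE c hU' M ((i₂ (LowerSet.Iic ca) (LowerSet.Iic cb)).app E ≫ ψ) : sec M cb)).symm
    have h3 : (α (LowerSet.Iic ca) (LowerSet.Iic cb)).app E ≫ ψ =
        (trLE (Cnc a b K) inf_le_left).app E ≫
          (i₁ (LowerSet.Iic ca) (LowerSet.Iic cb)).app E ≫ ψ +
        (trLE (Cnc a b K) inf_le_right).app E ≫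
          (i₂ (LowerSet.Iic ca) (LowerSet.Iic cb)).app E ≫ ψ := by
      rw [← Category.assoc, ← Category.assoc, ← Preadditive.add_comp]
      rfl
    change evE c hI M ((α (LowerSet.Iic ca) (LowerSet.Iic cb)).app E ≫ ψ) = _
    rw [h3, map_add]
    refine (congrArg₂ (· + ·) h1 h2).trans ?_
    refine Eq.trans ?_ (sub_eq_add_neg _ _).symm
    refine congrArg₂ (· + ·) rfl ?_
    change _ = -rB ((cL a b K (-j)).twObj M)
      (-evE c hU' M ((i₂ (LowerSet.Iic ca) (LowerSet.Iic cb)).app E ≫ ψ) : sec M cb)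
    refine Eq.trans ?_ (congrArg Neg.neg (map_neg (rB ((cL a b K (-j)).twObj M)) _)).symm
    rw [neg_neg]
    rfl
  obtain ⟨⟨k0⟩, ⟨k1⟩, k2⟩ := key
  let hc : ∀ n : ℤ, (((sg _).obj (OO a b K j) ⟶ ((sg _).obj M)⟦n⟧) ≃ₗ[K]
      ((sg _).obj ((tr (Cnc a b K) (LowerSet.Iic ca ⊔ LowerSet.Iic cb)).obj E) ⟶
        ((sg _).obj M)⟦n⟧)) := fun n =>
    Linear.homCongr K ((sg _).mapIso e.symm) (Iso.refl _)
  refine ⟨⟨(hc 0).trans (k0.trans (kerE _ _ (sumE c hU hU' M) (evE c hI M) hsq))⟩,
    ⟨(hc 1).trans (k1.trans (cokE _ _ (sumE c hU hU' M) (evE c hI M) hsq))⟩, fun n h h' => ?_⟩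
  exact @Equiv.subsingleton _ _ (hc n).toEquiv (k2 n h h')

end Pool.CRD.FB
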