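import Pool.Agent.CRD.D2.Stmts

/-!
# CRD / D2: CHS, the Euler characteristic is additive on short exact sequences
-/

open CategoryTheory Opposite Limits TensorProduct Pretriangulated

namespace Pool.CRD.FB

namespace CHS_

section
variable {K : Type} [CommRing K] {C : Type} [SmallCategory C] (R : PAlg K C) [R.Good]

omit [R.Good] in
lemma aux {D : Type*} [Category D] {A B' B : D} (m : A ⟶ B) (i : B' ⟶ B) (j : B ⟶ B')
    (h : j ≫ i = 𝟙 _) (t : B ⟶ B) (ht : t = 𝟙 _) (m' : A ⟶ B') (hm : m' = m ≫ j) :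
    (m' ≫ i) ≫ t = 𝟙 _ ≫ m := by
  rw [hm, ht, Category.comp_id, Category.assoc, h, Category.comp_id, Category.id_comp]

lemma triB (S : ShortComplex (Coh R)) (hS : S.ShortExact) :
    ∃ h : (sgB R).obj S.X₃ ⟶ ((sgB R).obj S.X₁)⟦(1 : ℤ)⟧,
      Triangle.mk ((sgB R).map S.f) ((sgB R).map S.g) h ∈ distTriang (Db R) := by
  let ι := DerivedCategory.Bounded.ι (C := Coh R)
  obtain ⟨h, hh⟩ := ι.map_surjective (X := (sgB R).obj S.X₃)
    (Y := ((sgB R).obj S.X₁)⟦(1 : ℤ)⟧)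
    (hS.singleTriangle.mor₃ ≫ (ι.commShiftIso (1 : ℤ)).inv.app ((sgB R).obj S.X₁))
  refine ⟨h, ?_⟩
  rw [← ι.map_distinguished_iff]
  refine isomorphic_distinguished _ hS.singleTriangle_distinguished _
    (Triangle.isoMk _ _ (Iso.refl _) (Iso.refl _) (Iso.refl _) ?_ ?_ ?_)
  · change ι.map ((sgB R).map S.f) ≫ 𝟙 _ = 𝟙 _ ≫ hS.singleTriangle.mor₁
    rw [Category.comp_id, Category.id_comp]
    rfl
  · change ι.map ((sgB R).map S.g) ≫ 𝟙 _ = 𝟙 _ ≫ hS.singleTriangle.mor₂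
    rw [Category.comp_id, Category.id_comp]
    rfl
  · exact aux hS.singleTriangle.mor₃ ((ι.commShiftIso (1 : ℤ)).hom.app ((sgB R).obj S.X₁))
      ((ι.commShiftIso (1 : ℤ)).inv.app ((sgB R).obj S.X₁)) (Iso.inv_hom_id_app _ _) _
      (CategoryTheory.Functor.map_id _ _) (ι.map h) hh

end

end CHS_

open CHS_ in
theorem chs_proof (hCHT : Stmt_CHT) : Stmt_CHS := by
  intro K _ C _ R _ hfin N
  constructor
  · intro S hS
    obtain ⟨h, hh⟩ := triB R S hS
    exact (hCHT K (Db R) hfin _ hh N).1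
  · intro S hS
    obtain ⟨h, hh⟩ := triB R S hS
    exact (hCHT K (Db R) hfin _ hh N).2

end Pool.CRD.FB
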