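import Pool.Agent.CRD.D2.Fin
import Pool.Agent.CRD.D2.Vb
import Pool.Agent.CRD.Phi.Stmts

/-!
# CRD / D2: final assembly of D2
-/

open CategoryTheory Opposite Limits TensorProduct Pretriangulated

namespace Pool.CRD.FB

namespace D2F_

/-- `I_z` on endomorphisms -/
noncomputable def endEquiv {K : Type} [Field K] {c₁ c₂ : CurveData K} {S : SurfData c₁ c₂}
    (X : ConicData S) (z : S.Pt) (M : PMod (Cnc z.u z.v K))
    (h : Function.Bijective (fun φ : M ⟶ M => (X.IF z).map φ)) :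
    (M ⟶ M) ≃ₗ[K] ((X.IF z).obj M ⟶ (X.IF z).obj M) :=
  LinearEquiv.ofBijective
    { toFun := fun φ => (X.IF z).map φ
      map_add' := fun a b => (X.IF z).map_add
      map_smul' := fun c a => (X.IF z).map_smul c a } h

/-- endomorphisms in `Coh` are endomorphisms in `PMod` -/
noncomputable def cohEnd {K : Type} [Field K] {C : Type} [SmallCategory C] {R : PAlg K C}
    (M : Coh R) : (M ⟶ M) ≃ₗ[K] (M.obj ⟶ M.obj) where
  toFun f := f.hom
  map_add' _ _ := rfl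
  map_smul' _ _ := rfl
  invFun f := ⟨f⟩
  left_inv _ := rfl
  right_inv _ := rfl

/-- coherent modules in the derived category -/
noncomputable def sgEnd {K : Type} [Field K] {C : Type} [SmallCategory C] {R : PAlg K C} [R.Good]
    (M : Coh R) : (M ⟶ M) ≃ₗ[K] ((sgB R).obj M ⟶ (sgB R).obj M) :=
  LinearEquiv.ofBijective
    { toFun := fun f => (sgB R).map f
      map_add' := fun a b => by
        apply (DerivedCategory.Bounded.ι (C := Coh R)).map_injective
        exact (DerivedCategory.singleFunctor (Coh R) 0).map_add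
      map_smul' := fun c a => by
        apply (DerivedCategory.Bounded.ι (C := Coh R)).map_injective
        exact (DerivedCategory.singleFunctor (Coh R) 0).map_smul c a }
    (by
      constructor
      · intro a b h
        apply (DerivedCategory.singleFunctor (Coh R) 0).map_injective
        exact congrArg (DerivedCategory.Bounded.ι (C := Coh R)).map h
      · intro g
        obtain ⟨f, hf⟩ := (DerivedCategory.singleFunctor (Coh R) 0).map_surjective
          ((DerivedCategory.Bounded.ι (C := Coh R)).map g)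
        refine ⟨f, ?_⟩
        apply (DerivedCategory.Bounded.ι (C := Coh R)).map_injective
        exact hf)

/-- endomorphisms and the zeroth graded piece -/
noncomputable def zeroEquiv {K : Type} [Field K] {C : Type} [SmallCategory C] {R : PAlg K C}
    [R.Good] (M N : Db R) : (M ⟶ N) ≃ₗ[K] (M ⟶ N⟦(0 : ℤ)⟧) where
  toFun f := f ≫ (shiftFunctorZero (Db R) ℤ).inv.app N
  map_add' a b := Preadditive.add_comp _ _ _ _ _ _
  map_smul' c a := Linear.smul_comp _ _ _ _ _ _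
  invFun f := f ≫ (shiftFunctorZero (Db R) ℤ).hom.app N
  left_inv f := by
    change (f ≫ _) ≫ _ = f
    rw [Category.assoc, Iso.inv_hom_id_app]
    exact Category.comp_id f
  right_inv f := by
    change (f ≫ _) ≫ _ = f
    rw [Category.assoc, Iso.hom_inv_id_app]
    exact Category.comp_id f

/-- conjugation by an isomorphism of `PMod` -/
noncomputable def conj {K : Type} [Field K] {C : Type} [SmallCategory C] {R : PAlg K C}
    {M N : PMod R} (e : M ≅ N) : (M ⟶ M) ≃ₗ[K] (N ⟶ N) where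
  toFun f := e.inv ≫ f ≫ e.hom
  map_add' a b := by rw [Preadditive.add_comp, Preadditive.comp_add]
  map_smul' c a := by
    rw [Linear.smul_comp, Linear.comp_smul]
    rfl
  invFun f := e.hom ≫ f ≫ e.inv
  left_inv f := by
    change e.hom ≫ (e.inv ≫ f ≫ e.hom) ≫ e.inv = f
    rw [Category.assoc, Category.assoc, e.hom_inv_id, e.hom_inv_id_assoc, Category.comp_id]
  right_inv f := by
    change e.inv ≫ (e.hom ≫ f ≫ e.inv) ≫ e.hom = f
    rw [Category.assoc, Category.assoc, e.inv_hom_id, e.inv_hom_id_assoc, Category.comp_id]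

end D2F_

theorem d2f_proof (hAMX : D1.Stmt_AMX) (hSRA : Stmt_SRA) (hTWK : Stmt_TWK) (hSEF : Stmt_SEF)
    (hHFN : Stmt_HFN) (hVBD : Stmt_VBD) (hXGL : Stmt_XGL) (hCND : Cn.Stmt_CND)
    (hNUM : Stmt_NUM) (hNMR : Stmt_NMR) (hIFF : Stmt_IFF) (hSKC : Stmt_SKC)
    (hSGT : Ph.Stmt_SGT) (hD1F : Stmt_D1F) : Stmt_D2F := by
  intro K _ _ _ c₁ c₂ S X _ _ _ hg₁ hg₂ hS
  have h2 : (2 : K) ≠ 0 := two_ne_zero
  obtain ⟨A, -⟩ := (hAMX K c₁ c₂ S).2 X
  have hE : Effac X.R := hSEF K K _ Ch3 X.R A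
  have hGD : ∀ s : Ch3ᵒᵖ, GDim (X.R.obj s) 3 := fun s => (hXGL K h2 c₁ c₂ S X s.unop).2
  have hHF : ∀ M N : Db X.R, HomFin K M N := hHFN K _ Ch3 X.R A 3 hGD
  have hV := hVBD K Ch3 X.R 3 (enough_vb hSRA hTWK X.R A) hGD
  obtain ⟨r, d, hr, hd, hde, hnum⟩ := hNUM K h2 c₁ c₂ S X hE hHF hV hS
  refine ⟨hHF, r, d, hr, hd, hde, fun P hP => ?_⟩
  obtain ⟨n, z, Q, P₀, hQ, ⟨e₀⟩, ⟨e⟩⟩ := hD1F K c₁ c₂ S X hg₁ hg₂ hS P hP
  haveI : (Cnc z.u z.v K).Good := hCND K K z.u z.v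
  let Qc : Coh (Cnc z.u z.v K) := ⟨Q, hQ⟩
  refine ⟨n, rkC Q, degC Q, Int.natCast_nonneg _, fun N => ?_, fun N => ?_, ?_⟩
  · have h1 : chi K N P = chi K N (((sgB X.R).obj P₀)⟦n⟧) :=
      chi_congr (fun m => ⟨isoEquiv (K := K) (Iso.refl N) e m⟩)
    rw [h1, chi_shift_right, (hnum z Qc P₀ ⟨e₀⟩ N).1]
  · have h1 : chi K P N = chi K (((sgB X.R).obj P₀)⟦n⟧) N :=
      chi_congr (fun m => ⟨isoEquiv (K := K) e (Iso.refl N) m⟩)
    rw [h1, chi_shift_left, (hnum z Qc P₀ ⟨e₀⟩ N).2]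
  · intro hr1 i hdi
    -- `Q` has scalar endomorphisms
    have hp0 : IsPointLike K ((sgB X.R).obj P₀) := by
      have e1 : (sgB X.R).obj P₀ ≅ P⟦(-n)⟧ :=
        (shiftShiftNeg ((sgB X.R).obj P₀) n).symm ≪≫ (shiftFunctor (Db X.R) (-n)).mapIso e.symm
      exact pointLike_congr (fun m => ⟨isoEquiv (K := K) e1 e1 m⟩) (pointLike_shift hP (-n))
    have f1 : Module.finrank K (Qc ⟶ Qc) = 1 := by
      rw [← hp0.2.1]
      exact LinearEquiv.finrank_eq ((D2F_.cohEnd Qc).trans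
        ((D2F_.endEquiv X z Q (hIFF K c₁ c₂ S X z Q Q)).trans ((D2F_.conj e₀.symm).trans
        ((D2F_.cohEnd P₀).symm.trans ((D2F_.sgEnd P₀).trans (D2F_.zeroEquiv _ _))))))
    obtain ⟨e₂⟩ := hNMR K h2 c₁ c₂ S X z Qc i hr1 hdi f1
    obtain ⟨hk, hks⟩ := hSKC K c₁ c₂ S z
    let k : Coh S.R := ⟨z.sky, hk⟩
    refine ⟨n, k, hks k ⟨Iso.refl _⟩, ?_⟩
    obtain ⟨eS⟩ := hSGT K Ch2 Ch3 S.R X.R (X.PhC i)
    have e₃ : P₀ ≅ (X.PhC i).obj k := (IsCoh X.R).isoMk (e₀ ≪≫ e₂)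
    exact ⟨e ≪≫ (shiftFunctor (Db X.R) n).mapIso
      ((sgB X.R).mapIso e₃ ≪≫ (eS.app k).symm) ≪≫ ((X.PhD i).commShiftIso n).symm.app _⟩

end Pool.CRD.FB
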