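import Pool.Agent.CRD.D2.Stmts
import Pool.Agent.CRD.Top.T1a

/-!
# CRD / D2: Euler characteristic of a vector bundle on `X` and a module on the fibre
-/

open CategoryTheory Opposite Limits TensorProduct Pretriangulated

namespace Pool.CRD.FB

namespace EXT_

/-- conjugation by isomorphisms -/
noncomputable def hc {K : Type} [Field K] {T : Type 1} [Category.{1} T] [Preadditive T]
    [Linear K T] {X X' Y Y' : T} (a : X ≅ X') (b : Y ≅ Y') : (X ⟶ Y) ≃ₗ[K] (X' ⟶ Y') where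
  toFun f := a.inv ≫ f ≫ b.hom
  map_add' x y := by rw [Preadditive.add_comp, Preadditive.comp_add]
  map_smul' c x := by
    rw [Linear.smul_comp, Linear.comp_smul]
    rfl
  invFun f := a.hom ≫ f ≫ b.inv
  left_inv f := by
    change a.hom ≫ (a.inv ≫ f ≫ b.hom) ≫ b.inv = f
    rw [Category.assoc, Category.assoc, b.hom_inv_id, a.hom_inv_id_assoc, Category.comp_id]
  right_inv f := by
    change a.inv ≫ (a.hom ≫ f ≫ b.inv) ≫ b.hom = f
    rw [Category.assoc, Category.assoc, b.inv_hom_id, a.inv_hom_id_assoc, Category.comp_id]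

end EXT_

theorem ext_proof (hLNK : Stmt_LNK) (hCE2 : Stmt_CE2) (hADI : Stmt_ADI) (hGBK : Stmt_GBK)
    (hIEX : Stmt_IEX) : Stmt_EXT := by
  intro K _ c₁ c₂ S X z _ _ hE hE' N P M Q hN hP hM
  obtain ⟨eP⟩ := hP
  obtain ⟨eM⟩ := hM
  haveI : ExF (X.IF z) := hIEX K c₁ c₂ S X z
  apply chi_congr
  intro n
  obtain ⟨l1⟩ := hLNK K Ch3 X.R hE N P n
  obtain ⟨l2⟩ := hLNK K (Cov Bool) (Cnc z.u z.v K) hE' M Q n
  obtain ⟨l3⟩ := hADI K c₁ c₂ S X z ((sg X.R).obj N.obj) (((sg (Cnc z.u z.v K)).obj Q.obj)⟦n⟧)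
  let W : PAlg K (Cov Bool) := (ConicData.chF z.z₁.mn z.z₂.mn).op ⋙ X.R
  let E : PMod W := (pb X.R (ConicData.chF z.z₁.mn z.z₂.mn)).obj N.obj
  have hEc : ∀ {U V : (Cov Bool)ᵒᵖ} (f : U ⟶ V), IsCart E f := by
    intro U V f
    exact hN.1.2 ((ConicData.chF z.z₁.mn z.z₂.mn).op.map f)
  have hEp : ∀ U, Module.Projective (W.toRing.obj U) (E.obj U) := by
    intro U
    exact hN.2 ((ConicData.chF z.z₁.mn z.z₂.mn).op.obj U)
  obtain ⟨l4⟩ := hCE2 K W (Cnc z.u z.v K) (X.evN z) E Q.obj hEc hEp n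
  obtain ⟨eG⟩ := hGBK K c₁ c₂ S X z N.obj
  -- isomorphisms
  let s1 : ((sg X.R).obj P.obj)⟦n⟧ ≅
      (mD (X.IF z)).obj (((sg (Cnc z.u z.v K)).obj Q.obj)⟦n⟧) :=
    (shiftFunctor _ n).mapIso ((sg X.R).mapIso eP ≪≫
      ((X.IF z).mapDerivedCategorySingleFunctor 0).symm.app Q.obj) ≪≫
      ((mD (X.IF z)).commShiftIso n).symm.app _
  let s2 : (mD (pb X.R (ConicData.chF z.z₁.mn z.z₂.mn))).obj ((sg X.R).obj N.obj) ≅
      (sg W).obj E :=
    ((pb X.R (ConicData.chF z.z₁.mn z.z₂.mn)).mapDerivedCategorySingleFunctor 0).app N.obj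
  let s3 : (mD (rsc (X.evN z))).obj (((sg (Cnc z.u z.v K)).obj Q.obj)⟦n⟧) ≅
      ((sg W).obj ((rsc (X.evN z)).obj Q.obj))⟦n⟧ :=
    ((mD (rsc (X.evN z))).commShiftIso n).app _ ≪≫
      (shiftFunctor _ n).mapIso (((rsc (X.evN z)).mapDerivedCategorySingleFunctor 0).app Q.obj)
  let s4 : (sg (Cnc z.u z.v K)).obj ((bc (X.evN z)).obj E) ≅
      (sg (Cnc z.u z.v K)).obj M.obj := (sg (Cnc z.u z.v K)).mapIso (eG.symm ≪≫ eM.symm)
  exact ⟨l1.trans ((EXT_.hc (Iso.refl _) s1).trans (l3.trans ((EXT_.hc s2 s3).trans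
    (l4.trans ((EXT_.hc s4 (Iso.refl _)).trans l2.symm)))))⟩

end Pool.CRD.FB
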