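import Pool.Agent.CRD.D2.Stmts

/-!
# CRD / D2: rank and degree are constant over a local ring
-/

open CategoryTheory Opposite Limits TensorProduct Pretriangulated

namespace Pool.CRD.FB

namespace FFL_

section Fl

/-- a product of two flat modules is flat -/
lemma flat_prod (B X Y : Type) [CommRing B] [AddCommGroup X] [Module B X] [AddCommGroup Y]
    [Module B Y] [Module.Flat B X] [Module.Flat B Y] : Module.Flat B (X × Y) := by
  rw [Module.Flat.iff_rTensor_preserves_injective_linearMap]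
  intro N N' _ _ _ _ f hf
  have hX := Module.Flat.rTensor_preserves_injective_linearMap (M := X) f hf
  have hY := Module.Flat.rTensor_preserves_injective_linearMap (M := Y) f hf
  have hc : ∀ t, TensorProduct.prodRight B B N' X Y (f.rTensor (X × Y) t) =
      (f.rTensor X (TensorProduct.prodRight B B N X Y t).1,
        f.rTensor Y (TensorProduct.prodRight B B N X Y t).2) := by
    intro t
    refine TensorProduct.induction_on t ?_ ?_ ?_
    · rw [map_zero, map_zero, map_zero, Prod.fst_zero, Prod.snd_zero, map_zero, map_zero]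
      rfl
    · rintro n ⟨x, y⟩
      rfl
    · intro a b ha hb
      rw [map_add, map_add, ha, hb, map_add, Prod.fst_add, Prod.snd_add, map_add, map_add]
      rfl
  rw [injective_iff_map_eq_zero]
  intro t ht
  have h1 := hc t
  rw [ht, map_zero] at h1
  have h2 := congrArg Prod.fst h1
  have h3 := congrArg Prod.snd h1
  apply (TensorProduct.prodRight B B N X Y).injective
  rw [map_zero]
  apply Prod.ext
  · apply hX
    exact h2.symm.trans (map_zero (f.rTensor X)).symm
  · apply hY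
    exact h3.symm.trans (map_zero (f.rTensor Y)).symm

end Fl

section LA

variable {B K' X Y Z X' Y' Z' : Type} [CommRing B] [Field K'] [Algebra B K']
  [AddCommGroup X] [Module B X] [AddCommGroup Y] [Module B Y] [AddCommGroup Z] [Module B Z]
  [AddCommGroup X'] [Module K' X'] [AddCommGroup Y'] [Module K' Y'] [AddCommGroup Z'] [Module K' Z']

/-- the Čech differential of a change of the base ring -/
lemma key (f : X →ₗ[B] Z) (g : Y →ₗ[B] Z) (f' : X' →ₗ[K'] Z') (g' : Y' →ₗ[K'] Z')
    (eX : K' ⊗[B] X ≃ₗ[K'] X') (eY : K' ⊗[B] Y ≃ₗ[K'] Y') (eZ : K' ⊗[B] Z ≃ₗ[K'] Z')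
    (hf : ∀ x, eZ (f.baseChange K' x) = f' (eX x)) (hg : ∀ x, eZ (g.baseChange K' x) = g' (eY x))
    (d : X × Y →ₗ[B] Z) (hd : d = f.comp (LinearMap.fst B X Y) - g.comp (LinearMap.snd B X Y))
    (d' : X' × Y' →ₗ[K'] Z')
    (hd' : d' = f'.comp (LinearMap.fst K' X' Y') - g'.comp (LinearMap.snd K' X' Y'))
    (n : ℕ) (h1 : Function.Surjective (d.baseChange K'))
    (h2 : Module.finrank K' (LinearMap.ker (d.baseChange K')) = n) :
    Function.Surjective d' ∧ Module.finrank K' (LinearMap.ker d') = n := by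
  let E : K' ⊗[B] (X × Y) ≃ₗ[K'] X' × Y' :=
    (TensorProduct.prodRight B K' K' X Y).trans (eX.prodCongr eY)
  have hE : ∀ t, d' (E t) = eZ (d.baseChange K' t) := by
    intro t
    refine TensorProduct.induction_on t ?_ ?_ ?_
    · rw [map_zero, map_zero, map_zero, map_zero]
    · intro c p
      obtain ⟨x, y⟩ := p
      have e1 : E (c ⊗ₜ (x, y)) = (eX (c ⊗ₜ x), eY (c ⊗ₜ y)) := rfl
      rw [e1, hd', LinearMap.baseChange_tmul, hd]
      change f' (eX (c ⊗ₜ x)) - g' (eY (c ⊗ₜ y)) = eZ (c ⊗ₜ[B] (f x - g y))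
      rw [← hf, ← hg, LinearMap.baseChange_tmul, LinearMap.baseChange_tmul, ← map_sub,
        ← TensorProduct.tmul_sub]
    · intro x y hx hy
      rw [map_add, map_add, map_add, map_add, hx, hy]
  refine ⟨fun z => ?_, ?_⟩
  · obtain ⟨t, ht⟩ := h1 (eZ.symm z)
    exact ⟨E t, by rw [hE, ht, LinearEquiv.apply_symm_apply]⟩
  · rw [← h2]
    have h3 : Submodule.map (E : K' ⊗[B] (X × Y) →ₗ[K'] X' × Y')
        (LinearMap.ker (d.baseChange K')) = LinearMap.ker d' := by
      ext w
      rw [Submodule.mem_map]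
      constructor
      · rintro ⟨t, ht, rfl⟩
        rw [LinearMap.mem_ker] at ht ⊢
        change d' (E t) = 0
        rw [hE, ht, map_zero]
      · intro hw
        refine ⟨E.symm w, ?_, E.apply_symm_apply w⟩
        rw [LinearMap.mem_ker] at hw ⊢
        apply eZ.injective
        rw [← hE, E.apply_symm_apply, hw, map_zero]
    exact (LinearEquiv.finrank_eq (E.ofSubmodules _ _ h3)).symm

end LA

end FFL_

theorem ffl_proof (hSRV : Stmt_SRV) (hFLC : Stmt_FLC) (hBCS : Stmt_BCS) (hFLB : Stmt_FLB)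
    (hTWG : Stmt_TWG) (hISO : Stmt_ISO) (hGCO : Stmt_GCO) (hCND : Cn.Stmt_CND)
    (hRR1 : Cn.Stmt_RR1) : Stmt_FFL := by
  intro B _ _ _ a b M hM
  obtain ⟨j₀, hj₀⟩ := hSRV B a b M hM.1
  have hT : ∀ j, IsVB (Cnc a b B) ((cL a b B j).twObj M) := fun j => ⟨isCoh_tw _ hM.1, hM.2⟩
  have hn : ∀ j, j₀ ≤ j → ∃ n : ℕ, ∀ (K' : Type) [Field K'] [Algebra B K'],
      Function.Surjective ((dC ((cL a b B j).twObj M)).baseChange K') ∧
      Module.finrank K' (LinearMap.ker ((dC ((cL a b B j).twObj M)).baseChange K')) = n := by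
    intro j hj
    obtain ⟨h1, h2⟩ := hj₀ j hj
    haveI : ∀ k, Module.Flat B (sec ((cL a b B j).twObj M) k) :=
      fun k => hFLB B a b _ k ((hT j).2 (op k))
    haveI : Module.Flat B (sec ((cL a b B j).twObj M) ca × sec ((cL a b B j).twObj M) cb) :=
      FFL_.flat_prod B _ _
    exact hFLC B _ _ (dC ((cL a b B j).twObj M)) h1 h2
  obtain ⟨n₀, h₀⟩ := hn j₀ le_rfl
  obtain ⟨n₁, h₁⟩ := hn (j₀ + 1) (by omega)
  refine ⟨((n₁ : ℤ) - n₀) / 2, (n₀ : ℤ) - j₀ * ((n₁ : ℤ) - n₀), ?_⟩
  intro K' _ _ h2 a' b' κ μ ha hb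
  haveI : (Cnc a' b' K').Good := hCND K' K' a' b'
  have hc := (hGCO B K' (Cov Bool) (Cov Bool) (Cnc a b B) (Cnc a' b' K')
    (cnG (algebraMap B K') κ μ ha hb B K') M hM.1).1
  have key : ∀ (j : ℤ) (n : ℕ),
      (Function.Surjective ((dC ((cL a b B j).twObj M)).baseChange K') ∧
      Module.finrank K' (LinearMap.ker ((dC ((cL a b B j).twObj M)).baseChange K')) = n) →
      chiC ((cnG (algebraMap B K') κ μ ha hb B K').obj M) +
        2 * j * rkC ((cnG (algebraMap B K') κ μ ha hb B K').obj M) = n := by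
    intro j n hjn
    obtain ⟨e, e1, e2⟩ := hBCS B K' a b a' b' κ μ ha hb ((cL a b B j).twObj M)
    obtain ⟨k1, k2⟩ := FFL_.key (rA ((cL a b B j).twObj M)) (rB ((cL a b B j).twObj M))
      (rA ((cnG (algebraMap B K') κ μ ha hb B K').obj ((cL a b B j).twObj M)))
      (rB ((cnG (algebraMap B K') κ μ ha hb B K').obj ((cL a b B j).twObj M)))
      (e ca) (e cb) (e cab) e1 e2 _ rfl _ rfl n hjn.1 hjn.2
    have h3 : chiC ((cnG (algebraMap B K') κ μ ha hb B K').obj ((cL a b B j).twObj M)) = n := by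
      have h4 : Module.finrank K'
          (H1c ((cnG (algebraMap B K') κ μ ha hb B K').obj ((cL a b B j).twObj M))) = 0 := by
        have h5 : LinearMap.range
            (dC ((cnG (algebraMap B K') κ μ ha hb B K').obj ((cL a b B j).twObj M))) = ⊤ :=
          LinearMap.range_eq_top.2 k1
        haveI : Subsingleton
            (H1c ((cnG (algebraMap B K') κ μ ha hb B K').obj ((cL a b B j).twObj M))) :=
          (Submodule.Quotient.subsingleton_iff).2 h5
        exact Module.finrank_zero_of_subsingleton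
      unfold chiC
      rw [h4]
      change ((Module.finrank K' (LinearMap.ker _) : ℕ) : ℤ) - 0 = n
      erw [k2]
      simp
    have h4 := (hISO K' (Cnc a' b' K') _ _ (hTWG B K' (algebraMap B K') a b a' b' κ μ ha hb
      B K' M j)).2
    rw [h3] at h4
    have h5 := hRR1 K' a' b' h2 ⟨_, hc⟩ j
    rw [← h4] at h5
    exact h5.symm
  have q₀ := key j₀ n₀ (h₀ K')
  have q₁ := key (j₀ + 1) n₁ (h₁ K')
  set r := rkC ((cnG (algebraMap B K') κ μ ha hb B K').obj M)
  set c := chiC ((cnG (algebraMap B K') κ μ ha hb B K').obj M)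
  have q₂ : (n₁ : ℤ) - n₀ = 2 * r := by
    rw [← q₀, ← q₁]; ring
  rw [q₂]
  constructor
  · omega
  · rw [← q₀]; ring

end Pool.CRD.FB
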