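import Pool.Agent.CRD.D2.Stmts

/-!
# CRD / D2: rank and degree of the fibre over `z` are those of the generic fibre
-/

open CategoryTheory Opposite Limits TensorProduct Pretriangulated

namespace Pool.CRD.FB

theorem ffx_proof (hFFL : Stmt_FFL) (hGOK : Stmt_GOK) (hGOL : Stmt_GOL) (hLOO : Stmt_LOO)
    (hGCO : Stmt_GCO) (hISO : Stmt_ISO) : Stmt_FFX := by
  intro K _ h2 c₁ c₂ S X z N hN
  obtain ⟨hl, hn, -⟩ := hLOO K c₁ c₂ S z
  have h2L : (2 : S.L) ≠ 0 := by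
    intro h
    apply h2
    have h3 : algebraMap K S.L 2 = 0 := by rw [map_ofNat]; exact h
    exact (map_eq_zero _).1 h3
  have hc := hGCO K z.O Ch3 (Cov Bool) X.R (Cnc z.uO z.vO z.O) (X.gO z) N hN.1
  have hM : IsVB (Cnc z.uO z.vO z.O) ((X.gO z).obj N) := ⟨hc.1, hc.2 hN.2⟩
  obtain ⟨r, c, hrc⟩ := hFFL z.O z.uO z.vO ((X.gO z).obj N) hM
  have e1 : rkC ((X.fz z).obj N) = r ∧ chiC ((X.fz z).obj N) = c := by
    obtain ⟨i1, i2⟩ := hISO K (Cnc z.u z.v K) _ _ (hGOK K c₁ c₂ S X z N)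
    letI : Algebra z.O K := z.χO.toRingHom.toAlgebra
    obtain ⟨j1, j2⟩ := hrc K h2 z.u z.v 1 1 (by rw [Units.val_one, one_pow, one_mul]; rfl)
      (by rw [Units.val_one, one_pow, one_mul]; rfl)
    exact ⟨i1.trans j1, i2.trans j2⟩
  have e2 : rkC (X.fL.obj N) = r ∧ chiC (X.fL.obj N) = c := by
    obtain ⟨i1, i2⟩ := hISO S.L (Cnc S.x₁u S.x₂u S.L) _ _ (hGOL K c₁ c₂ S X z N hN.1)
    letI : Algebra z.O S.L := z.O.val.toRingHom.toAlgebra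
    obtain ⟨j1, j2⟩ := hrc S.L h2L S.x₁u S.x₂u (S.h₁u z.z₁.t) (S.h₂u z.z₂.t) z.uO_spec z.vO_spec
    exact ⟨i1.trans j1, i2.trans j2⟩
  unfold degC
  rw [e1.1, e1.2, e2.1, e2.2]
  exact ⟨rfl, rfl⟩

end Pool.CRD.FB
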