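import Pool.Agent.CRD.D2.Stmts
import Pool.Agent.CRD.Fib.XFR

/-!
# CRD / D2, module FLB: locally projective modules are flat over the base
-/

open CategoryTheory Opposite Limits TensorProduct Pretriangulated

namespace Pool.CRD.FB

namespace FLB_

lemma free (B : Type) [CommRing B] (a b : Bˣ) (k : Cov Bool) :
    Module.Free B (conSub a b B k) := by
  refine XFR_.free_of a b B k (AddEquiv.refl _) ?_
  intro r m
  change r • m = conC a b B k r * m
  rw [Algebra.smul_def]
  congr 1

end FLB_

theorem flb_proof : Stmt_FLB := by
  intro B _ a b M k hP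
  have h1 : Module.Free B ((Cnc a b B).ring k) := FLB_.free B a b k
  have h2 : Module.Projective ((Cnc a b B).ring k) (sec M k) := hP
  exact Module.Flat.trans B ((Cnc a b B).ring k) (sec M k)

end Pool.CRD.FB
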