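import Pool.Agent.CRD.D2.Stmts
open CategoryTheory Opposite Limits TensorProduct Pretriangulated

namespace Pool.CRD.FB
namespace FLC_

lemma flat_ker {B : Type} [CommRing B] {C₀ C₁ : Type}
    [AddCommGroup C₀] [AddCommGroup C₁] [Module B C₀] [Module B C₁] [Module.Flat B C₀]
    [Module.Flat B C₁] (d : C₀ →ₗ[B] C₁) (hd : Function.Surjective d) :
    Module.Flat B (LinearMap.ker d) := by
  rw [Module.Flat.iff_rTensor_preserves_injective_linearMap]
  intro N N' _ _ _ _ f hf
  have h1 : Function.Injective ((LinearMap.ker d).subtype.lTensor N) :=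
    LinearMap.lTensor_injective_of_exact_of_flat d hd _ (LinearMap.ker d).subtype_injective
      (LinearMap.exact_subtype_ker_map d) N
  have h2 : Function.Injective (f.rTensor C₀) :=
    Module.Flat.rTensor_preserves_injective_linearMap f hf
  have h3 : ((LinearMap.ker d).subtype.lTensor N') ∘ₗ (f.rTensor (LinearMap.ker d)) =
      (f.rTensor C₀) ∘ₗ ((LinearMap.ker d).subtype.lTensor N) := by
    ext x y; simp
  have h4 : Function.Injective
      (((LinearMap.ker d).subtype.lTensor N') ∘ₗ (f.rTensor (LinearMap.ker d))) := by
    rw [h3]; exact h2.comp h1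
  exact Function.Injective.of_comp h4

end FLC_

theorem flc_proof : Stmt_FLC := by
  intro B _ _ _ C₀ C₁ _ _ _ _ _ _ d hd hfin
  have := hfin
  have : Module.Flat B (LinearMap.ker d) := FLC_.flat_ker d hd
  have : Module.Free B (LinearMap.ker d) := Module.free_of_flat_of_isLocalRing
  refine ⟨Module.finrank B (LinearMap.ker d), fun K' _ _ => ⟨?_, ?_⟩⟩
  · exact LinearMap.lTensor_surjective K' hd
  · have hi : Function.Injective ((LinearMap.ker d).subtype.baseChange K') :=
      LinearMap.lTensor_injective_of_exact_of_flat d hd _ (LinearMap.ker d).subtype_injective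
        (LinearMap.exact_subtype_ker_map d) K'
    have hr : LinearMap.range ((LinearMap.ker d).subtype.baseChange K') =
        LinearMap.ker (d.baseChange K') := by
      have := lTensor_exact K' (LinearMap.exact_subtype_ker_map d) hd
      ext x
      exact (this x).symm
    rw [← hr, LinearMap.finrank_range_of_inj hi, Module.finrank_baseChange]

end Pool.CRD.FB
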