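import Pool.Agent.CRD.D2.Stmts

/-!
# CRD / D2: finiteness on the conic over a field
-/

open CategoryTheory Opposite Limits TensorProduct Pretriangulated

namespace Pool.CRD.FB

namespace HFC_

/-- Dedekind domains have global dimension at most one -/
lemma gdim_one (A : Type) [CommRing A] [IsDedekindDomain A] : GDim A 1 := by
  intro M hM
  obtain ⟨n, f, hf⟩ := Module.Finite.exists_fin' A M
  let S : ShortComplex (ModuleCat.{0} A) :=
    ShortComplex.mk (ModuleCat.ofHom (LinearMap.ker f).subtype) (ModuleCat.ofHom f) (by
      ext x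
      exact x.2)
  have hS : S.ShortExact :=
    { exact := by
        rw [ShortComplex.ShortExact.moduleCat_exact_iff_function_exact]
        intro x
        constructor
        · intro hx
          exact ⟨⟨x, hx⟩, rfl⟩
        · rintro ⟨y, rfl⟩
          exact y.2
      mono_f := (ModuleCat.mono_iff_injective _).2 Subtype.val_injective
      epi_g := (ModuleCat.epi_iff_surjective _).2 hf }
  haveI : Module.Finite A (LinearMap.ker f) := inferInstance
  haveI : Module.FinitePresentation A (LinearMap.ker f) :=
    Module.finitePresentation_of_finite A _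
  haveI : Module.Flat A (LinearMap.ker f) := inferInstance
  haveI : Module.Projective A (LinearMap.ker f) := Module.Flat.projective_of_finitePresentation
  haveI : Projective S.X₁ :=
    (IsProjective.iff_projective (R := A) (LinearMap.ker f)).1 inferInstance
  haveI : Projective S.X₂ :=
    (IsProjective.iff_projective (R := A) (Fin n → A)).1 inferInstance
  exact hS.hasProjectiveDimensionLT_X₃ 1 inferInstance inferInstance

end HFC_

theorem hfc_proof (hCPC : Cn.Stmt_CPC) (hCDD : Cn.Stmt_CDD) (hPAM : Stmt_PAM) (hSEF : Stmt_SEF)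
    (hHFN : Stmt_HFN) : Stmt_HFC := by
  intro K _ a b h2 _
  obtain ⟨P, -⟩ := hCPC K K a b
  obtain ⟨A, -⟩ := hPAM K K Bool (Cnc a b K) P
  refine ⟨hSEF K K Bool (Cov Bool) (Cnc a b K) A, hHFN K Bool (Cov Bool) (Cnc a b K) A 1 ?_⟩
  intro X
  haveI := hCDD K a b h2 X.unop
  exact HFC_.gdim_one ((Cnc a b K).ring X.unop)

end Pool.CRD.FB
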