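import Pool.Agent.CRD.D2.Stmts

/-!
# CRD / D2, module IDQ: `0 → J M → M → M / J M → 0`
-/

open CategoryTheory Opposite Limits TensorProduct Pretriangulated

namespace Pool.CRD.FB

theorem idq_proof : Stmt_IDQ := by
  intro K _ c C _ R _ D y f hf I M P hI hP
  obtain ⟨α⟩ := hI
  obtain ⟨β⟩ := hP
  let φ : I ⟶ M := ObjectProperty.homMk (α.hom ≫ (idι D y).app M.obj)
  let ψ : M ⟶ P := ObjectProperty.homMk ((quπ D y).app M.obj ≫ β.inv)
  have hαi : ∀ X, Function.Injective (α.hom.app X).hom := fun X => inj_of_mono α.hom X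
  have hαs : ∀ X, Function.Surjective (α.hom.app X).hom := fun X => surj_of_epi α.hom X
  have hβi : ∀ X, Function.Injective (β.inv.app X).hom := fun X => inj_of_mono β.inv X
  have hβs : ∀ X, Function.Surjective (β.inv.app X).hom := fun X => surj_of_epi β.inv X
  have hφ : ∀ X (x : I.obj.obj X), φ.hom.app X x = (α.hom.app X x : idSub D y M.obj X).1 :=
    fun X x => rfl
  have hψ : ∀ X (x : M.obj.obj X), ψ.hom.app X x =
      β.inv.app X (Submodule.Quotient.mk x : M.obj.obj X ⧸ idSub D y M.obj X) := fun X x => rfl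
  have hex : ∀ X, Function.Exact (φ.hom.app X).hom (ψ.hom.app X).hom := by
    intro X x
    constructor
    · intro h
      have h1 : β.inv.app X (Submodule.Quotient.mk x : M.obj.obj X ⧸ idSub D y M.obj X) = 0 := h
      have h2 : (Submodule.Quotient.mk x : M.obj.obj X ⧸ idSub D y M.obj X) = 0 := by
        apply hβi X
        exact h1.trans (map_zero (β.inv.app X).hom).symm
      have h3 : x ∈ idSub D y M.obj X := (Submodule.Quotient.mk_eq_zero _).1 h2
      obtain ⟨w, hw⟩ := hαs X (⟨x, h3⟩ : idSub D y M.obj X)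
      refine ⟨w, ?_⟩
      exact (hφ X w).trans (congrArg Subtype.val hw)
    · rintro ⟨w, rfl⟩
      have h2 : (Submodule.Quotient.mk (φ.hom.app X w) :
          M.obj.obj X ⧸ idSub D y M.obj X) = 0 := by
        rw [Submodule.Quotient.mk_eq_zero, hφ]
        exact (α.hom.app X w : idSub D y M.obj X).2
      refine (hψ X _).trans ?_
      rw [h2]
      exact map_zero (β.inv.app X).hom
  have hz : φ ≫ ψ = 0 := by
    apply ObjectProperty.hom_ext
    apply pmod_ext
    intro X x
    exact (hex X _).2 ⟨x, rfl⟩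
  have hmono : Mono φ := (coh_mono_iff φ).2 fun X x x' h => by
    apply hαi X
    apply Subtype.ext
    exact h
  have hepi : Epi ψ := (coh_epi_iff ψ).2 fun X w => by
    obtain ⟨q, hq⟩ := hβs X w
    obtain ⟨x, rfl⟩ := Submodule.Quotient.mk_surjective _ (q : M.obj.obj X ⧸ idSub D y M.obj X)
    exact ⟨x, hq⟩
  have hS : (ShortComplex.mk φ ψ hz).ShortExact :=
    { exact := (coh_exact_iff _).2 hex
      mono_f := hmono
      epi_g := hepi }
  exact hf _ hS

end Pool.CRD.FB
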