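import Pool.Agent.CRD.D2.Stmts

/-!
# CRD / D2: rank and Čech numbers are invariant under isomorphism
-/

open CategoryTheory Opposite Limits TensorProduct Pretriangulated

namespace Pool.CRD.FB

namespace ISO_

section
variable {K : Type} [CommRing K] {C : Type} [SmallCategory C] {R : PAlg K C} {M N : PMod R}

/-- sections over a chart -/
noncomputable def eR (e : M ≅ N) (U : C) : sec M U ≃ₗ[R.ring U] sec N U where
  toFun x := e.hom.app (op U) x
  map_add' x y := map_add (e.hom.app (op U)).hom x y
  map_smul' r x := map_smul (e.hom.app (op U)).hom (show R.toRing.obj (op U) from r) x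
  invFun x := e.inv.app (op U) x
  left_inv x := by
    have h := congrArg (fun t : M ⟶ M => t.app (op U) x) e.hom_inv_id
    exact h
  right_inv x := by
    have h := congrArg (fun t : N ⟶ N => t.app (op U) x) e.inv_hom_id
    exact h

/-- sections over a chart, linear over the base ring -/
noncomputable def eK (e : M ≅ N) (U : C) : sec M U ≃ₗ[K] sec N U :=
  (eR e U).restrictScalars K

lemma eK_res (e : M ≅ N) {U V : C} (f : V ⟶ U) (x : sec M U) :
    eK e V (resK M f x) = resK N f (eK e U x) := rs_nat e.hom f.op x

end

section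
variable {K : Type} [CommRing K] {R : PAlg K (Cov Bool)} {M N : PMod R}

lemma dC_nat (e : M ≅ N) (x : sec M ca × sec M cb) :
    dC N ((LinearEquiv.prodCongr (eK e ca) (eK e cb)) x) = eK e cab (dC M x) := by
  obtain ⟨x, y⟩ := x
  change rA N (eK e ca x) - rB N (eK e cb y) = eK e cab (rA M x - rB M y)
  rw [map_sub]
  congr 1
  · exact (eK_res e _ x).symm
  · exact (eK_res e _ y).symm

end

end ISO_

open ISO_ in
theorem iso_proof : Stmt_ISO := by
  intro K _ R M N ⟨e⟩
  constructor
  · unfold rkC
    rw [(eR e cab).finrank_eq]
  · unfold chiC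
    have h0 : Submodule.map (LinearEquiv.prodCongr (eK e ca) (eK e cb)).toLinearMap (H0 M) =
        H0 N := by
      ext x
      constructor
      · rintro ⟨y, hy, rfl⟩
        rw [LinearMap.mem_ker]
        refine (dC_nat e y).trans ?_
        have hy' : dC M y = 0 := hy
        rw [hy', map_zero]
      · intro hx
        refine ⟨(LinearEquiv.prodCongr (eK e ca) (eK e cb)).symm x, ?_,
          LinearEquiv.apply_symm_apply _ x⟩
        change dC M _ = 0
        apply (eK e cab).injective
        rw [← dC_nat, LinearEquiv.apply_symm_apply, map_zero]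
        exact hx
    have h1 : Submodule.map (eK e cab).toLinearMap (LinearMap.range (dC M)) =
        LinearMap.range (dC N) := by
      ext x
      constructor
      · rintro ⟨y, ⟨z, rfl⟩, rfl⟩
        exact ⟨_, dC_nat e z⟩
      · rintro ⟨z, rfl⟩
        refine ⟨dC M ((LinearEquiv.prodCongr (eK e ca) (eK e cb)).symm z), ⟨_, rfl⟩, ?_⟩
        refine (dC_nat e _).symm.trans ?_
        rw [LinearEquiv.apply_symm_apply]
    have e0 := ((LinearEquiv.prodCongr (eK e ca) (eK e cb)).ofSubmodules (H0 M) (H0 N)
      h0).finrank_eq
    have e1 := (Submodule.Quotient.equiv (LinearMap.range (dC M)) (LinearMap.range (dC N))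
      (eK e cab) h1).finrank_eq
    rw [e0]
    congr 2

end Pool.CRD.FB
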