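import Pool.Agent.CRD.D2.Stmts
import Pool.Agent.CRD.G.StmtsB

/-!
# CRD, area FB, JTW: the twist by the ideal of a point of a curve
-/

set_option autoImplicit false

open CategoryTheory Opposite Limits TensorProduct Pretriangulated MonoidalCategory

namespace Pool.CRD.FB

namespace JTW_

section Alg

variable {A : Type} [CommRing A] {M : Type} [AddCommGroup M] [Module A M] {I : Type}
  [AddCommGroup I] [Module A I]

/-- contraction -/
noncomputable def ctr (w : I →ₗ[A] A) : M ⊗[A] I →ₗ[A] M :=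
  TensorProduct.lift (LinearMap.mk₂ A (fun (m : M) (x : I) => w x • m)
    (fun m m' x => smul_add _ _ _)
    (fun r m x => smul_comm _ _ _)
    (fun m x x' => by rw [map_add, add_smul])
    (fun r m x => by rw [map_smul, smul_assoc]))

theorem ctr_tmul (w : I →ₗ[A] A) (m : M) (x : I) : ctr w (m ⊗ₜ[A] x) = w x • m := rfl

theorem ctr_sum (n : ℕ) (u : Fin n → I) (w : Fin n → I →ₗ[A] A)
    (h : ∀ x : I, x = ∑ k, w k x • u k) (t : M ⊗[A] I) : t = ∑ k, ctr (w k) t ⊗ₜ[A] u k := by
  induction t using TensorProduct.induction_on with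
  | zero => simp
  | tmul m x =>
    simp only [ctr_tmul]
    conv_lhs => rw [h x]
    rw [TensorProduct.tmul_sum]
    exact Finset.sum_congr rfl fun k _ => (TensorProduct.smul_tmul _ _ _).symm
  | add a b ha hb =>
    simp only [map_add, TensorProduct.add_tmul, Finset.sum_add_distrib]
    rw [← ha, ← hb]

theorem ctr_inj (n : ℕ) (u : Fin n → I) (w : Fin n → I →ₗ[A] A)
    (h : ∀ x : I, x = ∑ k, w k x • u k) (v : I →ₗ[A] A) (d : A) (d' : Fin n → A)
    (hd : ∀ m : M, d • m = 0 → m = 0) (hd' : ∀ k x, d * w k x = d' k * v x) :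
    Function.Injective (ctr v : M ⊗[A] I →ₗ[A] M) := by
  rw [injective_iff_map_eq_zero]
  intro t ht
  have key : ∀ k, ∀ t : M ⊗[A] I, d • ctr (w k) t = d' k • ctr v t := by
    intro k t
    induction t using TensorProduct.induction_on with
    | zero => simp
    | tmul m x => rw [ctr_tmul, ctr_tmul, smul_smul, smul_smul, hd']
    | add a b ha hb => rw [map_add, map_add, smul_add, smul_add, ha, hb]
  rw [ctr_sum n u w h t]
  refine Finset.sum_eq_zero fun k _ => ?_
  have h0 : ctr (w k) t = 0 := hd _ (by rw [key, ht, smul_zero])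
  rw [h0, TensorProduct.zero_tmul]

end Alg

section Gen

variable {K : Type} [Field K] {F : Type} [Field F] [Algebra K F]

/-- `x ↦ w x` -/
def mulW (B : Subalgebra K F) (J : Submodule B F) (w : F) (hw : ∀ x ∈ J, w * x ∈ B) :
    J →ₗ[B] B where
  toFun x := ⟨w * x.1, hw x.1 x.2⟩
  map_add' x y := Subtype.ext (mul_add _ _ _)
  map_smul' r x := Subtype.ext (by
    change w * (r.1 * x.1) = r.1 * (w * x.1)
    ring)

theorem dual_sum (B : Subalgebra K F) (J : Submodule B F) (n : ℕ) (v w : Fin n → F)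
    (hv : ∀ k, v k ∈ J) (hw : ∀ k, ∀ x ∈ J, w k * x ∈ B) (e : ∑ k, v k * w k = 1) (x : J) :
    x = ∑ k, mulW B J (w k) (hw k) x • (⟨v k, hv k⟩ : J) := by
  apply Subtype.ext
  rw [Submodule.coe_sum]
  change x.1 = ∑ k, (w k * x.1) * v k
  have : ∀ k, (w k * x.1) * v k = (v k * w k) * x.1 := fun k => by ring
  rw [Finset.sum_congr rfl (fun k _ => this k), ← Finset.sum_mul, e, one_mul]

theorem proj (B : Subalgebra K F) (J : Submodule B F) (n : ℕ) (v w : Fin n → F)
    (hv : ∀ k, v k ∈ J) (hw : ∀ k, ∀ x ∈ J, w k * x ∈ B) (e : ∑ k, v k * w k = 1) :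
    Module.Projective B J := by
  refine Module.Projective.of_split (LinearMap.pi fun k => mulW B J (w k) (hw k))
    (Fintype.linearCombination B (fun k => (⟨v k, hv k⟩ : J))) ?_
  ext x
  rw [LinearMap.comp_apply, Fintype.linearCombination_apply]
  exact congrArg Subtype.val (dual_sum B J n v w hv hw e x).symm

end Gen

section Fr

variable {K : Type} [Field K] {c : CurveData K} {C : Type} [Preorder C] {F : Type} [Field F]
  [Algebra K F] {A : C → Subalgebra K F} {hA : ∀ {U V : C}, V ≤ U → A U ≤ A V}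

/-- the ideal of a point -/
def gI (p : Cov Bool) (ε : c.F →ₐ[K] F) (y : c.Pt) (B : Subalgebra K F) : Submodule B F :=
  Submodule.span B {x | ∃ f ∈ y.J p, x = ε (f : c.A p)}

/-- compatibility of a direction with a map of the function fields -/
def Cmp (D : Dir c (subAlg A hA)) (ε : c.F →ₐ[K] F) : Prop :=
  ∀ (s : C) (f : c.A (D.p s)), Subtype.val (p := fun x => x ∈ A s) (D.e s f) = ε f

variable (D : Dir c (subAlg A hA)) (ε : c.F →ₐ[K] F) (hε : Cmp D ε) (y : c.Pt)

include hε in
theorem mem_A (s : C) {x : c.F} (hx : x ∈ c.A (D.p s)) : ε x ∈ A s := by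
  rw [← hε s ⟨x, hx⟩]
  exact Subtype.property (p := fun x => x ∈ A s) (D.e s ⟨x, hx⟩)

include hε in
theorem gI_le (s : C) (x : F) (hx : x ∈ gI (D.p s) ε y (A s)) : x ∈ A s := by
  unfold gI at hx
  induction hx using Submodule.span_induction with
  | mem x hx =>
    obtain ⟨f, hf, rfl⟩ := hx
    exact mem_A D ε hε s f.2
  | zero => exact zero_mem _
  | add a b _ _ ha hb => exact add_mem ha hb
  | smul r a _ ha => exact mul_mem r.2 ha

/-- the ideal of a point as a diagram of fractional ideals -/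
noncomputable def pD : G.FracD A where
  I U := gI (D.p U) ε y (A U)
  mono {U V} h x hx := by
    unfold gI at hx ⊢
    induction hx using Submodule.span_induction with
    | mem x hx =>
      obtain ⟨f, hf, rfl⟩ := hx
      exact Submodule.subset_span ⟨c.res (D.mono h) f, y.res_mem_J _ hf, rfl⟩
    | zero => exact zero_mem _
    | add a b _ _ ha hb => exact add_mem ha hb
    | smul r a _ ha =>
      exact Submodule.smul_mem _ (⟨r.1, hA h r.2⟩ : A V) ha
  span {U V} h x hx := by
    unfold gI at hx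
    induction hx using Submodule.span_induction with
    | mem x hx =>
      obtain ⟨f, hf, rfl⟩ := hx
      rw [← y.J_map (D.mono h)] at hf
      unfold Ideal.map at hf
      induction hf using Submodule.span_induction with
      | mem g hg =>
        obtain ⟨g', hg', rfl⟩ := hg
        exact Submodule.subset_span (Submodule.subset_span ⟨g', hg', rfl⟩)
      | zero =>
        change ε 0 ∈ _
        rw [map_zero]
        exact zero_mem _
      | add a b _ _ ha hb =>
        change ε ((a : c.F) + b) ∈ _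
        rw [map_add]
        exact add_mem ha hb
      | smul r a _ ha =>
        change ε ((r : c.F) * a) ∈ _
        rw [map_mul]
        exact Submodule.smul_mem _ (⟨ε r, mem_A D ε hε V r.2⟩ : A V) ha
    | zero => exact zero_mem _
    | add a b _ _ ha hb => exact add_mem ha hb
    | smul r a _ ha => exact Submodule.smul_mem _ _ ha
  inv U := by
    obtain ⟨n, u, w, hu, hw, e⟩ := c.exists_dual (D.p U) (y.J _) (y.J_ne_bot _)
    refine ⟨n, fun k => ε (u k), fun k => ε (w k), fun k => Submodule.subset_span ⟨u k, hu k, rfl⟩,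
      fun k x hx => ?_, ?_⟩
    · unfold gI at hx
      induction hx using Submodule.span_induction with
      | mem x hx =>
        obtain ⟨f, hf, rfl⟩ := hx
        rw [← map_mul]
        exact mem_A D ε hε U (hw k f hf)
      | zero => rw [mul_zero]; exact zero_mem _
      | add a b _ _ ha hb => rw [mul_add]; exact add_mem ha hb
      | smul r a _ ha =>
        rw [Subalgebra.smul_def, smul_eq_mul, mul_left_comm]
        exact mul_mem r.2 ha
    · simp only [← map_mul]
      rw [← map_sum, e, map_one]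

/-- the inclusion of the ideal -/
def incI (s : C) : (pD D ε hε y).I s →ₗ[A s] A s where
  toFun x := ⟨x.1, gI_le D ε hε y s x.1 x.2⟩
  map_add' _ _ := rfl
  map_smul' _ _ := rfl

theorem inj_ctr (s : C) (M : Type) [AddCommGroup M] [Module (A s) M]
    (hM : ∀ f : c.A (D.p s), f ≠ 0 → ∀ m : M,
      (⟨ε f, mem_A D ε hε s f.2⟩ : A s) • m = 0 → m = 0) :
    Function.Injective (ctr (incI D ε hε y s) : M ⊗[A s] ((pD D ε hε y).I s) →ₗ[A s] M) := by
  obtain ⟨n, u, w, hu, hw, e⟩ := c.exists_dual (D.p s) (y.J _) (y.J_ne_bot _)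
  obtain ⟨d, hdJ, hd⟩ := (Submodule.ne_bot_iff _).1 (y.J_ne_bot (D.p s))
  have hv : ∀ k, ε (u k) ∈ (pD D ε hε y).I s := fun k => Submodule.subset_span ⟨u k, hu k, rfl⟩
  have hw' : ∀ k, ∀ x ∈ (pD D ε hε y).I s, ε (w k) * x ∈ A s := by
    intro k x hx
    change x ∈ gI (D.p s) ε y (A s) at hx
    unfold gI at hx
    induction hx using Submodule.span_induction with
    | mem x hx =>
      obtain ⟨f, hf, rfl⟩ := hx
      rw [← map_mul]
      exact mem_A D ε hε s (hw k f hf)
    | zero => rw [mul_zero]; exact zero_mem _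
    | add a b _ _ ha hb => rw [mul_add]; exact add_mem ha hb
    | smul r a _ ha =>
      rw [Subalgebra.smul_def, smul_eq_mul, mul_left_comm]
      exact mul_mem r.2 ha
  have e' : ∑ k, ε (u k) * ε (w k) = 1 := by
    simp only [← map_mul]
    rw [← map_sum, e, map_one]
  refine ctr_inj n (fun k => ⟨ε (u k), hv k⟩)
    (fun k => mulW (A s) ((pD D ε hε y).I s) (ε (w k)) (hw' k))
    (dual_sum (A s) ((pD D ε hε y).I s) n (fun k => ε (u k)) (fun k => ε (w k)) hv hw' e')
    (incI D ε hε y s) (⟨ε d, mem_A D ε hε s d.2⟩ : A s)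
    (fun k => (⟨ε (w k * d), mem_A D ε hε s (hw k d hdJ)⟩ : A s)) (hM d hd) ?_
  intro k x
  apply Subtype.ext
  change ε d * (ε (w k) * x.1) = ε (w k * d) * x.1
  rw [map_mul]
  ring

theorem range_ctr (s : C) (M : Type) [AddCommGroup M] [Module (A s) M] :
    LinearMap.range (ctr (incI D ε hε y s) : M ⊗[A s] ((pD D ε hε y).I s) →ₗ[A s] M) =
      Submodule.span (A s) {m | ∃ f ∈ y.J (D.p s), ∃ m' : M,
        m = (⟨ε f, mem_A D ε hε s f.2⟩ : A s) • m'} := by
  apply le_antisymm
  · rintro _ ⟨t, rfl⟩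
    induction t using TensorProduct.induction_on with
    | zero => rw [map_zero]; exact zero_mem _
    | tmul m x =>
      rw [ctr_tmul]
      obtain ⟨x, hx⟩ := x
      have key : ∀ x, x ∈ gI (D.p s) ε y (A s) → ∃ h : x ∈ A s, (⟨x, h⟩ : A s) • m ∈
          Submodule.span (A s) {m | ∃ f ∈ y.J (D.p s), ∃ m' : M,
          m = (⟨ε f, mem_A D ε hε s f.2⟩ : A s) • m'} := by
        intro x hx
        unfold gI at hx
        induction hx using Submodule.span_induction with
        | mem x hx =>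
          obtain ⟨f, hf, rfl⟩ := hx
          exact ⟨mem_A D ε hε s f.2, Submodule.subset_span ⟨f, hf, m, rfl⟩⟩
        | zero =>
          refine ⟨zero_mem _, ?_⟩
          have : (⟨0, zero_mem _⟩ : A s) = 0 := rfl
          rw [this, zero_smul]
          exact zero_mem _
        | add a b _ _ ha hb =>
          obtain ⟨ha, ha'⟩ := ha
          obtain ⟨hb, hb'⟩ := hb
          refine ⟨add_mem ha hb, ?_⟩
          have : (⟨a + b, add_mem ha hb⟩ : A s) = ⟨a, ha⟩ + ⟨b, hb⟩ := rfl
          rw [this, add_smul]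
          exact add_mem ha' hb'
        | smul r a _ ha =>
          obtain ⟨ha, ha'⟩ := ha
          refine ⟨mul_mem r.2 ha, ?_⟩
          have : (⟨r • a, mul_mem r.2 ha⟩ : A s) = r * ⟨a, ha⟩ := rfl
          rw [this, mul_smul]
          exact Submodule.smul_mem _ _ ha'
      exact (key x hx).2
    | add a b ha hb => rw [map_add]; exact add_mem ha hb
  · rw [Submodule.span_le]
    rintro _ ⟨f, hf, m, rfl⟩
    exact ⟨m ⊗ₜ ⟨ε f, Submodule.subset_span ⟨f, hf, rfl⟩⟩, rfl⟩

section Iso

variable (M : PMod (subAlg A hA)) (hM : ∀ t, TorsionFree D t M)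

include hM in
theorem hM' (X : Cᵒᵖ) :
    letI : Module (A X.unop) (M.obj X) :=
      inferInstanceAs (Module ((subAlg A hA).toRing.obj X) (M.obj X))
    ∀ f : c.A (D.p X.unop), f ≠ 0 → ∀ m : M.obj X,
      (⟨ε f, mem_A D ε hε X.unop f.2⟩ : A X.unop) • m = 0 → m = 0 := by
  intro f hf m h
  refine hM (D.p X.unop) X le_rfl f hf m ?_
  have e1 : D.el X (c.res le_rfl f) = (⟨ε f, mem_A D ε hε X.unop f.2⟩ : A X.unop) :=
    Subtype.ext (hε X.unop f)
  exact (congrArg (fun r : (subAlg A hA).toRing.obj X => r • m) e1).trans h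

/-- the modules as modules over the subalgebra -/
noncomputable instance mdA (X : Cᵒᵖ) : Module (A X.unop) (M.obj X) :=
  inferInstanceAs (Module ((subAlg A hA).toRing.obj X) (M.obj X))

/-- the submodule over the subalgebra -/
noncomputable def idS (X : Cᵒᵖ) : Submodule (A X.unop) (M.obj X) := idSub D y M X

theorem range_eq (X : Cᵒᵖ) :
    LinearMap.range (ctr (incI D ε hε y X.unop) :
      M.obj X ⊗[A X.unop] ((pD D ε hε y).I X.unop) →ₗ[A X.unop] M.obj X) = idS D y M X := by
  refine (range_ctr D ε hε y X.unop (M.obj X)).trans ?_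
  refine congrArg (Submodule.span (A X.unop)) ?_
  ext m
  constructor
  · rintro ⟨f, hf, m', rfl⟩
    exact ⟨f, hf, m', congrArg (fun r : (subAlg A hA).toRing.obj X => r • m')
      (Subtype.ext (hε X.unop f)).symm⟩
  · rintro ⟨f, hf, m', rfl⟩
    exact ⟨f, hf, m', congrArg (fun r : (subAlg A hA).toRing.obj X => r • m')
      (Subtype.ext (hε X.unop f))⟩

/-- the isomorphism on a chart -/
noncomputable def eqv₀ (X : Cᵒᵖ) : (M.obj X ⊗[A X.unop] ((pD D ε hε y).I X.unop))
    ≃ₗ[A X.unop] idS D y M X :=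
  (LinearEquiv.ofInjective (ctr (incI D ε hε y X.unop))
    (inj_ctr D ε hε y X.unop (M.obj X) (hM' D ε hε M hM X))).trans
    (LinearEquiv.ofEq _ _ (range_eq D ε hε y M X))

/-- the isomorphism on a chart -/
noncomputable def eqv (X : Cᵒᵖ) : (M ⊗ (pD D ε hε y).mod hA).obj X
    ≃ₗ[(subAlg A hA).toRing.obj X] (idObj D y M).obj X := eqv₀ D ε hε y M hM X

/-- the elementary tensor -/
noncomputable def tm (L : PMod (subAlg A hA)) (X : Cᵒᵖ) (m : M.obj X) (l : L.obj X) :
    (M ⊗ L).obj X :=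
  (TensorProduct.tmul (A X.unop) m l : M.obj X ⊗[A X.unop] L.obj X)

theorem eqv_tm (X : Cᵒᵖ) (m : M.obj X) (x : (pD D ε hε y).I X.unop) :
    (eqv D ε hε y M hM X (tm M ((pD D ε hε y).mod hA) X m x)).1 =
      ((⟨x.1, gI_le D ε hε y X.unop x.1 x.2⟩ : A X.unop) • m : M.obj X) := rfl

theorem eqv_nat {X Y : Cᵒᵖ} (f : X ⟶ Y) (x : (M ⊗ (pD D ε hε y).mod hA).obj X) :
    eqv D ε hε y M hM Y (rs (M ⊗ (pD D ε hε y).mod hA) f x) =
      rs (idObj D y M) f (eqv D ε hε y M hM X x) := by
  induction x using TensorProduct.induction_on with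
  | zero =>
    have h1 := rs_zero (M ⊗ (pD D ε hε y).mod hA) f
    have h2 := rs_zero (idObj D y M) f
    refine (congrArg (eqv D ε hε y M hM Y) h1).trans ?_
    refine (map_zero (eqv D ε hε y M hM Y)).trans ?_
    refine Eq.trans h2.symm (congrArg (rs (idObj D y M) f) ?_)
    exact (map_zero (eqv D ε hε y M hM X)).symm
  | tmul m x =>
    apply Subtype.ext
    change _ = rs M f ((⟨x.1, gI_le D ε hε y X.unop x.1 x.2⟩ : A X.unop) • m : M.obj X)
    refine Eq.trans ?_ (rs_smul M f _ m).symm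
    rfl
  | add x z hx hz =>
    have h1 := rs_add (M ⊗ (pD D ε hε y).mod hA) f x z
    have h2 := rs_add (idObj D y M) f (eqv D ε hε y M hM X x) (eqv D ε hε y M hM X z)
    refine (congrArg (eqv D ε hε y M hM Y) h1).trans ?_
    refine (map_add (eqv D ε hε y M hM Y) _ _).trans ?_
    refine Eq.trans (congrArg₂ (fun a b => a + b) hx hz) ?_
    refine Eq.trans h2.symm (congrArg (rs (idObj D y M) f) ?_)
    exact (map_add (eqv D ε hε y M hM X) x z).symm

end Iso

theorem projMod (I : G.FracD A) (X : Cᵒᵖ) :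
    Module.Projective (A X.unop) ((I.mod hA).obj X) := by
  obtain ⟨n, v, w, hv, hw, e⟩ := I.inv X.unop
  exact proj (A X.unop) (I.I X.unop) n v w hv hw e

theorem vbMod (hTWB : G.Stmt_TWB) (I : G.FracD A) (hI : IsCoh (subAlg A hA) (I.mod hA))
    (M : PMod (subAlg A hA)) (hM : IsVB (subAlg A hA) M) :
    IsVB (subAlg A hA) (M ⊗ I.mod hA) := by
  refine ⟨hTWB K C (subAlg A hA) M _ hM.1 hI, fun X => ?_⟩
  have h1 : Module.Projective (A X.unop) (M.obj X) := hM.2 X
  have h2 := projMod (hA := hA) I X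
  have h3 : Module.Projective (A X.unop) (M.obj X ⊗[A X.unop] (I.mod hA).obj X) := inferInstance
  exact h3

end Fr

noncomputable instance pmSym {K : Type} [Field K] {C : Type} [SmallCategory C] (R : PAlg K C) :
    SymmetricCategory (PMod R) :=
  PresheafOfModules.symmetricCategory (R := R ⋙ forget₂ (CommAlgCat.{0} K) CommRingCat.{0})

/-- the unit isomorphism -/
noncomputable def nt {K : Type} [Field K] {C : Type} [SmallCategory C] {R : PAlg K C}
    (L L' : PMod R) (e : L ⊗ L' ≅ 𝟙_ (PMod R)) :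
    tensorRight L ⋙ tensorRight L' ≅ 𝟭 (PMod R) :=
  (tensorRightTensor L L').symm ≪≫ (tensoringRight (PMod R)).mapIso e ≪≫
    rightUnitorNatIso (PMod R)

theorem main (hTWA : G.Stmt_TWA) (hTWB : G.Stmt_TWB) (hTWC : G.Stmt_TWC)
    {K : Type} [Field K] {c : CurveData K} {C : Type} [Preorder C] {F : Type} [Field F]
    [Algebra K F] {A : C → Subalgebra K F} {hA : ∀ {U V : C}, V ≤ U → A U ≤ A V}
    (D : Dir c (subAlg A hA)) (ε : c.F →ₐ[K] F) (hε : Cmp D ε) (y : c.Pt) :
    Nonempty (TwJ D y) := by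
  obtain ⟨J, ⟨e⟩, hI⟩ := hTWA K C F A hA (pD D ε hε y)
  obtain ⟨_, _, hJ⟩ := hTWA K C F A hA J
  have e' : J.mod hA ⊗ (pD D ε hε y).mod hA ≅ 𝟙_ (PMod (subAlg A hA)) := β_ _ _ ≪≫ e
  have h3 := hTWC K C (subAlg A hA) _ _ ⟨e⟩
  exact ⟨{
    T := tensorRight ((pD D ε hε y).mod hA)
    T' := tensorRight (J.mod hA)
    e := nt _ _ e
    e' := nt _ _ e'
    addT := h3.2.1
    linT := ⟨fun f k => h3.2.2 _ _ f k⟩
    vb := fun M hM => vbMod hTWB _ hI M hM
    vb' := fun M hM => vbMod hTWB _ hJ M hM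
    coh := fun M hM => hTWB K C _ M _ hM hI
    coh' := fun M hM => hTWB K C _ M _ hM hJ
    idl := fun M hM => ⟨mkIso (M := M ⊗ (pD D ε hε y).mod hA) (N := idObj D y M)
      (fun X => eqv D ε hε y M hM X) (fun f x => eqv_nat D ε hε y M hM f x)⟩ }⟩

end JTW_

open JTW_ in
/-- JTW: the twists on `X` -/
theorem jtw_proof (hTWA : G.Stmt_TWA) (hTWB : G.Stmt_TWB) (hTWC : G.Stmt_TWC) : Stmt_JTW := by
  intro K _ c₁ c₂ S X
  have hA : ∀ {U V : Ch3}, V ≤ U → X.A U.i U.j U.k ≤ X.A V.i V.j V.k :=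
    fun h => X.A_mono h.1 h.2.1 h.2.2
  exact ⟨fun y => main (hA := hA) hTWA hTWB hTWC X.dir₁ (X.ofL.comp S.e₁) (fun _ _ => rfl) y,
    fun y => main (hA := hA) hTWA hTWB hTWC X.dir₂ (X.ofL.comp S.e₂) (fun _ _ => rfl) y⟩

end Pool.CRD.FB
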