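import Pool.Agent.CRD.D2.Stmts

/-!
# CRD / D2 / KOM
-/

set_option linter.all false

open CategoryTheory Opposite Limits TensorProduct Pretriangulated

namespace Pool.CRD.FB

namespace KOM_

variable {K : Type} [Field K] {c : CurveData K} {C : Type} [Preorder C] {R : PAlg K C}
  (D : Dir c R) (z : c.Pt)

instance mono_idι (M : PMod R) : Mono ((idι D z).app M) :=
  (pmod_mono_iff _).2 fun X => Subtype.val_injective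

/-- isomorphic modules have isomorphic `J_z M` -/
noncomputable def idIso {M N : PMod R} (e : M ≅ N) : idObj D z M ≅ idObj D z N := (idF D z).mapIso e

lemma tf_sub {t : Cov Bool} {M : PMod R} (h : TorsionFree D t M) {c' : CurveData K}
    (D' : Dir c' R) (z' : c'.Pt) : TorsionFree D t (idObj D' z' M) := by
  intro X hX f hf m hm
  apply Subtype.ext
  refine h X hX f hf m.1 ?_
  have := congrArg Subtype.val hm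
  exact this

end KOM_

open KOM_ in
theorem kom_proof (hJTW : Stmt_JTW) (hTFX : Stmt_TFX) (hGLT : Stmt_GLT) (hISO : Stmt_ISO) :
    Stmt_KOM := by
  intro K _ c₁ c₂ S X z N hN
  obtain ⟨τ₁⟩ := (hJTW K c₁ c₂ S X).1 z.z₁
  obtain ⟨τ₂⟩ := (hJTW K c₁ c₂ S X).2 z.z₂
  let M : PMod X.R := τ₁.T'.obj (τ₂.T'.obj N)
  have hM : IsVB X.R M := τ₁.vb' _ (τ₂.vb' _ hN)
  obtain ⟨tf1, tf2, -⟩ := hTFX K c₁ c₂ S X M hM.2
  obtain ⟨i1⟩ := τ₁.idl M tf1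
  obtain ⟨i2⟩ := τ₂.idl (idObj X.dir₁ z.z₁ M) (fun t => tf_sub X.dir₂ (tf2 t) X.dir₁ z.z₁)
  have e : N ≅ idObj X.dir₂ z.z₂ (idObj X.dir₁ z.z₁ M) :=
    (τ₂.e'.app N).symm ≪≫ τ₂.T.mapIso ((τ₁.e'.app (τ₂.T'.obj N)).symm ≪≫ i1) ≪≫ i2
  have c1 : IsCoh X.R (idObj X.dir₁ z.z₁ M) := (IsCoh X.R).prop_of_iso i1 (τ₁.coh _ hM.1)
  have c2 : IsCoh X.R (idObj X.dir₂ z.z₂ (idObj X.dir₁ z.z₁ M)) := (IsCoh X.R).prop_of_iso e hN.1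
  obtain ⟨g1⟩ := hGLT K c₁ c₂ S X M (idObj X.dir₁ z.z₁ M) ((idι X.dir₁ z.z₁).app M) c1 hM.1
    (mono_idι _ _ _) (Or.inl ⟨z.z₁, fun s f hf m =>
      ⟨⟨X.dir₁.el s f • m, smul_mem_idSub X.dir₁ z.z₁ hf m⟩, rfl⟩⟩)
  obtain ⟨g2⟩ := hGLT K c₁ c₂ S X (idObj X.dir₁ z.z₁ M)
    (idObj X.dir₂ z.z₂ (idObj X.dir₁ z.z₁ M)) ((idι X.dir₂ z.z₂).app _) c2 c1
    (mono_idι _ _ _) (Or.inr ⟨z.z₂, fun s f hf m =>
      ⟨⟨X.dir₂.el s f • m, smul_mem_idSub X.dir₂ z.z₂ hf m⟩, rfl⟩⟩)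
  have g : X.fL.obj N ≅ X.fL.obj M := X.fL.mapIso e ≪≫ g2 ≪≫ g1
  have h := hISO _ _ _ _ ⟨g⟩
  refine ⟨M, hM, ⟨e⟩, h.1, ?_⟩
  unfold degC
  rw [h.1, h.2]

end Pool.CRD.FB
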