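import Pool.Agent.CRD.D2.Stmts

/-!
# CRD, FB: module KOZ (Koszul duality)
-/

open CategoryTheory Opposite Limits TensorProduct Pretriangulated

namespace Pool.CRD.FB

namespace KOZ_

section tw

variable {K : Type} [Field K] {c : CurveData K} {C : Type} [Preorder C] {R : PAlg K C}
  {D : Dir c R} {y : c.Pt} (τ : TwJ D y)

/-- the twist on coherent modules -/
noncomputable def tc : Coh R ⥤ Coh R :=
  (IsCoh R).lift ((IsCoh R).ι ⋙ τ.T) (fun A => τ.coh _ A.property)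

noncomputable def tc' : Coh R ⥤ Coh R :=
  (IsCoh R).lift ((IsCoh R).ι ⋙ τ.T') (fun A => τ.coh' _ A.property)

noncomputable def ce : tc τ ⋙ tc' τ ≅ 𝟭 (Coh R) :=
  NatIso.ofComponents (fun A => (IsCoh R).isoMk (τ.e.app A.obj)) (by
    intro A B f
    apply ObjectProperty.hom_ext
    exact τ.e.hom.naturality f.hom)

noncomputable def ce' : tc' τ ⋙ tc τ ≅ 𝟭 (Coh R) :=
  NatIso.ofComponents (fun A => (IsCoh R).isoMk (τ.e'.app A.obj)) (by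
    intro A B f
    apply ObjectProperty.hom_ext
    exact τ.e'.hom.naturality f.hom)

lemma tc_equiv : (tc τ).IsEquivalence :=
  (CategoryTheory.Equivalence.mk (tc τ) (tc' τ) (ce τ).symm (ce' τ)).isEquivalence_functor

lemma tc_add : (tc τ).Additive := by
  have := τ.addT
  refine ⟨fun {A B f g} => ?_⟩
  apply ObjectProperty.hom_ext
  exact τ.T.map_add (f := f.hom) (g := g.hom)

lemma isAdd_comp [R.Good] {f : Coh R → ℤ} (hf : Cn.IsAdd f) :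
    Cn.IsAdd (fun A => f ((tc τ).obj A)) := by
  intro S hS
  have := tc_equiv τ
  have := tc_add τ
  exact hf _ (hS.map_of_exact (tc τ))

end tw

section sub

variable {K : Type} [Field K] {C : Type} [Preorder C] {R : PAlg K C}

lemma iso_of_range {A B M : PMod R} (i : A ⟶ M) (j : B ⟶ M)
    (hi : ∀ X, Function.Injective (i.app X).hom) (hj : ∀ X, Function.Injective (j.app X).hom)
    (h : ∀ X, LinearMap.range (i.app X).hom = LinearMap.range (j.app X).hom) :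
    Nonempty (A ≅ B) := by
  have key : ∀ X (x : A.obj X), (j.app X).hom ((LinearEquiv.ofInjective (j.app X).hom (hj X)).symm
      (LinearEquiv.ofEq _ _ (h X) (LinearEquiv.ofInjective (i.app X).hom (hi X) x))) =
      (i.app X).hom x := by
    intro X x
    have h1 := (LinearEquiv.ofInjective (j.app X).hom (hj X)).apply_symm_apply
      (LinearEquiv.ofEq _ _ (h X) (LinearEquiv.ofInjective (i.app X).hom (hi X) x))
    exact congrArg Subtype.val h1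
  refine ⟨mkIso (fun X => LinearEquiv.ofInjective (i.app X).hom (hi X) ≪≫ₗ
    LinearEquiv.ofEq _ _ (h X) ≪≫ₗ (LinearEquiv.ofInjective (j.app X).hom (hj X)).symm) ?_⟩
  intro X Y f x
  apply hj Y
  refine (key Y (rs A f x)).trans ?_
  refine (rs_nat i f x).trans ?_
  refine Eq.trans ?_ (rs_nat j f _).symm
  congr 1
  exact (key X x).symm

variable {c₁ c₂ : CurveData K} (D₁ : Dir c₁ R) (y₁ : c₁.Pt) (D₂ : Dir c₂ R) (y₂ : c₂.Pt)

/-- the inclusion of `J₂ J₁ M` -/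
noncomputable def inc (M : PMod R) : idObj D₂ y₂ (idObj D₁ y₁ M) ⟶ M :=
  (idι D₂ y₂).app (idObj D₁ y₁ M) ≫ (idι D₁ y₁).app M

lemma inc_apply (M : PMod R) (X : Cᵒᵖ) (x : (idObj D₂ y₂ (idObj D₁ y₁ M)).obj X) :
    ((inc D₁ y₁ D₂ y₂ M).app X).hom x =
      ((x : idSub D₂ y₂ (idObj D₁ y₁ M) X).1 : idSub D₁ y₁ M X).1 := rfl

lemma inc_inj (M : PMod R) (X : Cᵒᵖ) :
    Function.Injective ((inc D₁ y₁ D₂ y₂ M).app X).hom := by
  intro x y h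
  rw [inc_apply, inc_apply] at h
  exact Subtype.ext (Subtype.ext h)

lemma inc_le (M : PMod R) (X : Cᵒᵖ) :
    LinearMap.range ((inc D₁ y₁ D₂ y₂ M).app X).hom ≤
      LinearMap.range ((inc D₂ y₂ D₁ y₁ M).app X).hom := by
  rintro _ ⟨x, rfl⟩
  rw [inc_apply]
  obtain ⟨x, hx⟩ := (x : idSub D₂ y₂ (idObj D₁ y₁ M) X)
  change (x : idSub D₁ y₁ M X).1 ∈ _
  unfold idSub at hx
  induction hx using Submodule.span_induction with
  | mem w hw =>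
    obtain ⟨g, hg, w, rfl⟩ := hw
    change D₂.el X g • (w : idSub D₁ y₁ M X).1 ∈ _
    obtain ⟨w, hw⟩ := (w : idSub D₁ y₁ M X)
    change D₂.el X g • w ∈ _
    unfold idSub at hw
    induction hw using Submodule.span_induction with
    | mem v hv =>
      obtain ⟨f, hf, m, rfl⟩ := hv
      let u : (idObj D₂ y₂ M).obj X :=
        (⟨D₂.el X g • m, smul_mem_idSub D₂ y₂ hg m⟩ : idSub D₂ y₂ M X)
      refine ⟨(⟨D₁.el X f • u, smul_mem_idSub D₁ y₁ hf u⟩ :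
        idSub D₁ y₁ (idObj D₂ y₂ M) X), ?_⟩
      change D₁.el X f • D₂.el X g • m = D₂.el X g • D₁.el X f • m
      rw [smul_smul, smul_smul]
      congr 1
      exact mul_comm (D₁.e X.unop f : R.ring X.unop) (D₂.e X.unop g)
    | zero => rw [smul_zero]; exact zero_mem _
    | add a b _ _ ha hb => rw [smul_add]; exact add_mem ha hb
    | smul a x _ hx =>
      rw [smul_smul]
      have : D₂.el X g * a = a * D₂.el X g :=
        mul_comm (D₂.e X.unop g : R.ring X.unop) (a : R.ring X.unop)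
      rw [this, ← smul_smul]
      exact Submodule.smul_mem _ _ hx
  | zero => exact zero_mem _
  | add a b _ _ ha hb => exact add_mem ha hb
  | smul a x _ hx => exact Submodule.smul_mem _ _ hx

lemma swap (M : PMod R) : Nonempty (idObj D₂ y₂ (idObj D₁ y₁ M) ≅
    idObj D₁ y₁ (idObj D₂ y₂ M)) :=
  iso_of_range (inc D₁ y₁ D₂ y₂ M) (inc D₂ y₂ D₁ y₁ M) (inc_inj D₁ y₁ D₂ y₂ M)
    (inc_inj D₂ y₂ D₁ y₁ M)
    (fun X => le_antisymm (inc_le D₁ y₁ D₂ y₂ M X) (inc_le D₂ y₂ D₁ y₁ M X))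

lemma tf_idObj {t : Cov Bool} {M : PMod R} (h : TorsionFree D₂ t M) :
    TorsionFree D₂ t (idObj D₁ y₁ M) := by
  intro X hX f hf m hm
  exact Subtype.ext (h X hX f hf (m : idSub D₁ y₁ M X).1 (congrArg Subtype.val hm))

lemma idObj_iso {M N : PMod R} (e : M ≅ N) : Nonempty (idObj D₁ y₁ M ≅ idObj D₁ y₁ N) :=
  ⟨(idF D₁ y₁).mapIso e⟩

end sub

section step

variable {K : Type} [Field K] {c : CurveData K} {C : Type} [Preorder C] {R : PAlg K C} [R.Good]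
  {D : Dir c R} {y : c.Pt} (τ : TwJ D y)

lemma step (hIDQ : Stmt_IDQ) {f : Coh R → ℤ} (hf : Cn.IsAdd f) (A P : Coh R)
    (hA : ∀ t, TorsionFree D t A.obj) (hP : Nonempty (P.obj ≅ quObj D y A.obj)) :
    f P = f A - f ((tc τ).obj A) := by
  have h := hIDQ K c C R D y f hf ((tc τ).obj A) A P (τ.idl A.obj hA) hP
  linarith

end step

section kos

variable {K : Type} [Field K] {c₁ c₂ : CurveData K} {S : SurfData c₁ c₂} (X : ConicData S)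
  (z : S.Pt) [X.R.Good] (τ₁ : TwJ X.dir₁ z.z₁) (τ₂ : TwJ X.dir₂ z.z₂)

lemma koszul (hTFX : Stmt_TFX) (hIDQ : Stmt_IDQ) (hCOQ : D1.Stmt_COQ) {f : Coh X.R → ℤ}
    (hf : Cn.IsAdd f) (A P : Coh X.R) (hA : IsVB X.R A.obj)
    (hP : Nonempty (P.obj ≅ quObj X.dir₂ z.z₂ (quObj X.dir₁ z.z₁ A.obj))) :
    f P = f A - f ((tc τ₁).obj A) - f ((tc τ₂).obj A) +
      f ((tc τ₂).obj ((tc τ₁).obj A)) := by
  obtain ⟨t1, t2, t3⟩ := hTFX K c₁ c₂ S X A.obj hA.2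
  let E' : Coh X.R := ⟨quObj X.dir₁ z.z₁ A.obj, hCOQ K c₁ Ch3 X.R X.dir₁ z.z₁ A.obj A.property⟩
  have h1 := step τ₂ hIDQ hf E' P (t3 z.z₁) hP
  have h2 := step τ₁ hIDQ hf A E' t1 ⟨Iso.refl _⟩
  have h3 := step τ₁ hIDQ (isAdd_comp τ₂ hf) A E' t1 ⟨Iso.refl _⟩
  rw [h1, h2, h3]
  ring

end kos

end KOZ_

open KOZ_ in
theorem koz_proof (hJTW : Stmt_JTW) (hTCH : Stmt_TCH) (hTFX : Stmt_TFX) (hIDQ : Stmt_IDQ)
    (hQUI : Stmt_QUI) (hCHS : Stmt_CHS) (_hCOI : D1.Stmt_COI) (hCOQ : D1.Stmt_COQ) :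
    Stmt_KOZ := by
  intro K _ c₁ c₂ S X z _ hfin E N M P P' hE hN hM eN eP eP'
  obtain ⟨τ₁⟩ := (hJTW K c₁ c₂ S X).1 z.z₁
  obtain ⟨τ₂⟩ := (hJTW K c₁ c₂ S X).2 z.z₂
  obtain ⟨t1, t2, -⟩ := hTFX K c₁ c₂ S X M.obj hM.2
  -- `N = T₂ T₁ M = T₁ T₂ M`
  have nT21 : Nonempty (N ≅ (tc τ₂).obj ((tc τ₁).obj M)) := by
    obtain ⟨e0⟩ := eN
    obtain ⟨e1⟩ := τ₁.idl M.obj t1
    obtain ⟨e2⟩ := τ₂.idl (idObj X.dir₁ z.z₁ M.obj)
      (fun t => tf_idObj X.dir₁ z.z₁ X.dir₂ (t2 t))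
    exact ⟨(IsCoh X.R).isoMk (e0 ≪≫ e2.symm ≪≫ τ₂.T.mapIso e1.symm)⟩
  have nT12 : Nonempty (N ≅ (tc τ₁).obj ((tc τ₂).obj M)) := by
    obtain ⟨e0⟩ := eN
    obtain ⟨e1⟩ := τ₂.idl M.obj t2
    obtain ⟨e2⟩ := τ₁.idl (idObj X.dir₂ z.z₂ M.obj)
      (fun t => tf_idObj X.dir₂ z.z₂ X.dir₁ (t1 t))
    obtain ⟨e3⟩ := swap X.dir₁ z.z₁ X.dir₂ z.z₂ M.obj
    exact ⟨(IsCoh X.R).isoMk (e0 ≪≫ e3 ≪≫ e2.symm ≪≫ τ₁.T.mapIso e1.symm)⟩
  have kP : Nonempty (P.obj ≅ quObj X.dir₂ z.z₂ (quObj X.dir₁ z.z₁ E.obj)) := by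
    obtain ⟨e⟩ := eP
    obtain ⟨e'⟩ := hQUI K c₁ c₂ S X z E.obj E.property
    exact ⟨e ≪≫ e'.symm⟩
  have kP' : Nonempty (P'.obj ≅ quObj X.dir₂ z.z₂ (quObj X.dir₁ z.z₁ M.obj)) := by
    obtain ⟨e⟩ := eP'
    obtain ⟨e'⟩ := hQUI K c₁ c₂ S X z M.obj M.property
    exact ⟨e ≪≫ e'.symm⟩
  have rf : ∀ A : Coh X.R, Nonempty (A.obj ≅ A.obj) := fun A => ⟨Iso.refl _⟩
  have a1 : ∀ B : Coh X.R, Cn.IsAdd (fun A : Coh X.R =>
      chi K ((sgB X.R).obj A) ((sgB X.R).obj B)) := fun B => (hCHS K Ch3 X.R hfin _).1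
  have a2 : ∀ B : Coh X.R, Cn.IsAdd (fun A : Coh X.R =>
      chi K ((sgB X.R).obj B) ((sgB X.R).obj A)) := fun B => (hCHS K Ch3 X.R hfin _).2
  have k1 := koszul X z τ₁ τ₂ hTFX hIDQ hCOQ (a1 N) E P hE kP
  have k2 := koszul X z τ₁ τ₂ hTFX hIDQ hCOQ (a2 E) M P' hM kP'
  have s1 : ∀ A B : Coh X.R, chi K ((sgB X.R).obj ((tc τ₁).obj A))
      ((sgB X.R).obj ((tc τ₁).obj B)) = chi K ((sgB X.R).obj A) ((sgB X.R).obj B) :=
    fun A B => hTCH K c₁ Ch3 X.R X.dir₁ z.z₁ τ₁ A B _ _ ⟨Iso.refl _⟩ ⟨Iso.refl _⟩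
  have s2 : ∀ A B : Coh X.R, chi K ((sgB X.R).obj ((tc τ₂).obj A))
      ((sgB X.R).obj ((tc τ₂).obj B)) = chi K ((sgB X.R).obj A) ((sgB X.R).obj B) :=
    fun A B => hTCH K c₂ Ch3 X.R X.dir₂ z.z₂ τ₂ A B _ _ ⟨Iso.refl _⟩ ⟨Iso.refl _⟩
  obtain ⟨n21⟩ := nT21
  obtain ⟨n12⟩ := nT12
  have q1 : chi K ((sgB X.R).obj ((tc τ₁).obj E)) ((sgB X.R).obj N) =
      chi K ((sgB X.R).obj E) ((sgB X.R).obj ((tc τ₂).obj M)) :=
    ((a2 ((tc τ₁).obj E)).of_iso n12).trans (s1 E ((tc τ₂).obj M))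
  have q2 : chi K ((sgB X.R).obj ((tc τ₂).obj E)) ((sgB X.R).obj N) =
      chi K ((sgB X.R).obj E) ((sgB X.R).obj ((tc τ₁).obj M)) :=
    ((a2 ((tc τ₂).obj E)).of_iso n21).trans (s2 E ((tc τ₁).obj M))
  have q3 : chi K ((sgB X.R).obj ((tc τ₂).obj ((tc τ₁).obj E))) ((sgB X.R).obj N) =
      chi K ((sgB X.R).obj E) ((sgB X.R).obj M) :=
    ((a2 ((tc τ₂).obj ((tc τ₁).obj E))).of_iso n21).trans
      ((s2 ((tc τ₁).obj E) ((tc τ₁).obj M)).trans (s1 E M))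
  have q4 : chi K ((sgB X.R).obj E) ((sgB X.R).obj N) =
      chi K ((sgB X.R).obj E) ((sgB X.R).obj ((tc τ₂).obj ((tc τ₁).obj M))) :=
    (a2 E).of_iso n21
  linarith [k1, k2, q1, q2, q3, q4]

end Pool.CRD.FB
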