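import Pool.Agent.CRD.D2.Stmts

/-!
# CRD / D2: `χ(N, I_z Q)`
-/

open CategoryTheory Opposite Limits TensorProduct Pretriangulated

namespace Pool.CRD.FB

theorem nm1_proof (hEXT : Stmt_EXT) (hRRF : Stmt_RRF) (hFFX : Stmt_FFX) (hHFC : Stmt_HFC)
    (hGCO : Stmt_GCO) : Stmt_NM1 := by
  intro K _ _ h2 c₁ c₂ S X z _ _ hE N P Q hN hP
  have hM : IsCoh (Cnc z.u z.v K) ((X.fz z).obj N.obj) :=
    (hGCO K K Ch3 (Cov Bool) X.R (Cnc z.u z.v K) (X.gK z) N.obj N.property).1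
  let M : Coh (Cnc z.u z.v K) := ⟨(X.fz z).obj N.obj, hM⟩
  have h1 := hEXT K c₁ c₂ S X z hE (hHFC K z.u z.v h2).1 N P M Q hN hP ⟨Iso.refl _⟩
  have h3 := hRRF K z.u z.v h2 M Q
  obtain ⟨h4, h5⟩ := hFFX K h2 c₁ c₂ S X z N.obj hN
  rw [h1, h3]
  change rkC ((X.fz z).obj N.obj) * (rkC Q.obj + degC Q.obj) -
    degC ((X.fz z).obj N.obj) * rkC Q.obj = _
  rw [h4, h5]
  ring

end Pool.CRD.FB
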