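import Pool.Agent.CRD.D2.Stmts
import Pool.Agent.CRD.Lib.ACoc

/-!
# CRD / D2: `χ(I_z Q, N)`
-/

open CategoryTheory Opposite Limits TensorProduct Pretriangulated

namespace Pool.CRD.FB

namespace NM2_

/-- `O_X(j)` is a vector bundle -/
lemma vb_OX {K : Type} [Field K] {c₁ c₂ : CurveData K} {S : SurfData c₁ c₂} (X : ConicData S)
    (j : ℤ) : IsVB X.R (X.OX j) :=
  ⟨isCoh_tw _ isCoh_OR, fun s =>
    inferInstanceAs (Module.Projective (X.R.toRing.obj s) (X.R.toRing.obj s))⟩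

end NM2_

theorem nm2_proof (hNM1 : Stmt_NM1) (hKOM : Stmt_KOM) (hKOZ : Stmt_KOZ) (hFFX : Stmt_FFX)
    (hOXZ : Stmt_OXZ) (hICO : Stmt_ICO) (hIEX : Stmt_IEX) (hCHS : Stmt_CHS) (_hHFC : Stmt_HFC)
    (hGCO : Stmt_GCO) (hISO : Stmt_ISO) (hADF : Cn.Stmt_ADF) (hOJN : Cn.Stmt_OJN) :
    Stmt_NM2 := by
  intro K _ _ h2 c₁ c₂ S X z _ _ hE hHF N P Q hN hP
  haveI : ExF (X.IF z) := hIEX K c₁ c₂ S X z
  let G : Coh (Cnc z.u z.v K) ⥤ Coh X.R :=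
    cohF (X.IF z) (fun M hM => hICO K c₁ c₂ S X z M hM)
  have hadd : ∀ N : Db X.R, Cn.IsAdd (fun M : Coh X.R => chi K ((sgB X.R).obj M) N) :=
    fun N => (hCHS K Ch3 X.R hHF N).1
  have hg : Cn.IsAdd (fun M : Coh (Cnc z.u z.v K) =>
      chi K ((sgB X.R).obj (G.obj M)) ((sgB X.R).obj N)) := by
    intro T hT
    exact hadd ((sgB X.R).obj N) (T.map G) (hT.map_of_exact G)
  have h1 := hADF K z.u z.v h2 _ hg Q
  have hO : ∀ j : ℤ, chi K ((sgB X.R).obj (G.obj (Cn.Oc z.u z.v j))) ((sgB X.R).obj N) =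
      rkC (X.fL.obj N.obj) + degC (X.fL.obj N.obj) - 2 * j * rkC (X.fL.obj N.obj) := by
    intro j
    obtain ⟨M, hM, hNM, hr, hd⟩ := hKOM K c₁ c₂ S X z N.obj hN
    let Mc : Coh X.R := ⟨M, hM.1⟩
    let E : Coh X.R := ⟨X.OX j, (NM2_.vb_OX X j).1⟩
    have hfM : IsCoh (Cnc z.u z.v K) ((X.fz z).obj M) :=
      (hGCO K K Ch3 (Cov Bool) X.R (Cnc z.u z.v K) (X.gK z) M hM.1).1
    let fM : Coh (Cnc z.u z.v K) := ⟨(X.fz z).obj M, hfM⟩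
    obtain ⟨eO⟩ := hOXZ K c₁ c₂ S X z j
    have k1 := hKOZ K c₁ c₂ S X z hHF E N Mc (G.obj (Cn.Oc z.u z.v j)) (G.obj fM)
      (NM2_.vb_OX X j) hN hM hNM ⟨(X.IF z).mapIso eO.symm⟩ ⟨Iso.refl _⟩
    have k2 := hNM1 K h2 c₁ c₂ S X z hE E (G.obj fM) fM (NM2_.vb_OX X j) ⟨Iso.refl _⟩
    obtain ⟨a1, a2⟩ := hFFX K h2 c₁ c₂ S X z M hM
    obtain ⟨b1, b2⟩ := hFFX K h2 c₁ c₂ S X z (X.OX j) (NM2_.vb_OX X j)
    obtain ⟨i1, i2⟩ := hISO K (Cnc z.u z.v K) ((X.fz z).obj (X.OX j)) (OO z.u z.v K j) ⟨eO⟩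
    obtain ⟨o1, o2⟩ := hOJN K z.u z.v j
    have c1 : rkC (X.fL.obj (X.OX j)) = 1 := by rw [← b1, i1, o2]
    have c2 : degC (X.fL.obj (X.OX j)) = 2 * j := by
      rw [← b2]
      change chiC ((X.fz z).obj (X.OX j)) - rkC ((X.fz z).obj (X.OX j)) = 2 * j
      rw [i1, i2, o1, o2]
      ring
    rw [k1, k2]
    change rkC (X.fL.obj (X.OX j)) * (rkC ((X.fz z).obj M) + degC ((X.fz z).obj M)) -
      rkC ((X.fz z).obj M) * degC (X.fL.obj (X.OX j)) = _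
    rw [c1, c2, a1, a2, ← hr, ← hd]
    ring
  have h3 := hO 0
  have h4 := hO (-1)
  have h5 : chi K ((sgB X.R).obj P) ((sgB X.R).obj N) =
      chi K ((sgB X.R).obj (G.obj Q)) ((sgB X.R).obj N) := by
    obtain ⟨e⟩ := hP
    have e' : P ≅ G.obj Q := (IsCoh X.R).isoMk e
    exact (hadd ((sgB X.R).obj N)).of_iso e'
  rw [h3, h4] at h1
  rw [h5]
  have h6 : 2 * chi K ((sgB X.R).obj (G.obj Q)) ((sgB X.R).obj N) =
      2 * (rkC (X.fL.obj N.obj) * (rkC Q.obj - degC Q.obj) +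
        rkC Q.obj * degC (X.fL.obj N.obj)) := by
    rw [h1]
    ring
  linarith

end Pool.CRD.FB
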