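import Pool.Agent.CRD.D2.Stmts

/-!
# CRD / D2: the modules of rank one
-/

open CategoryTheory Opposite Limits TensorProduct Pretriangulated

namespace Pool.CRD.FB

theorem nmr_proof (hREL : Cn.Stmt_REL) (hCND : Cn.Stmt_CND) (hSKP : Stmt_SKP) : Stmt_NMR := by
  intro K _ _ h2 c₁ c₂ S X z Q i hr hd h1
  haveI : (Cnc z.u z.v K).Good := hCND K K z.u z.v
  obtain ⟨e⟩ := hREL K z.u z.v h2 Q i hr hd h1
  obtain ⟨e'⟩ := hSKP K c₁ c₂ S X z i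
  exact ⟨(X.IF z).mapIso ((IsCoh (Cnc z.u z.v K)).ι.mapIso e) ≪≫ e'⟩

end Pool.CRD.FB
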