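import Pool.Agent.CRD.D2.Stmts
import Pool.Agent.CRD.Lib.ACoc

/-!
# CRD / D2: the numerical formulas
-/

open CategoryTheory Opposite Limits TensorProduct Pretriangulated

namespace Pool.CRD.FB

namespace NUM_

section
variable {K : Type} [Field K] {C : Type} [SmallCategory C] {R : PAlg K C} [R.Good]

lemma addD_left (hCHT : Stmt_CHT) (hHF : ∀ M N : Db R, HomFin K M N) (P : Db R) :
    AddD (fun N : Db R => chi K N P) := fun Δ hΔ =>
  (hCHT K (Db R) hHF Δ hΔ P).1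

lemma addD_right (hCHT : Stmt_CHT) (hHF : ∀ M N : Db R, HomFin K M N) (P : Db R) :
    AddD (fun N : Db R => chi K P N) := fun Δ hΔ =>
  (hCHT K (Db R) hHF Δ hΔ P).2

/-- every object has a bounded resolution by vector bundles -/
def VBd (R : PAlg K C) [R.Good] : Prop :=
  ∀ X : Db R, ∃ (V : CochainComplex (Coh R) ℤ) (a b : ℤ), V.IsStrictlyGE a ∧
      V.IsStrictlyLE b ∧ (∀ n, IsVB R (V.X n).obj) ∧
      Nonempty (X.obj ≅ DerivedCategory.Q.obj V)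

lemma eq_of_vb (hADV : Stmt_ADV) (hV : VBd R) {F G : Db R → ℤ} (hF : AddD F) (hG : AddD G)
    (h : ∀ M : Coh R, IsVB R M.obj → F ((sgB R).obj M) = G ((sgB R).obj M)) (N : Db R) :
    F N = G N := by
  have h1 := hADV K C R hV ℤ (fun N => F N - G N) (fun Δ hΔ => by
    have a1 := hF Δ hΔ
    have a2 := hG Δ hΔ
    change F Δ.obj₂ - G Δ.obj₂ = (F Δ.obj₁ - G Δ.obj₁) + (F Δ.obj₃ - G Δ.obj₃)
    rw [a1, a2]; ring) (fun M hM => by
      change F ((sgB R).obj M) - G ((sgB R).obj M) = 0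
      rw [h M hM, sub_self]) N
  exact sub_eq_zero.1 h1

lemma even_of_vb (hADV : Stmt_ADV) (hV : VBd R) {F : Db R → ℤ} (hF : AddD F)
    (h : ∀ M : Coh R, IsVB R M.obj → Even (F ((sgB R).obj M))) (N : Db R) : Even (F N) := by
  have h1 := hADV K C R hV (ZMod 2) (fun N => ((F N : ℤ) : ZMod 2)) (fun Δ hΔ => by
    have a1 := hF Δ hΔ
    change ((F Δ.obj₂ : ℤ) : ZMod 2) = ((F Δ.obj₁ : ℤ) : ZMod 2) + ((F Δ.obj₃ : ℤ) : ZMod 2)
    rw [a1]; push_cast; ring) (fun M hM => (ZMod.intCast_zmod_eq_zero_iff_dvd _ 2).2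
      (by simpa using (h M hM).two_dvd)) N
  have h2 := (ZMod.intCast_zmod_eq_zero_iff_dvd (F N) 2).1 h1
  exact even_iff_two_dvd.2 (by simpa using h2)

end

end NUM_

open NUM_ in
theorem num_proof (hNM1 : Stmt_NM1) (hNM2 : Stmt_NM2) (hCHT : Stmt_CHT) (hADV : Stmt_ADV)
    (hCND : Cn.Stmt_CND) (hDEE : Cn.Stmt_DEE) (hOJN : Cn.Stmt_OJN) (hICO : Stmt_ICO)
    (hGCO : Stmt_GCO) : Stmt_NUM := by
  intro K _ _ h2 c₁ c₂ S X _ hE hHF hV hS
  by_cases hpt : Nonempty S.Pt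
  swap
  · refine ⟨fun _ => 0, fun _ => 0, fun _ _ => by simp, fun _ _ => by simp, fun _ => Even.zero,
      fun z => absurd ⟨z⟩ hpt⟩
  obtain ⟨z₀⟩ := hpt
  haveI hG : ∀ z : S.Pt, (Cnc z.u z.v K).Good := fun z => hCND K K z.u z.v
  haveI hGL : (Cnc S.x₁u S.x₂u S.L).Good := hCND S.L S.L S.x₁u S.x₂u
  have h2L : (2 : S.L) ≠ 0 := by
    intro h
    apply h2
    have h3 : algebraMap K S.L 2 = 0 := by rw [map_ofNat]; exact h
    exact (map_eq_zero _).1 h3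
  -- the modules P_j
  let P : ℤ → Coh X.R := fun j =>
    ⟨(X.IF z₀).obj (OO z₀.u z₀.v K j), hICO K c₁ c₂ S X z₀ _ (isCoh_OO z₀.u z₀.v j)⟩
  have hP : ∀ (j : ℤ) (N : Coh X.R), IsVB X.R N.obj →
      chi K ((sgB X.R).obj N) ((sgB X.R).obj (P j)) =
        rkC (X.fL.obj N.obj) * (1 + 2 * j) - degC (X.fL.obj N.obj) := by
    intro j N hN
    have h3 := hNM1 K h2 c₁ c₂ S X z₀ hE N (P j) (Cn.Oc z₀.u z₀.v j) hN ⟨Iso.refl _⟩
    obtain ⟨o1, o2⟩ := hOJN K z₀.u z₀.v j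
    have o3 : degC (Cn.Oc z₀.u z₀.v j : Coh (Cnc z₀.u z₀.v K)).obj = 2 * j := by
      change chiC (OO z₀.u z₀.v K j) - rkC (OO z₀.u z₀.v K j) = 2 * j
      rw [o1, o2]; ring
    have o4 : rkC (Cn.Oc z₀.u z₀.v j : Coh (Cnc z₀.u z₀.v K)).obj = 1 := o2
    rw [h3, o3, o4]
    ring
  let F₀ : Db X.R → ℤ := fun N => chi K N ((sgB X.R).obj (P 0))
  let F₁ : Db X.R → ℤ := fun N => chi K N ((sgB X.R).obj (P 1))
  have hF₀ : AddD F₀ := addD_left hCHT hHF _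
  have hF₁ : AddD F₁ := addD_left hCHT hHF _
  let F : Db X.R → ℤ := fun N => F₁ N - F₀ N
  have hF : AddD F := fun Δ hΔ => by
    change F₁ Δ.obj₂ - F₀ Δ.obj₂ = (F₁ Δ.obj₁ - F₀ Δ.obj₁) + (F₁ Δ.obj₃ - F₀ Δ.obj₃)
    rw [hF₀ Δ hΔ, hF₁ Δ hΔ]; ring
  have hFv : ∀ M : Coh X.R, IsVB X.R M.obj →
      F ((sgB X.R).obj M) = 2 * rkC (X.fL.obj M.obj) := by
    intro M hM
    change chi K ((sgB X.R).obj M) ((sgB X.R).obj (P 1)) -
      chi K ((sgB X.R).obj M) ((sgB X.R).obj (P 0)) = _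
    rw [hP 1 M hM, hP 0 M hM]; ring
  have hFe : ∀ N, Even (F N) := even_of_vb hADV hV hF (fun M hM => by
    rw [hFv M hM]; exact even_two_mul _)
  let r : Db X.R → ℤ := fun N => F N / 2
  have hr2 : ∀ N, 2 * r N = F N := fun N => Int.two_mul_ediv_two_of_even (hFe N)
  have hr : AddD r := fun Δ hΔ => by
    have a1 := hr2 Δ.obj₁
    have a2 := hr2 Δ.obj₂
    have a3 := hr2 Δ.obj₃
    have a4 := hF Δ hΔ
    linarith
  let d : Db X.R → ℤ := fun N => r N - F₀ N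
  have hd : AddD d := fun Δ hΔ => by
    change r Δ.obj₂ - F₀ Δ.obj₂ = (r Δ.obj₁ - F₀ Δ.obj₁) + (r Δ.obj₃ - F₀ Δ.obj₃)
    rw [hr Δ hΔ, hF₀ Δ hΔ]; ring
  have hrv : ∀ M : Coh X.R, IsVB X.R M.obj → r ((sgB X.R).obj M) = rkC (X.fL.obj M.obj) := by
    intro M hM
    have a1 := hr2 ((sgB X.R).obj M)
    rw [hFv M hM] at a1
    linarith
  have hdv : ∀ M : Coh X.R, IsVB X.R M.obj → d ((sgB X.R).obj M) = degC (X.fL.obj M.obj) := by
    intro M hM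
    change r ((sgB X.R).obj M) - chi K ((sgB X.R).obj M) ((sgB X.R).obj (P 0)) = _
    rw [hrv M hM, hP 0 M hM]; ring
  have hde : ∀ N, Even (d N) := even_of_vb hADV hV hd (fun M hM => by
    rw [hdv M hM]
    have hc : IsCoh (Cnc S.x₁u S.x₂u S.L) (X.fL.obj M.obj) :=
      (hGCO K S.L Ch3 (Cov Bool) X.R (Cnc S.x₁u S.x₂u S.L) (X.gL cab cab) M.obj M.property).1
    exact hDEE S.L S.x₁u S.x₂u h2L hS ⟨X.fL.obj M.obj, hc⟩)
  refine ⟨r, d, hr, hd, hde, fun z Q P' hP' N => ⟨?_, ?_⟩⟩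
  · refine eq_of_vb hADV hV (F := fun N => chi K N ((sgB X.R).obj P'))
      (G := fun N => r N * (rkC Q.obj + degC Q.obj) - rkC Q.obj * d N)
      (addD_left hCHT hHF _) (fun Δ hΔ => ?_) (fun M hM => ?_) N
    · change r Δ.obj₂ * (rkC Q.obj + degC Q.obj) - rkC Q.obj * d Δ.obj₂ = _
      rw [hr Δ hΔ, hd Δ hΔ]; ring
    · change chi K ((sgB X.R).obj M) ((sgB X.R).obj P') =
        r ((sgB X.R).obj M) * (rkC Q.obj + degC Q.obj) - rkC Q.obj * d ((sgB X.R).obj M)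
      rw [hNM1 K h2 c₁ c₂ S X z hE M P' Q hM hP', hrv M hM, hdv M hM]
  · refine eq_of_vb hADV hV (F := fun N => chi K ((sgB X.R).obj P') N)
      (G := fun N => r N * (rkC Q.obj - degC Q.obj) + rkC Q.obj * d N)
      (addD_right hCHT hHF _) (fun Δ hΔ => ?_) (fun M hM => ?_) N
    · change r Δ.obj₂ * (rkC Q.obj - degC Q.obj) + rkC Q.obj * d Δ.obj₂ = _
      rw [hr Δ hΔ, hd Δ hΔ]; ring
    · change chi K ((sgB X.R).obj P') ((sgB X.R).obj M) =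
        r ((sgB X.R).obj M) * (rkC Q.obj - degC Q.obj) + rkC Q.obj * d ((sgB X.R).obj M)
      rw [hNM2 K h2 c₁ c₂ S X z hE hHF M P' Q hM hP', hrv M hM, hdv M hM]

end Pool.CRD.FB
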