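import Pool.Agent.CRD.D2.Stmts

/-!
# CRD / D2: Riemann-Roch for two coherent modules on the conic
-/

open CategoryTheory Opposite Limits TensorProduct Pretriangulated

namespace Pool.CRD.FB

namespace RRF_

/-- an Euler characteristic with two terms -/
lemma finsum_two (f : ℤ → ℕ) (h : ∀ n, n ≠ 0 → n ≠ 1 → f n = 0) :
    ∑ᶠ n : ℤ, (n.negOnePow : ℤ) * (f n : ℤ) = (f 0 : ℤ) - (f 1 : ℤ) := by
  have h1 : (Function.support fun n : ℤ => (n.negOnePow : ℤ) * (f n : ℤ)) ⊆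
      (({0, 1} : Finset ℤ) : Set ℤ) := by
    intro n hn
    by_contra hc
    simp only [Finset.coe_insert, Finset.coe_singleton, Set.mem_insert_iff,
      Set.mem_singleton_iff, not_or] at hc
    apply hn
    change (n.negOnePow : ℤ) * (f n : ℤ) = 0
    rw [h n hc.1 hc.2]
    simp
  rw [finsum_eq_sum_of_support_subset _ h1, Finset.sum_pair (by norm_num)]
  simp only [Int.negOnePow_zero, Int.negOnePow_one, Units.val_one, Units.val_neg, one_mul,
    neg_mul]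
  ring

end RRF_

theorem rrf_proof (hHFC : Stmt_HFC) (hCHS : Stmt_CHS) (hCEO : Stmt_CEO) (hLNK : Stmt_LNK)
    (hADF : Cn.Stmt_ADF) (hRR1 : Cn.Stmt_RR1) : Stmt_RRF := by
  intro K _ _ a b h2 _ M Q
  obtain ⟨hE, hHF⟩ := hHFC K a b h2
  have hf : Cn.IsAdd (fun M : Coh (Cnc a b K) =>
      chi K ((sgB (Cnc a b K)).obj M) ((sgB (Cnc a b K)).obj Q)) :=
    (hCHS K (Cov Bool) (Cnc a b K) hHF ((sgB (Cnc a b K)).obj Q)).1
  have h1 := hADF K a b h2 _ hf M
  have hO : ∀ j : ℤ, chi K ((sgB (Cnc a b K)).obj (Cn.Oc a b j)) ((sgB (Cnc a b K)).obj Q) =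
      chiC Q.obj - 2 * j * rkC Q.obj := by
    intro j
    obtain ⟨⟨e0⟩, ⟨e1⟩, e2⟩ := hCEO K a b j Q.obj
    have h3 := hRR1 K a b h2 Q (-j)
    have h4 : chi K ((sgB (Cnc a b K)).obj (Cn.Oc a b j)) ((sgB (Cnc a b K)).obj Q) =
        chiC ((cL a b K (-j)).twObj Q.obj) := by
      unfold chi
      rw [RRF_.finsum_two (fun n => Module.finrank K
        ((sgB (Cnc a b K)).obj (Cn.Oc a b j) ⟶ ((sgB (Cnc a b K)).obj Q)⟦n⟧))]
      · obtain ⟨l0⟩ := hLNK K (Cov Bool) (Cnc a b K) hE (Cn.Oc a b j) Q 0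
        obtain ⟨l1⟩ := hLNK K (Cov Bool) (Cnc a b K) hE (Cn.Oc a b j) Q 1
        rw [(l0.trans e0).finrank_eq, (l1.trans e1).finrank_eq]
        rfl
      · intro n hn0 hn1
        obtain ⟨l⟩ := hLNK K (Cov Bool) (Cnc a b K) hE (Cn.Oc a b j) Q n
        haveI := e2 n hn0 hn1
        haveI := l.toEquiv.subsingleton
        exact Module.finrank_zero_of_subsingleton
    rw [h4, h3]
    ring
  have h3 := hO 0
  have h4 := hO (-1)
  rw [h3, h4] at h1
  have h5 : chiC Q.obj = rkC Q.obj + degC Q.obj := by unfold degC; ring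
  rw [h5] at h1
  have h6 : 2 * chi K ((sgB (Cnc a b K)).obj M) ((sgB (Cnc a b K)).obj Q) =
      2 * (rkC M.obj * (rkC Q.obj + degC Q.obj) - degC M.obj * rkC Q.obj) := by
    rw [h1]
    ring
  linarith

end Pool.CRD.FB
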