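import Pool.Agent.CRD.D2.Stmts

/-!
# CRD / D2, SRV: Serre vanishing and finiteness for the conic over a noetherian ring
-/

set_option autoImplicit false

open CategoryTheory Opposite Limits TensorProduct Pretriangulated

namespace Pool.CRD.FB

namespace SRV_

section Gen

variable {K : Type} [CommRing K] {C : Type} [SmallCategory C] {R : PAlg K C}

/-- multiplication by a function -/
noncomputable def mulE (M : PMod R) (U : C) (r : R.ring U) : Module.End K (sec M U) where
  toFun x := r • x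
  map_add' x y := smul_add _ _ _
  map_smul' k x := by
    change r • (algebraMap K (R.ring U) k • x) = algebraMap K (R.ring U) k • (r • x)
    rw [smul_smul, smul_smul, mul_comm]

lemma mulE_apply (M : PMod R) (U : C) (r : R.ring U) (x : sec M U) : mulE M U r x = r • x := rfl

lemma mulE_pow (M : PMod R) (U : C) (r : R.ring U) (n : ℕ) (x : sec M U) :
    (mulE M U r ^ n) x = r ^ n • x := by
  induction n with
  | zero => rw [pow_zero, pow_zero, one_smul]; rfl
  | succ n ih => rw [pow_succ', Module.End.mul_apply, ih, mulE_apply, smul_smul, ← pow_succ']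

/-- finite generation over `K[r0]` if the ring is generated by `r0^n`, `r0^n w0` -/
lemma fge (M : PMod R) (U : C) (hfin : Module.Finite (R.ring U) (sec M U)) (r0 w0 : R.ring U)
    (hspan : ∀ r : R.ring U, r ∈ Submodule.span K
      (Set.range (fun n : ℕ => r0 ^ n) ∪ Set.range (fun n : ℕ => r0 ^ n * w0))) :
    G.FGe (mulE M U r0) := by
  classical
  obtain ⟨S, hS⟩ := hfin.fg_top
  refine ⟨S ∪ S.image (fun g => w0 • g), fun x => ?_⟩
  have hx : x ∈ Submodule.span (R.ring U) (S : Set (sec M U)) := by rw [hS]; trivial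
  obtain ⟨c, -, hc⟩ := Submodule.mem_span_finset.1 hx
  rw [← hc]
  refine Submodule.sum_mem _ fun g hg => ?_
  have key : ∀ r : R.ring U, r ∈ Submodule.span K
      (Set.range (fun n : ℕ => r0 ^ n) ∪ Set.range (fun n : ℕ => r0 ^ n * w0)) →
      r • g ∈ Submodule.span K {z | ∃ s ∈ S ∪ S.image (fun g => w0 • g), ∃ n : ℕ,
        z = (mulE M U r0 ^ n) s} := by
    intro r hr
    induction hr using Submodule.span_induction with
    | mem r hr =>
      rcases hr with ⟨n, rfl⟩ | ⟨n, rfl⟩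
      · exact Submodule.subset_span ⟨g, Finset.mem_union_left _ hg, n, (mulE_pow M U r0 n g).symm⟩
      · refine Submodule.subset_span ⟨w0 • g, Finset.mem_union_right _
          (Finset.mem_image_of_mem _ hg), n, ?_⟩
        rw [mulE_pow, smul_smul]
    | zero => rw [zero_smul]; exact zero_mem _
    | add r s _ _ h1 h2 => rw [add_smul]; exact add_mem h1 h2
    | smul k r _ h1 => rw [smul_assoc]; exact Submodule.smul_mem _ _ h1
  exact key _ (hspan _)

end Gen

section Con

variable {B : Type} [CommRing B] (a b : Bˣ)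

lemma Tel_pow {k : Cov Bool} {n : ℤ} (h : n ∈ exR k) (m : ℕ) (h' : (m : ℤ) * n ∈ exR k) :
    (Tel a b B h) ^ m = Tel a b B h' := by
  apply Subtype.ext
  change (algebraMap (LaurentPolynomial B) (ConT a b) (LaurentPolynomial.T n)) ^ m =
    algebraMap (LaurentPolynomial B) (ConT a b) (LaurentPolynomial.T ((m : ℤ) * n))
  rw [← map_pow, LaurentPolynomial.T_pow]

/-- `r T^n` as an element of a chart -/
lemma smul_Tel {k : Cov Bool} {n : ℤ} (h : n ∈ exR k) (r : B) :
    ((r • Tel a b B h : conSub a b B k) : ConT a b) = ⟨AddMonoidAlgebra.single n r, 0⟩ := by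
  change (r • algebraMap (LaurentPolynomial B) (ConT a b) (LaurentPolynomial.T n) : ConT a b) = _
  apply QuadraticAlgebra.ext
  · change r • (AddMonoidAlgebra.single n 1 : LaurentPolynomial B) = _
    rw [AddMonoidAlgebra.smul_single, smul_eq_mul, mul_one]
  · change r • (0 : LaurentPolynomial B) = 0
    rw [smul_zero]

/-- `T^m ω` as an element of a chart -/
noncomputable def Wel {k : Cov Bool} {m : ℤ} (h : m ∈ exI k) : conSub a b B k :=
  ⟨⟨0, AddMonoidAlgebra.single m 1⟩, ⟨zero_mem _, single_mem_LpIn h _⟩⟩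

lemma smul_Tel_Wel {k : Cov Bool} {n m : ℤ} (h : n ∈ exR k) (h' : m ∈ exI k) (r : B) :
    ((r • (Tel a b B h * Wel a b h') : conSub a b B k) : ConT a b) =
      ⟨0, AddMonoidAlgebra.single (n + m) r⟩ := by
  have h1 : ((r • (Tel a b B h * Wel a b h') : conSub a b B k) : ConT a b) =
    (r • Tel a b B h : conSub a b B k) * (Wel a b h' : conSub a b B k) := by
    rw [← Subalgebra.coe_mul, smul_mul_assoc]
  rw [h1, smul_Tel]
  apply QuadraticAlgebra.ext
  · change AddMonoidAlgebra.single n r * 0 + conQ a b * 0 * AddMonoidAlgebra.single m 1 = 0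
    ring
  · change AddMonoidAlgebra.single n r * AddMonoidAlgebra.single m 1 + 0 * 0 +
      0 * 0 * AddMonoidAlgebra.single m 1 = (AddMonoidAlgebra.single (n + m) r : LaurentPolynomial B)
    rw [AddMonoidAlgebra.single_mul_single, mul_one]
    ring

/-- the ring of a chart is spanned by `r0^n`, `r0^n w0` -/
lemma span_gen {k : Cov Bool} {ε m : ℤ} (hε : ε ∈ exR k) (hm : m ∈ exI k)
    (hR : ∀ n ∈ exR k, ∃ l : ℕ, (l : ℤ) * ε = n)
    (hI : ∀ n ∈ exI k, ∃ l : ℕ, (l : ℤ) * ε + m = n)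
    (hall : ∀ l : ℕ, (l : ℤ) * ε ∈ exR k) (z : conSub a b B k) :
    z ∈ Submodule.span B (Set.range (fun n : ℕ => (Tel a b B hε) ^ n) ∪
      Set.range (fun n : ℕ => (Tel a b B hε) ^ n * Wel a b hm)) := by
  have key : ∀ w : ConT a b, w.re ∈ LpIn (exR k) → w.im ∈ LpIn (exI k) →
      ∃ hw : w ∈ conSub a b B k, (⟨w, hw⟩ : conSub a b B k) ∈
        Submodule.span B (Set.range (fun n : ℕ => (Tel a b B hε) ^ n) ∪
      Set.range (fun n : ℕ => (Tel a b B hε) ^ n * Wel a b hm)) := by
    intro w hw1 hw2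
    refine conT_induction (P := fun w => ∃ hw : w ∈ conSub a b B k, (⟨w, hw⟩ : conSub a b B k) ∈
        Submodule.span B (Set.range (fun n : ℕ => (Tel a b B hε) ^ n) ∪
      Set.range (fun n : ℕ => (Tel a b B hε) ^ n * Wel a b hm))) ?_ (exR k) (exI k) ?_ ?_ ?_ w
        hw1 hw2
    · rintro x y ⟨hx, hx'⟩ ⟨hy, hy'⟩
      exact ⟨add_mem hx hy, add_mem hx' hy'⟩
    · intro n hn r
      obtain ⟨l, rfl⟩ := hR n hn
      have h1 := smul_Tel a b hn r
      refine ⟨⟨single_mem_LpIn hn _, zero_mem _⟩, ?_⟩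
      have h2 : (⟨⟨AddMonoidAlgebra.single ((l : ℤ) * ε) r, 0⟩,
          ⟨single_mem_LpIn hn _, zero_mem _⟩⟩ : conSub a b B k) = r • (Tel a b B hε) ^ l := by
        rw [Tel_pow a b hε l hn]
        exact Subtype.ext h1.symm
      rw [h2]
      exact Submodule.smul_mem _ _ (Submodule.subset_span (Or.inl ⟨l, rfl⟩))
    · intro n hn r
      obtain ⟨l, rfl⟩ := hI n hn
      have h1 := smul_Tel_Wel a b (hall l) hm r
      refine ⟨⟨zero_mem _, single_mem_LpIn hn _⟩, ?_⟩
      have h2 : (⟨⟨0, AddMonoidAlgebra.single ((l : ℤ) * ε + m) r⟩,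
          ⟨zero_mem _, single_mem_LpIn hn _⟩⟩ : conSub a b B k) =
          r • ((Tel a b B hε) ^ l * Wel a b hm) := by
        rw [Tel_pow a b hε l (hall l)]
        exact Subtype.ext h1.symm
      rw [h2]
      exact Submodule.smul_mem _ _ (Submodule.subset_span (Or.inr ⟨l, rfl⟩))
    · exact ⟨zero_mem _, zero_mem _⟩
  exact (key z.1 z.2.1 z.2.2).2

end Con

section Main

variable {B : Type} [CommRing B] (a b : Bˣ)

lemma exAB (n : ℤ) : n ∈ exR cab := exR_all ⟨Finset.mem_univ _, Finset.mem_univ _⟩ n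

lemma Tn_add (m n : ℤ) : Cn.Tn (K := B) a b m * Cn.Tn (K := B) a b n =
    Cn.Tn (K := B) a b (m + n) :=
  Tel_mul a b B (exAB m) (exAB n) (exAB (m + n)) rfl

lemma Tn_zero : Cn.Tn (K := B) a b 0 = 1 := Tel_zero a b B (exAB 0)

variable (M : PMod (Cnc a b B))

/-- multiplication by `T^n` -/
noncomputable def gE (n : ℤ) : sec M cab ≃ₗ[B] sec M cab :=
  { mulE M cab (Cn.Tn (K := B) a b n) with
    invFun := fun x => Cn.Tn (K := B) a b (-n) • x
    left_inv := fun x => by
      change Cn.Tn (K := B) a b (-n) • (Cn.Tn (K := B) a b n • x) = x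
      rw [smul_smul, Tn_add, neg_add_cancel, Tn_zero, one_smul]
    right_inv := fun x => by
      change Cn.Tn (K := B) a b n • (Cn.Tn (K := B) a b (-n) • x) = x
      rw [smul_smul, Tn_add, add_neg_cancel, Tn_zero, one_smul] }

lemma gE_apply (n : ℤ) (x : sec M cab) : gE a b M n x = Cn.Tn (K := B) a b n • x := rfl

/-- powers -/
noncomputable def gHom : Multiplicative ℤ →* (sec M cab ≃ₗ[B] sec M cab) where
  toFun n := gE a b M n.toAdd
  map_one' := by
    ext x
    change Cn.Tn (K := B) a b 0 • x = x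
    rw [Tn_zero, one_smul]
  map_mul' m n := by
    ext x
    change Cn.Tn (K := B) a b (m.toAdd + n.toAdd) • x =
      Cn.Tn (K := B) a b m.toAdd • (Cn.Tn (K := B) a b n.toAdd • x)
    rw [smul_smul, Tn_add]

lemma gE_zpow (d : ℤ) (x : sec M cab) : ((gE a b M 1) ^ d) x = Cn.Tn (K := B) a b d • x := by
  have h1 : (gE a b M 1) ^ d = gE a b M d := by
    change (gHom a b M (Multiplicative.ofAdd 1)) ^ d = gHom a b M (Multiplicative.ofAdd d)
    rw [← map_zpow]
    congr 1
    rw [← ofAdd_zsmul]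
    simp
  rw [h1]
  rfl

lemma gE_pow (d : ℕ) (x : sec M cab) : ((gE a b M 1) ^ d) x = Cn.Tn (K := B) a b d • x := by
  rw [← zpow_natCast]
  exact gE_zpow a b M d x

lemma rA_smul (r : (Cnc a b B).ring ca) (x : sec M ca) :
    rA M (r • x) = ((Cnc a b B).toRing.map (homOfLE cab_le_ca).op r : (Cnc a b B).ring cab) •
      rA M x := rs_smul M _ r x

lemma rB_smul (r : (Cnc a b B).ring cb) (x : sec M cb) :
    rB M (r • x) = ((Cnc a b B).toRing.map (homOfLE cab_le_cb).op r : (Cnc a b B).ring cab) •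
      rB M x := rs_smul M _ r x

lemma pe_ca : pe ca = 0 := by
  unfold pe
  rw [if_pos]
  exact Finset.mem_singleton_self _

lemma pe_cb : pe cb = 1 := by
  unfold pe
  rw [if_neg]
  intro h
  exact absurd (Finset.mem_singleton.1 h) (by decide)

lemma pe_cab : pe cab = 0 := by
  unfold pe
  rw [if_pos]
  exact Finset.mem_univ _

lemma Tel_congr {k : Cov Bool} {n m : ℤ} (h : n ∈ exR k) (h' : m ∈ exR k) (e : n = m) :
    Tel a b B h = Tel a b B h' := by
  subst e
  rfl

lemma rA_tw (j : ℤ) (x : sec M ca) : rA ((cL a b B j).twObj M) x = rA M x := by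
  change ((cL a b B j).v (homOfLE cab_le_ca).op • rs M (homOfLE cab_le_ca).op x :
    M.obj (op cab)) = _
  have h1 : (cL a b B j).v (homOfLE cab_le_ca).op = (1 : (Cnc a b B).ring cab) := by
    change (Tel a b B (pe_mem cab_le_ca j) : conSub a b B cab) = 1
    rw [Tel_congr a b (pe_mem cab_le_ca j) (m := 0)
      (⟨fun _ => le_rfl, fun _ => le_rfl⟩) (by rw [pe_ca, pe_cab]; ring)]
    exact Tel_zero a b B _
  rw [h1]
  exact one_smul (M := (Cnc a b B).ring cab) _

lemma rB_tw (j : ℤ) (y : sec M cb) : rB ((cL a b B j).twObj M) y =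
    (Cn.Tn (K := B) a b j • rB M y : sec M cab) := by
  change ((cL a b B j).v (homOfLE cab_le_cb).op • rs M (homOfLE cab_le_cb).op y :
    M.obj (op cab)) = _
  have h1 : (cL a b B j).v (homOfLE cab_le_cb).op = (Cn.Tn (K := B) a b j :
      (Cnc a b B).ring cab) := by
    change (Tel a b B (pe_mem cab_le_cb j) : conSub a b B cab) = Tel a b B (exAB j)
    exact Tel_congr a b _ _ (by rw [pe_cb, pe_cab]; ring)
  rw [h1]
  rfl

lemma fgA (hM : IsCoh (Cnc a b B) M) : G.FGe (mulE M ca (Cn.TA (K := B) a b)) := by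
  have hf : false ∈ (ca : Cov Bool).s := Finset.mem_singleton_self _
  have ht : true ∉ (ca : Cov Bool).s := by
    intro h
    exact absurd (Finset.mem_singleton.1 h) (by decide)
  have hm : (0 : ℤ) ∈ exI ca := ⟨fun _ => le_rfl, fun h => absurd hf h⟩
  refine fge M ca (hM.1 (op ca)) (Cn.TA (K := B) a b)
    (show (Cnc a b B).ring ca from Wel a b (k := ca) hm) (fun r => ?_)
  refine span_gen a b (k := ca) (ε := 1) (m := 0)
    ⟨fun _ => by norm_num, fun h => absurd hf h⟩ hm ?_ ?_ ?_ r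
  · intro n hn
    exact ⟨n.toNat, by rw [mul_one]; exact Int.toNat_of_nonneg (hn.1 ht)⟩
  · intro n hn
    exact ⟨n.toNat, by rw [mul_one, add_zero]; exact Int.toNat_of_nonneg (hn.1 ht)⟩
  · intro l
    exact ⟨fun _ => by positivity, fun h => absurd hf h⟩

lemma fgB (hM : IsCoh (Cnc a b B) M) : G.FGe (mulE M cb (Cn.TB (K := B) a b)) := by
  have ht : true ∈ (cb : Cov Bool).s := Finset.mem_singleton_self _
  have hf : false ∉ (cb : Cov Bool).s := by
    intro h
    exact absurd (Finset.mem_singleton.1 h) (by decide)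
  have hm : (-1 : ℤ) ∈ exI cb := ⟨fun h => absurd ht h, fun _ => le_rfl⟩
  refine fge M cb (hM.1 (op cb)) (Cn.TB (K := B) a b)
    (show (Cnc a b B).ring cb from Wel a b (k := cb) hm) (fun r => ?_)
  refine span_gen a b (k := cb) (ε := -1) (m := -1)
    ⟨fun h => absurd ht h, fun _ => by norm_num⟩ hm ?_ ?_ ?_ r
  · intro n hn
    have := hn.2 hf
    exact ⟨(-n).toNat, by rw [Int.toNat_of_nonneg (by omega)]; ring⟩
  · intro n hn
    have := hn.2 hf
    exact ⟨(-n - 1).toNat, by rw [Int.toNat_of_nonneg (by omega)]; ring⟩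
  · intro l
    refine ⟨fun h => absurd ht h, fun _ => ?_⟩
    have : (0 : ℤ) ≤ l := by positivity
    linarith

/-- the module on the projective line given by the twist `j` -/
lemma isP1 (hLMA : Cn.Stmt_LMA) (hLMB : Cn.Stmt_LMB) (hM : IsCoh (Cnc a b B) M) (j : ℤ) :
    G.IsP1 (mulE M ca (Cn.TA (K := B) a b)) (mulE M cb (Cn.TB (K := B) a b)) (gE a b M 1)
      (rA M) ((gE a b M j).toLinearMap.comp (rB M)) := by
  obtain ⟨a1, a2⟩ := hLMA B B a b ⟨M, hM⟩
  obtain ⟨b1, b2⟩ := hLMB B B a b ⟨M, hM⟩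
  refine ⟨fun x => ?_, fun x => ?_, fun z => ?_, fun x hx => ?_, fun z => ?_, fun x hx => ?_⟩
  · rw [mulE_apply, rA_smul]
    rfl
  · rw [mulE_apply]
    change Cn.Tn (K := B) a b 1 • (Cn.Tn (K := B) a b j • rB M (Cn.TB (K := B) a b • x)) =
      Cn.Tn (K := B) a b j • rB M x
    rw [rB_smul]
    have h1 : ((Cnc a b B).toRing.map (homOfLE cab_le_cb).op (Cn.TB (K := B) a b) :
      (Cnc a b B).ring cab) = Cn.Tn (K := B) a b (-1) := rfl
    rw [h1, smul_smul, smul_smul, Tn_add, Tn_add]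
    congr 2
    ring
  · obtain ⟨n, x, hx⟩ := a1 z
    exact ⟨n, x, by rw [gE_pow]; exact hx.symm⟩
  · obtain ⟨n, hn⟩ := a2 x hx
    exact ⟨n, by rw [mulE_pow]; exact hn⟩
  · obtain ⟨n, y, hy⟩ := b1 (Cn.Tn (K := B) a b (-j) • z)
    refine ⟨n, y, ?_⟩
    rw [gE_pow]
    change z = Cn.Tn (K := B) a b n • (Cn.Tn (K := B) a b j • rB M y)
    have hy' : rB M y = Cn.Tn (K := B) a b (-n) • (Cn.Tn (K := B) a b (-j) • z) := hy
    rw [hy', smul_smul, smul_smul, smul_smul, Tn_add, Tn_add, Tn_add]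
    have : (n : ℤ) + j + -n + -j = 0 := by ring
    rw [this, Tn_zero, one_smul]
  · have hx' : rB M x = 0 := by
      have h1 : Cn.Tn (K := B) a b j • rB M x = 0 := hx
      have h2 := congrArg (fun t => Cn.Tn (K := B) a b (-j) • t) h1
      rw [smul_smul, Tn_add, neg_add_cancel, Tn_zero, one_smul, smul_zero] at h2
      exact h2
    obtain ⟨n, hn⟩ := b2 x hx'
    exact ⟨n, by rw [mulE_pow]; exact hn⟩

end Main

end SRV_

open SRV_ in
theorem srv_proof (hSER : G.Stmt_SER) (hFGN : G.Stmt_FGN) (hLMA : Cn.Stmt_LMA)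
    (hLMB : Cn.Stmt_LMB) : Stmt_SRV := by
  intro B _ _ a b M hM
  have hP0 := isP1 a b M hLMA hLMB hM 0
  obtain ⟨d₀, hd⟩ := hSER B (sec M ca) (sec M cb) (sec M cab) _ _ _ _ _ hP0 (fgA a b M hM)
  have hd' : ∀ d : ℤ, (d₀ : ℤ) ≤ d → ∀ z : sec M cab, ∃ (x : sec M ca) (y : sec M cb),
      z = rA M x + Cn.Tn (K := B) a b d • rB M y := by
    intro d hdd z
    obtain ⟨x, y, hxy⟩ := hd d hdd z
    refine ⟨x, y, hxy.trans ?_⟩
    rw [gE_zpow]
    change rA M x + Cn.Tn (K := B) a b d • (Cn.Tn (K := B) a b 0 • rB M y) = _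
    rw [smul_smul, Tn_add, add_zero]
  refine ⟨d₀ + 1, fun j hj => ⟨?_, ?_⟩⟩
  · intro z
    obtain ⟨x, y, hxy⟩ := hd' j (by linarith) z
    refine ⟨((x : sec M ca), (-y : sec M cb)), ?_⟩
    rw [dC_apply]
    have h1 : rA ((cL a b B j).twObj M) x = rA M x := rA_tw a b M j x
    have h2 : rB ((cL a b B j).twObj M) (-y : sec M cb) =
        (Cn.Tn (K := B) a b j • rB M (-y) : sec M cab) := rB_tw a b M j (-y)
    refine (congrArg₂ (fun s t : sec M cab => s - t) h1 h2).trans ?_
    rw [map_neg, smul_neg, sub_neg_eq_add]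
    exact hxy.symm
  · have hP := isP1 a b M hLMA hLMB hM j
    have hreg : G.Reg (gE a b M 1) (rA M) ((gE a b M j).toLinearMap.comp (rB M)) := by
      intro z
      obtain ⟨x, y, hxy⟩ := hd' (j - 1) (by linarith) z
      refine ⟨x, y, hxy.trans ?_⟩
      change _ = rA M x + Cn.Tn (K := B) a b (-1) • (Cn.Tn (K := B) a b j • rB M y)
      rw [smul_smul, Tn_add]
      congr 3
      ring
    have hfg := hFGN B (sec M ca) (sec M cb) (sec M cab) _ _ _ _ _ hP (fgA a b M hM)
      (fgB a b M hM) hreg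
    have heq : G.H0 (rA M) ((gE a b M j).toLinearMap.comp (rB M)) =
        LinearMap.ker (dC ((cL a b B j).twObj M)) := by
      refine Submodule.ext fun xy => ?_
      obtain ⟨x, y⟩ := xy
      have h1 : rA ((cL a b B j).twObj M) x = rA M x := rA_tw a b M j x
      have h2 : rB ((cL a b B j).twObj M) y =
        (Cn.Tn (K := B) a b j • rB M y : sec M cab) := rB_tw a b M j y
      have h4 := congrArg₂ (fun s t : sec M cab => s - t) h1 h2
      change rA M x = Cn.Tn (K := B) a b j • rB M y ↔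
        rA ((cL a b B j).twObj M) x - rB ((cL a b B j).twObj M) y = 0
      constructor
      · intro h
        exact h4.trans (sub_eq_zero.2 h)
      · intro h
        exact sub_eq_zero.1 (h4.symm.trans h)
    have hfg' : (LinearMap.ker (dC ((cL a b B j).twObj M))).FG := heq ▸ hfg
    exact Module.Finite.iff_fg.2 hfg'

end Pool.CRD.FB
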