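import Pool.Agent.CRD.D2.Stmts
import Pool.Agent.CRD.A0.FunL
import Pool.Agent.CRD.Lib.DbF

/-!
# CRD / D2 / TCH
-/

set_option linter.all false

open CategoryTheory Opposite Limits TensorProduct Pretriangulated

universe w₁ w₂ v₁ v₂ u₁ u₂ w

namespace Pool.CRD.FB

namespace TCH_

open FunL

section gen

variable {A : Type u₁} [Category.{v₁} A] [Abelian A] [HasDerivedCategory.{w₁} A]
  {B : Type u₂} [Category.{v₂} B] [Abelian B] [HasDerivedCategory.{w₂} B]

noncomputable def ffD (e : A ≌ B) [ExF e.functor] [ExF e.inverse] :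
    (mD e.functor).FullyFaithful :=
  haveI : IsIso e.toAdjunction.unit := inferInstanceAs (IsIso e.unit)
  haveI : IsIso (adjD e.toAdjunction).unit := inferInstanceAs (IsIso (unitD e.toAdjunction))
  (adjD e.toAdjunction).fullyFaithfulLOfIsIsoUnit

noncomputable def ffB (e : A ≌ B) [ExF e.functor] [ExF e.inverse] :
    (mB e.functor).FullyFaithful :=
  haveI : (DerivedCategory.Bounded.ι (C := B)).Faithful := inferInstance
  Functor.FullyFaithful.ofCompFaithful (G := DerivedCategory.Bounded.ι (C := B))
    (((DerivedCategory.TStructure.t.bounded.fullyFaithfulι.comp (ffD e)) :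
      (DerivedCategory.Bounded.ι ⋙ mD e.functor).FullyFaithful))

end gen

variable {K : Type} [Field K] {c : CurveData K} {C : Type} [Preorder C] {R : PAlg K C} [R.Good]
    {D : Dir c R} {y : c.Pt} (τ : TwJ D y)

/-- the twist on coherent modules -/
noncomputable def TC : Coh R ⥤ Coh R :=
  (IsCoh R).lift ((IsCoh R).ι ⋙ τ.T) (fun M => τ.coh _ M.property)

noncomputable def TC' : Coh R ⥤ Coh R :=
  (IsCoh R).lift ((IsCoh R).ι ⋙ τ.T') (fun M => τ.coh' _ M.property)

/-- the twist is an equivalence -/
noncomputable def eqC : Coh R ≌ Coh R :=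
  CategoryTheory.Equivalence.mk (TC τ) (TC' τ)
    (NatIso.ofComponents (fun M => (IsCoh R).isoMk (τ.e.symm.app M.obj)) (by
      intro M N f
      apply ObjectProperty.hom_ext
      exact τ.e.inv.naturality f.hom))
    (NatIso.ofComponents (fun M => (IsCoh R).isoMk (τ.e'.app M.obj)) (by
      intro M N f
      apply ObjectProperty.hom_ext
      exact τ.e'.hom.naturality f.hom))

instance : (TC τ).Additive := by
  haveI := τ.addT
  exact ⟨fun {M N f g} => by
    apply ObjectProperty.hom_ext
    exact τ.T.map_add⟩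

instance : (TC τ).Linear K := by
  haveI := τ.linT
  exact ⟨fun {M N} f r => by
    apply ObjectProperty.hom_ext
    exact τ.T.map_smul r f.hom⟩

instance : (eqC τ).functor.Additive := inferInstanceAs (TC τ).Additive
instance : (eqC τ).functor.Linear K := inferInstanceAs ((TC τ).Linear K)

instance : ExF (eqC τ).functor where
  add := inferInstance
  lim := inferInstance
  colim := inferInstance

instance : ExF (eqC τ).inverse where
  add := inferInstance
  lim := inferInstance
  colim := inferInstance

/-- coherent modules in `D^b`: compatibility with the twist -/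
noncomputable def sgIso (M : Coh R) :
    (mB (eqC τ).functor).obj ((sgB R).obj M) ≅ (sgB R).obj ((eqC τ).functor.obj M) :=
  (DerivedCategory.TStructure.t (C := Coh R)).bounded.isoMk
    (((eqC τ).functor.mapDerivedCategorySingleFunctor 0).app M)

/-- the isomorphism on `Hom` -/
noncomputable def homL (M N M' N' : Coh R) (eM : M' ≅ (eqC τ).functor.obj M)
    (eN : N' ≅ (eqC τ).functor.obj N) (n : ℤ) :
    ((sgB R).obj M ⟶ ((sgB R).obj N)⟦n⟧) ≃ₗ[K] ((sgB R).obj M' ⟶ ((sgB R).obj N')⟦n⟧) :=
  (LinearEquiv.ofBijective ((mB (eqC τ).functor).mapLinearMap K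
    (X := (sgB R).obj M) (Y := ((sgB R).obj N)⟦n⟧))
    ((ffB (eqC τ)).map_bijective _ _)).trans
  (Linear.homCongr K (sgIso τ M ≪≫ ((sgB R).mapIso eM).symm)
    (((mB (eqC τ).functor).commShiftIso n).app ((sgB R).obj N) ≪≫
      (shiftFunctor (Db R) n).mapIso (sgIso τ N ≪≫ ((sgB R).mapIso eN).symm)))

end TCH_

open TCH_ in
theorem tch_proof : Stmt_TCH := by
  intro K _ c C _ R _ D y τ M N M' N' ⟨eM⟩ ⟨eN⟩
  unfold chi
  refine finsum_congr fun n => ?_
  congr 2
  exact (LinearEquiv.finrank_eq (homL τ M N M' N' ((IsCoh R).isoMk eM) ((IsCoh R).isoMk eN) n)).symm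

end Pool.CRD.FB
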