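import Pool.Agent.CRD.D2.Stmts

/-!
# CRD, area FB: module TFX (vector bundles are torsion free)
-/

open CategoryTheory Opposite Limits TensorProduct Pretriangulated

namespace Pool.CRD.FB

namespace TFX_

lemma proj_tf {R V : Type} [Ring R] [AddCommGroup V] [Module R V] [Module.Projective R V] (r : R)
    (hr : ∀ x : R, r * x = 0 → x = 0) (m : V) (h : r • m = 0) : m = 0 := by
  obtain ⟨s, hs⟩ := Module.Projective.out (R := R) (P := V)
  have h1 : r • s m = 0 := by rw [← map_smul, h, map_zero]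
  have h2 : s m = 0 := by
    ext p
    exact hr _ (DFunLike.congr_fun h1 p)
  rw [← hs m, h2, map_zero]

end TFX_

open TFX_

theorem tfx_proof (hTFA : D1.Stmt_TFA) (hTFB : D1.Stmt_TFB) : Stmt_TFX := by
  intro K _ c₁ c₂ S X V hV
  refine ⟨fun t => hTFA K c₁ c₂ S X t V hV, ?_, fun y t => hTFB K c₁ c₂ S X y t V hV⟩
  intro t Y h f hf m hm
  have := hV Y
  refine proj_tf (R := X.R.toRing.obj Y) (V := V.obj Y) _ (fun x hx => ?_) m hm
  have h1 : X.ofL (S.e₂ (f : c₂.F)) * ((show X.A Y.unop.i Y.unop.j Y.unop.k from x) : X.E) = 0 :=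
    congrArg (fun y : X.A Y.unop.i Y.unop.j Y.unop.k => (y : X.E)) hx
  have h2 : X.ofL (S.e₂ (f : c₂.F)) ≠ 0 := by
    intro h'
    have h3 : S.e₂ (f : c₂.F) = 0 := X.ofL.toRingHom.injective (h'.trans (map_zero _).symm)
    have h4 : (f : c₂.F) = 0 := S.e₂.toRingHom.injective (h3.trans (map_zero _).symm)
    exact hf (Subtype.ext h4)
  exact Subtype.ext ((mul_eq_zero.1 h1).resolve_left h2)

end Pool.CRD.FB
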