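import Pool.Agent.CRD.D2.Stmts

/-!
# CRD / D2 / TWG: change of the base ring commutes with twists
-/

open CategoryTheory Opposite Limits TensorProduct Pretriangulated

namespace Pool.CRD.FB

namespace TWG_

section

variable {B' : Type} [CommRing B'] (a' b' : B'ˣ) (K' : Type) [CommRing K'] [Algebra K' B']

/-- units of the base ring as units of a chart ring -/
noncomputable def cu (k : Cov Bool) (u : B'ˣ) : (conSub a' b' K' k)ˣ :=
  Units.map (conC a' b' K' k : B' →* conSub a' b' K' k) u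

/-- restriction of functions on the conic -/
noncomputable def rr {X Y : (Cov Bool)ᵒᵖ} (φ : X ⟶ Y) :
    conSub a' b' K' X.unop →+* conSub a' b' K' Y.unop := ((Cnc a' b' K').map φ).hom.toRingHom

lemma cu_map {k l : Cov Bool} (f : (op k : (Cov Bool)ᵒᵖ) ⟶ op l) (u : B'ˣ) :
    ((Cnc a' b' K').map f).hom ((cu a' b' K' k u : (conSub a' b' K' k)ˣ) : conSub a' b' K' k) =
      ((cu a' b' K' l u : (conSub a' b' K' l)ˣ) : conSub a' b' K' l) := rfl

end

section

variable {B B' : Type} [CommRing B] [CommRing B'] (f : B →+* B') (a b : Bˣ) (a' b' κ μ : B'ˣ)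
    (ha : (a' : B') = (κ : B') ^ 2 * f a) (hb : (b' : B') = (μ : B') ^ 2 * f b)
    (K K' : Type) [CommRing K] [CommRing K'] [Algebra K B] [Algebra K' B']

lemma conMapR_Tel {k : Cov Bool} {n : ℤ} (h : n ∈ exR k) :
    conMapR f κ μ ha hb K K' k (Tel a b K h) =
      ((cu a' b' K' k (κ ^ n) : (conSub a' b' K' k)ˣ) : conSub a' b' K' k) *
        Tel a' b' K' h := by
  apply Subtype.ext
  apply QuadraticAlgebra.ext
  · change lauMap f κ (AddMonoidAlgebra.single n 1) =
      AddMonoidAlgebra.single 0 ((κ ^ n : B'ˣ) : B') * AddMonoidAlgebra.single n 1 +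
        conQ a' b' * 0 * 0
    rw [lauMap_single, AddMonoidAlgebra.single_mul_single, map_one, one_mul, mul_one, zero_add,
      mul_zero, add_zero]
  · change LaurentPolynomial.C (μ : B') * lauMap f κ 0 =
      AddMonoidAlgebra.single 0 ((κ ^ n : B'ˣ) : B') * 0 + 0 * AddMonoidAlgebra.single n 1 +
        0 * 0 * 0
    rw [map_zero, mul_zero, mul_zero, zero_mul, mul_zero, add_zero, add_zero]

noncomputable instance (M : PMod (Cnc a b K)) (X : (Cov Bool)ᵒᵖ) :
    Module (conSub a b K X.unop) (M.obj X) :=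
  inferInstanceAs (Module ((Cnc a b K).toRing.obj X) (M.obj X))

/-- multiplication by the constant -/
noncomputable def mu (M : PMod (Cnc a b K)) (X : (Cov Bool)ᵒᵖ) (u : B'ˣ) :
    BT (conMapR f κ μ ha hb K K' X.unop) (M.obj X) ≃ₗ[conSub a' b' K' X.unop]
      BT (conMapR f κ μ ha hb K K' X.unop) (M.obj X) :=
  LinearEquiv.smulOfUnit (cu a' b' K' X.unop u)

lemma mu_bt (M : PMod (Cnc a b K)) (X : (Cov Bool)ᵒᵖ) (u : B'ˣ) (y : conSub a' b' K' X.unop)
    (m : M.obj X) : mu f a b a' b' κ μ ha hb K K' M X u (bt _ y m) =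
      bt _ (((cu a' b' K' X.unop u : (conSub a' b' K' X.unop)ˣ) : conSub a' b' K' X.unop) * y)
        m := rfl

lemma alg {R : Type} [CommRing R] (a b c d : R) : a * b * (c * d) = b * (a * c * d) := by ring

end

end TWG_

theorem twg_proof : Stmt_TWG := by
  intro B B' _ _ f a b a' b' κ μ ha hb K K' _ _ _ _ M j
  refine ⟨mkIso (M := (cnG f κ μ ha hb K K').obj ((cL a b K j).twObj M))
    (N := (cL a' b' K' j).twObj ((cnG f κ μ ha hb K K').obj M))
    (fun X => TWG_.mu f a b a' b' κ μ ha hb K K' M X (κ ^ (j * pe X.unop))) ?_⟩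
  intro X Y φ x
  refine bt_induction (M := M.obj X) (conMapR f κ μ ha hb K K' X.unop) (P := fun x =>
    TWG_.mu f a b a' b' κ μ ha hb K K' M Y (κ ^ (j * pe Y.unop))
      (rs ((cnG f κ μ ha hb K K').obj ((cL a b K j).twObj M)) φ x) =
    rs ((cL a' b' K' j).twObj ((cnG f κ μ ha hb K K').obj M)) φ
      (TWG_.mu f a b a' b' κ μ ha hb K K' M X (κ ^ (j * pe X.unop)) x)) ?_ ?_ ?_ x
  · refine Eq.trans (congrArg (TWG_.mu f a b a' b' κ μ ha hb K K' M Y (κ ^ (j * pe Y.unop)))
      (rs_zero ((cnG f κ μ ha hb K K').obj ((cL a b K j).twObj M)) φ)) ?_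
    refine Eq.trans (map_zero (TWG_.mu f a b a' b' κ μ ha hb K K' M Y _)) ?_
    refine Eq.symm (Eq.trans (congrArg
      (rs ((cL a' b' K' j).twObj ((cnG f κ μ ha hb K K').obj M)) φ)
      (map_zero (TWG_.mu f a b a' b' κ μ ha hb K K' M X (κ ^ (j * pe X.unop))))) ?_)
    exact rs_zero _ φ
  · intro y m
    refine Eq.trans (bt_smul_right (conMapR f κ μ ha hb K K' Y.unop) _
      (Tel a b K (pe_mem (leOfHom φ.unop) j)) (rs M φ m)) ?_
    change bt _ (conMapR f κ μ ha hb K K' Y.unop (Tel a b K (pe_mem (leOfHom φ.unop) j)) *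
        (((TWG_.cu a' b' K' Y.unop (κ ^ (j * pe Y.unop)) : (conSub a' b' K' Y.unop)ˣ) :
          conSub a' b' K' Y.unop) * TWG_.rr a' b' K' φ y)) (rs M φ m) =
      bt _ ((Tel a' b' K' (pe_mem (leOfHom φ.unop) j)) * TWG_.rr a' b' K' φ
        ((((TWG_.cu a' b' K' X.unop (κ ^ (j * pe X.unop)) : (conSub a' b' K' X.unop)ˣ) :
          conSub a' b' K' X.unop)) * y)) (rs M φ m)
    refine congrArg (fun t => bt _ t (rs M φ m)) ?_
    rw [TWG_.conMapR_Tel]
    have e1 : TWG_.rr a' b' K' φ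
        ((((TWG_.cu a' b' K' X.unop (κ ^ (j * pe X.unop)) : (conSub a' b' K' X.unop)ˣ) :
          conSub a' b' K' X.unop)) * y) =
        ((TWG_.cu a' b' K' Y.unop (κ ^ (j * pe X.unop)) : (conSub a' b' K' Y.unop)ˣ) :
          conSub a' b' K' Y.unop) * TWG_.rr a' b' K' φ y :=
      map_mul (TWG_.rr a' b' K' φ) _ _
    have e2 : ((TWG_.cu a' b' K' Y.unop (κ ^ (j * pe X.unop)) : (conSub a' b' K' Y.unop)ˣ) :
          conSub a' b' K' Y.unop) =
        ((TWG_.cu a' b' K' Y.unop (κ ^ (j * (pe X.unop - pe Y.unop))) :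
          (conSub a' b' K' Y.unop)ˣ) : conSub a' b' K' Y.unop) *
        ((TWG_.cu a' b' K' Y.unop (κ ^ (j * pe Y.unop)) : (conSub a' b' K' Y.unop)ˣ) :
          conSub a' b' K' Y.unop) := by
      rw [← Units.val_mul]
      unfold TWG_.cu
      rw [← map_mul, ← zpow_add]
      congr 3
      ring
    refine Eq.trans ?_ (congrArg (fun t => Tel a' b' K' (pe_mem (leOfHom φ.unop) j) * t)
      e1).symm
    rw [e2]
    exact TWG_.alg _ _ _ _
  · intro x y hx hy
    refine Eq.trans (congrArg (TWG_.mu f a b a' b' κ μ ha hb K K' M Y (κ ^ (j * pe Y.unop)))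
      (rs_add ((cnG f κ μ ha hb K K').obj ((cL a b K j).twObj M)) φ x y)) ?_
    refine Eq.trans (LinearEquiv.map_add (TWG_.mu f a b a' b' κ μ ha hb K K' M Y _) _ _) ?_
    refine Eq.trans (congrArg₂ (fun s t => s + t) hx hy) ?_
    refine Eq.symm (Eq.trans (congrArg
      (rs ((cL a' b' K' j).twObj ((cnG f κ μ ha hb K K').obj M)) φ)
      (LinearEquiv.map_add (TWG_.mu f a b a' b' κ μ ha hb K K' M X (κ ^ (j * pe X.unop)))
        x y)) ?_)
    exact rs_add _ φ _ _

end Pool.CRD.FB
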